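import Pool.Agent.Lib.MP_8fac0f_nt.N.Defs

/-!
# The inequality of van der Corput with an arbitrary finite family of shifts
-/

set_option autoImplicit false

namespace Pool.Agent.Lib.MP_8fac0f_nt.N

open Finset

theorem V_shift (F : ℕ → ℂ) (hF : ∀ n, ‖F n‖ ≤ 1) (N k : ℕ) :
    ‖∑ n ∈ range N, F n - ∑ n ∈ range N, F (n + k)‖ ≤ 2 * k := by
  have h1 : ∑ n ∈ range (N + k), F n = ∑ n ∈ range N, F n + ∑ n ∈ range k, F (N + n) :=
    Finset.sum_range_add F N k
  have h2 : ∑ n ∈ range (N + k), F n = ∑ n ∈ range k, F n + ∑ n ∈ range N, F (n + k) := by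
    rw [add_comm N k, Finset.sum_range_add F k N]
    simp_rw [add_comm k]
  have h3 : ∑ n ∈ range N, F n - ∑ n ∈ range N, F (n + k)
      = ∑ n ∈ range k, F n - ∑ n ∈ range k, F (N + n) := by
    linear_combination h2 - h1
  have h4 : ∀ f : ℕ → ℂ, (∀ n, ‖f n‖ ≤ 1) → ‖∑ n ∈ range k, f n‖ ≤ k := fun f hf => by
    refine (norm_sum_le _ _).trans ((Finset.sum_le_sum fun n _ => hf n).trans ?_)
    simp
  rw [h3]
  refine (norm_sub_le _ _).trans ?_
  have a := h4 F hF
  have b := h4 (fun n => F (N + n)) (fun n => hF _)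
  linarith

theorem vdcC (F : ℕ → ℂ) (hF : ∀ n, ‖F n‖ ≤ 1) (N R D : ℕ) (hN : 0 < N) (hR : 0 < R)
    (h : ℕ → ℕ) (hD : ∀ i < R, h i ≤ D) (B : ℝ) (hB0 : 0 ≤ B)
    (hB : ∀ i < R, ∀ j < R, i ≠ j →
      ‖∑ n ∈ range N, F (n + h i) * (starRingEnd ℂ) (F (n + h j))‖ ≤ B * N) :
    ‖∑ n ∈ range N, F n‖ ≤ (Real.sqrt (1 / R + B) + 2 * D / N) * N := by
  have hNr : (0 : ℝ) < N := by exact_mod_cast hN
  have hRr : (0 : ℝ) < R := by exact_mod_cast hR
  set G : ℕ → ℂ := fun n => ∑ i ∈ range R, F (n + h i) with hG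
  have hE : ∑ n ∈ range N, ‖G n‖ ^ 2 ≤ R * N + R ^ 2 * (B * N) := by
    have e1 : ((∑ n ∈ range N, ‖G n‖ ^ 2 : ℝ) : ℂ) =
        ∑ i ∈ range R, ∑ j ∈ range R, ∑ n ∈ range N,
          F (n + h i) * (starRingEnd ℂ) (F (n + h j)) := by
      have e0 : ∀ n, (((‖G n‖ ^ 2 : ℝ)) : ℂ) =
          ∑ i ∈ range R, ∑ j ∈ range R, F (n + h i) * (starRingEnd ℂ) (F (n + h j)) := by
        intro n
        have : (((‖G n‖ ^ 2 : ℝ)) : ℂ) = G n * (starRingEnd ℂ) (G n) := by
          rw [Complex.mul_conj, Complex.normSq_eq_norm_sq]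
        rw [this]
        simp only [hG, map_sum, Finset.sum_mul_sum]
      rw [Complex.ofReal_sum]
      simp_rw [e0]
      rw [Finset.sum_comm]
      refine Finset.sum_congr rfl fun i _ => ?_
      rw [Finset.sum_comm]
    have e2 : ∀ i ∈ range R, ∀ j ∈ range R,
        ‖∑ n ∈ range N, F (n + h i) * (starRingEnd ℂ) (F (n + h j))‖
          ≤ (if i = j then (N : ℝ) else 0) + B * N := by
      intro i hi j hj
      by_cases hij : i = j
      · rw [if_pos hij]
        refine (norm_sum_le _ _).trans ?_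
        have : ∑ n ∈ range N, ‖F (n + h i) * (starRingEnd ℂ) (F (n + h j))‖ ≤ N := by
          refine (Finset.sum_le_sum (g := fun _ => (1 : ℝ)) fun n _ => ?_).trans (by simp)
          rw [norm_mul, RCLike.norm_conj]
          exact mul_le_one₀ (hF _) (norm_nonneg _) (hF _)
        have hBN : 0 ≤ B * N := by positivity
        linarith
      · rw [if_neg hij, zero_add]
        exact hB i (Finset.mem_range.1 hi) j (Finset.mem_range.1 hj) hij
    have e3 : ∑ n ∈ range N, ‖G n‖ ^ 2 = ‖((∑ n ∈ range N, ‖G n‖ ^ 2 : ℝ) : ℂ)‖ := by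
      rw [Complex.norm_real, Real.norm_of_nonneg (Finset.sum_nonneg fun _ _ => by positivity)]
    rw [e3, e1]
    refine (norm_sum_le _ _).trans ?_
    refine (Finset.sum_le_sum fun i hi => (norm_sum_le _ _).trans
      (Finset.sum_le_sum fun j hj => e2 i hi j hj)).trans ?_
    simp only [Finset.sum_add_distrib, Finset.sum_ite_eq, Finset.sum_const, Finset.card_range,
      nsmul_eq_mul]
    have : ∑ i ∈ range R, (if i ∈ range R then (N : ℝ) else 0) = R * N := by
      rw [Finset.sum_congr rfl fun i hi => if_pos hi]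
      simp
    rw [this]
    nlinarith
  have hS : ‖∑ n ∈ range N, G n‖ ≤ N * R * Real.sqrt (1 / R + B) := by
    have c1 : ‖∑ n ∈ range N, G n‖ ^ 2 ≤ N * ∑ n ∈ range N, ‖G n‖ ^ 2 := by
      have := sq_sum_le_card_mul_sum_sq (s := range N) (f := fun n => ‖G n‖)
      rw [Finset.card_range] at this
      exact (pow_le_pow_left₀ (norm_nonneg _) (norm_sum_le _ _) 2).trans this
    have c2 : ‖∑ n ∈ range N, G n‖ ^ 2 ≤ (N * R * Real.sqrt (1 / R + B)) ^ 2 := by
      rw [mul_pow, Real.sq_sqrt (by positivity)]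
      have : ((N : ℝ) * R) ^ 2 * (1 / R + B) = N * (R * N + R ^ 2 * (B * N)) := by
        field_simp
      rw [this]
      exact c1.trans (mul_le_mul_of_nonneg_left hE hNr.le)
    exact (pow_le_pow_iff_left₀ (norm_nonneg _) (by positivity) two_ne_zero).1 c2
  have hT : (R : ℝ) * ‖∑ n ∈ range N, F n‖ ≤ ‖∑ n ∈ range N, G n‖ + R * (2 * D) := by
    have d1 : (R : ℂ) * ∑ n ∈ range N, F n = ∑ n ∈ range N, G n +
        ∑ i ∈ range R, (∑ n ∈ range N, F n - ∑ n ∈ range N, F (n + h i)) := by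
      have : ∑ n ∈ range N, G n = ∑ i ∈ range R, ∑ n ∈ range N, F (n + h i) := by
        simp only [hG]
        rw [Finset.sum_comm]
      rw [this, Finset.sum_sub_distrib]
      simp
    have d2 : ‖(R : ℂ) * ∑ n ∈ range N, F n‖ = R * ‖∑ n ∈ range N, F n‖ := by
      rw [norm_mul, Complex.norm_natCast]
    rw [← d2, d1]
    refine (norm_add_le _ _).trans (add_le_add le_rfl ?_)
    refine (norm_sum_le _ _).trans ?_
    refine (Finset.sum_le_sum (g := fun _ => (2 * D : ℝ)) fun i hi => ?_).trans (by simp)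
    refine (V_shift F hF N (h i)).trans ?_
    have : (h i : ℝ) ≤ D := by exact_mod_cast hD i (Finset.mem_range.1 hi)
    linarith
  have hfin : (Real.sqrt (1 / R + B) + 2 * D / N) * N = N * Real.sqrt (1 / R + B) + 2 * D := by
    field_simp
  rw [hfin]
  have : (R : ℝ) * ‖∑ n ∈ range N, F n‖ ≤ R * (N * Real.sqrt (1 / R + B) + 2 * D) := by
    linarith
  exact le_of_mul_le_mul_left this hRr

theorem vdcR (F : ℕ → ℝ) (hF : ∀ n, |F n| ≤ 1) (N R D : ℕ) (hN : 0 < N) (hR : 0 < R)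
    (h : ℕ → ℕ) (hD : ∀ i < R, h i ≤ D) (B : ℝ) (hB0 : 0 ≤ B)
    (hB : ∀ i < R, ∀ j < R, i ≠ j → |∑ n ∈ range N, F (n + h i) * F (n + h j)| ≤ B * N) :
    |∑ n ∈ range N, F n| ≤ (Real.sqrt (1 / R + B) + 2 * D / N) * N := by
  have key := vdcC (fun n => (F n : ℂ)) (fun n => by
    simpa [Complex.norm_real] using hF n) N R D hN hR h hD B hB0 (fun i hi j hj hij => by
      have := hB i hi j hj hij
      simp only [Complex.conj_ofReal, ← Complex.ofReal_mul, ← Complex.ofReal_sum,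
        Complex.norm_real, Real.norm_eq_abs]
      exact this)
  rw [← Complex.ofReal_sum, Complex.norm_real, Real.norm_eq_abs] at key
  exact key

end Pool.Agent.Lib.MP_8fac0f_nt.N
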