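import Pool.Agent.Lib.MP_8fac0f_nt.N.Defs

/-!
# TR: truncation above, any degree
-/

set_option autoImplicit false

namespace Pool.Agent.Lib.MP_8fac0f_nt.N

open Finset Polynomial

theorem tr_eval_mono (P : ℕ[X]) : Monotone (fun n => P.eval n) := by
  intro x y hxy
  simp only [eval_eq_sum_range]
  exact sum_le_sum fun i _ => Nat.mul_le_mul_left _ (Nat.pow_le_pow_left hxy i)

theorem tr_tele (F : ℕ → ℕ) (hF : Monotone F) (m N : ℕ) :
    ∑ n ∈ range N, (F (n + m) - F n) ≤ m * F (N + m) := by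
  have key : ∑ n ∈ range N, (F (n + m) - F n) + ∑ n ∈ range N, F n =
      ∑ n ∈ range N, F (n + m) := by
    rw [← sum_add_distrib]
    exact sum_congr rfl fun n _ => Nat.sub_add_cancel (hF (Nat.le_add_right _ _))
  have h1 : ∑ n ∈ range (N + m), F n = ∑ n ∈ range N, F n + ∑ i ∈ range m, F (N + i) :=
    sum_range_add _ _ _
  have h2 : ∑ n ∈ range (m + N), F n = ∑ n ∈ range m, F n + ∑ i ∈ range N, F (m + i) :=
    sum_range_add _ _ _
  have h3 : ∑ i ∈ range N, F (m + i) = ∑ n ∈ range N, F (n + m) :=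
    sum_congr rfl fun n _ => by rw [Nat.add_comm]
  have h4 : ∑ i ∈ range m, F (N + i) ≤ m * F (N + m) := by
    calc ∑ i ∈ range m, F (N + i) ≤ ∑ _i ∈ range m, F (N + m) :=
          sum_le_sum fun i hi => hF (Nat.add_le_add_left (mem_range.mp hi).le _)
      _ = m * F (N + m) := by rw [sum_const, card_range, smul_eq_mul]
  rw [Nat.add_comm m N] at h2
  omega

theorem trunc (P : ℕ[X]) (J : Finset ℕ) (hJ : Even J.card) (m : ℕ) (hm : ∀ j ∈ J, j ≤ m)
    (K N : ℕ) :
    (((range N).filter (fun n => ∏ j ∈ J, sg (P.eval (n + j)) ≠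
      ∏ j ∈ J, sg (P.eval (n + j) % 2 ^ K))).card : ℝ) ≤ m * (P.eval (N + m) : ℕ) / 2 ^ K := by
  set F : ℕ → ℕ := fun n => P.eval n / 2 ^ K with hF
  have hmono : Monotone F := fun x y hxy => Nat.div_le_div_right (tr_eval_mono P hxy)
  have h1 : ∀ n ∈ (range N).filter (fun n => ∏ j ∈ J, sg (P.eval (n + j)) ≠
      ∏ j ∈ J, sg (P.eval (n + j) % 2 ^ K)), 1 ≤ F (n + m) - F n := by
    intro n hn
    by_contra hcon
    apply (mem_filter.mp hn).2
    have hle : F (n + m) ≤ F n := by omega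
    have heq : ∀ j ∈ J, P.eval (n + j) / 2 ^ K = F n := fun j hj =>
      le_antisymm ((hmono (Nat.add_le_add_left (hm j hj) n)).trans hle)
        (hmono (Nat.le_add_right _ _))
    have e : ∀ j ∈ J, sg (P.eval (n + j)) = sg (P.eval (n + j) % 2 ^ K) * sg (F n) := by
      intro j hj
      rw [sg_mod_div K (P.eval (n + j)), heq j hj]
    rw [prod_congr rfl e, prod_mul_distrib, prod_const]
    obtain ⟨c, hc⟩ := hJ
    rw [hc, ← two_mul, pow_mul, pow_two, sg_sq, one_pow, mul_one]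
  have h2 : ((range N).filter (fun n => ∏ j ∈ J, sg (P.eval (n + j)) ≠
      ∏ j ∈ J, sg (P.eval (n + j) % 2 ^ K))).card ≤ ∑ n ∈ range N, (F (n + m) - F n) := by
    rw [card_eq_sum_ones]
    refine (sum_le_sum h1).trans ?_
    exact sum_le_sum_of_subset (filter_subset _ _)
  have h3 := h2.trans (tr_tele F hmono m N)
  have h4 : ((F (N + m) : ℕ) : ℝ) ≤ (P.eval (N + m) : ℕ) / 2 ^ K := by
    have := @Nat.cast_div_le ℝ _ _ _ (P.eval (N + m)) (2 ^ K)
    simpa [hF] using this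
  calc (((range N).filter (fun n => ∏ j ∈ J, sg (P.eval (n + j)) ≠
      ∏ j ∈ J, sg (P.eval (n + j) % 2 ^ K))).card : ℝ) ≤ ((m * F (N + m) : ℕ) : ℝ) := by
        exact_mod_cast h3
    _ = m * (F (N + m) : ℝ) := by push_cast; ring
    _ ≤ m * ((P.eval (N + m) : ℕ) / 2 ^ K) := mul_le_mul_of_nonneg_left h4 (Nat.cast_nonneg _)
    _ = m * (P.eval (N + m) : ℕ) / 2 ^ K := by ring

end Pool.Agent.Lib.MP_8fac0f_nt.N
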