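import Pool.Agent.Lib.MP_8fac0f_nt.N.Defs

/-!
# Thue-Morse along polynomials: the contraction lemma
-/

set_option autoImplicit false

namespace Pool.Agent.Lib.MP_8fac0f_nt.N

open Finset

/-- Splitting a box into blocks of side `M`. -/
theorem sum_split {D : Type*} [Fintype D] [DecidableEq D] (M : ℕ) (hM : 0 < M) (B : D → ℕ)
    (f : (D → ℕ) → ℝ) :
    ∑ v ∈ Fintype.piFinset (fun d : D => range (M * B d)), f v =
      ∑ u ∈ Fintype.piFinset (fun _ : D => range M),
        ∑ V ∈ Fintype.piFinset (fun d : D => range (B d)), f (fun d => M * V d + u d) := by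
  rw [← Finset.sum_product']
  refine Finset.sum_nbij' (fun v => (fun d => v d % M, fun d => v d / M))
    (fun x => fun d => M * x.2 d + x.1 d) ?_ ?_ ?_ ?_ ?_
  · intro v hv
    simp only [Finset.mem_product, Fintype.mem_piFinset, mem_range] at hv ⊢
    exact ⟨fun d => Nat.mod_lt _ hM, fun d => Nat.div_lt_of_lt_mul (hv d)⟩
  · rintro ⟨u, V⟩ h
    simp only [Finset.mem_product, Fintype.mem_piFinset, mem_range] at h ⊢
    intro d
    have h1 := h.1 d
    have h2 := h.2 d
    calc M * V d + u d < M * V d + M := by omega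
      _ = M * (V d + 1) := by ring
      _ ≤ M * B d := Nat.mul_le_mul_left _ h2
  · intro v _
    funext d
    exact Nat.div_add_mod (v d) M
  · rintro ⟨u, V⟩ h
    simp only [Finset.mem_product, Fintype.mem_piFinset, mem_range] at h
    ext d
    · show (M * V d + u d) % M = u d
      rw [Nat.mul_add_mod, Nat.mod_eq_of_lt (h.1 d)]
    · show (M * V d + u d) / M = V d
      rw [Nat.mul_add_div hM, Nat.div_eq_of_lt (h.1 d), add_zero]
  · intro v _
    simp [Nat.div_add_mod]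

theorem lin_split {I D : Type*} [Fintype D] (p : I → D → ℕ) (i : I) (M : ℕ) (V u : D → ℕ) :
    lin p i (fun d => M * V d + u d) = M * lin p i V + lin p i u := by
  unfold lin
  rw [Finset.mul_sum, ← Finset.sum_add_distrib]
  exact Finset.sum_congr rfl (fun d _ => by ring)

/-- Splitting off `T` digits from a number taken modulo `2 ^ (T + k)`. -/
theorem sg_low (T k X y : ℕ) :
    sg ((2 ^ T * X + y) % 2 ^ (T + k)) = sg (y % 2 ^ T) * sg ((X + y / 2 ^ T) % 2 ^ k) := by
  have hT : 0 < 2 ^ T := pow_pos (by norm_num) T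
  rw [pow_add, Nat.mod_mul, Nat.mul_add_mod, Nat.mul_add_div hT, add_comm]
  exact sg_split T _ _ (Nat.mod_lt _ hT)

/-- Recursion for the transfer sums. -/
theorem Phi_add {I D : Type*} [Fintype I] [Fintype D] [DecidableEq D] (p : I → D → ℕ)
    (L T : ℕ) (c : I → ℕ) (h : (I → ℕ) → ℝ) :
    Phi p (L + T) c h = ∑ u ∈ Fintype.piFinset (fun _ : D => range (2 ^ L)),
      (∏ i, sg ((lin p i u + c i) % 2 ^ L)) *
        Phi p T (fun i => (lin p i u + c i) / 2 ^ L) h := by
  have hL : 0 < 2 ^ L := pow_pos (by norm_num) L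
  unfold Phi
  have e : (fun _ : D => range (2 ^ (L + T))) = fun _ : D => range (2 ^ L * 2 ^ T) := by
    simp [pow_add]
  rw [e, sum_split (2 ^ L) hL (fun _ => 2 ^ T)]
  refine Finset.sum_congr rfl (fun u _ => ?_)
  rw [Finset.mul_sum]
  refine Finset.sum_congr rfl (fun V _ => ?_)
  rw [← mul_assoc, ← Finset.prod_mul_distrib]
  congr 1
  · refine Finset.prod_congr rfl (fun i _ => ?_)
    rw [lin_split, add_assoc, sg_low]
  · congr 1
    funext i
    rw [lin_split, add_assoc, pow_add, ← Nat.div_div_eq_div_mul, Nat.mul_add_div hL]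

theorem lin_le {I D : Type*} [Fintype D] (p : I → D → ℕ) (C : ℕ) (hC : ∀ i, ∑ d, p i d ≤ C)
    (i : I) (u : D → ℕ) (m : ℕ) (hu : ∀ d, u d ≤ m) : lin p i u ≤ C * m := by
  unfold lin
  calc ∑ d, p i d * u d ≤ ∑ d, p i d * m := Finset.sum_le_sum fun d _ =>
        Nat.mul_le_mul_left _ (hu d)
    _ = (∑ d, p i d) * m := by rw [Finset.sum_mul]
    _ ≤ C * m := Nat.mul_le_mul_right _ (hC i)

theorem carry_le {I D : Type*} [Fintype D] (p : I → D → ℕ) (C : ℕ) (hC : ∀ i, ∑ d, p i d ≤ C)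
    (L : ℕ) (c : I → ℕ) (hc : ∀ i, c i ≤ C) (u : D → ℕ) (hu : ∀ d, u d < 2 ^ L) (i : I) :
    (lin p i u + c i) / 2 ^ L ≤ C := by
  have hL : 0 < 2 ^ L := pow_pos (by norm_num) L
  have h1 := lin_le p C hC i u (2 ^ L - 1) (fun d => by have := hu d; omega)
  apply Nat.div_le_of_le_mul
  have h2 := hc i
  calc lin p i u + c i ≤ C * (2 ^ L - 1) + C := by omega
    _ = C * (2 ^ L - 1 + 1) := by ring
    _ = 2 ^ L * C := by rw [Nat.sub_add_cancel hL, mul_comm]

theorem abs_prod_sg {I : Type*} [Fintype I] (f : I → ℕ) : |∏ i, sg (f i)| = 1 := by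
  rw [Finset.abs_prod]
  exact Finset.prod_eq_one (fun i _ => abs_sg _)

theorem prod_sg_cases {I : Type*} [Fintype I] (f : I → ℕ) :
    ∏ i, sg (f i) = 1 ∨ ∏ i, sg (f i) = -1 := by
  have h := abs_prod_sg f
  rcases abs_eq (by norm_num : (0 : ℝ) ≤ 1) |>.1 h with h | h
  · exact Or.inl h
  · exact Or.inr h

/-- Trivial bound. -/
theorem Phi_le {I D : Type*} [Fintype I] [Fintype D] [DecidableEq D] (p : I → D → ℕ)
    (T : ℕ) (c : I → ℕ) (h : (I → ℕ) → ℝ) (hh : ∀ κ, |h κ| ≤ 1) :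
    |Phi p T c h| ≤ 2 ^ (T * Fintype.card D) := by
  unfold Phi
  refine (Finset.abs_sum_le_sum_abs _ _).trans ?_
  refine (Finset.sum_le_card_nsmul _ _ 1 (fun v _ => ?_)).trans ?_
  · rw [abs_mul, abs_prod_sg, one_mul]
    exact hh _
  · simp [Fintype.card_piFinset, pow_mul]

/-- One step of the contraction. -/
theorem contraction_step {I D : Type*} [Fintype I] [Fintype D] [DecidableEq D] (p : I → D → ℕ)
    (C : ℕ) (hC : ∀ i, ∑ d, p i d ≤ C)
    (hnc : ∃ v v' : D → ℕ, ∏ i, sg (lin p i v) ≠ ∏ i, sg (lin p i v')) :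
    ∃ L : ℕ, (2 : ℝ) ≤ 2 ^ (L * Fintype.card D) ∧ ∀ (T : ℕ) (M : ℝ), 0 ≤ M →
      ∀ h : (I → ℕ) → ℝ,
      (∀ c : I → ℕ, (∀ i, c i ≤ C) → |Phi p T c h| ≤ M) →
      ∀ c : I → ℕ, (∀ i, c i ≤ C) →
        |Phi p (L + T) c h| ≤ (2 ^ (L * Fintype.card D) - 2) * M := by
  obtain ⟨v, v', hv⟩ := hnc
  -- opposite signs
  have hopp : ∏ i, sg (lin p i v') = -∏ i, sg (lin p i v) := by
    rcases prod_sg_cases (fun i => lin p i v) with h1 | h1 <;>
      rcases prod_sg_cases (fun i => lin p i v') with h2 | h2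
    · exact absurd (h1.trans h2.symm) hv
    · rw [h1, h2]
    · rw [h1, h2]; norm_num
    · exact absurd (h1.trans h2.symm) hv
  have hvv : v ≠ v' := by rintro rfl; exact hv rfl
  obtain ⟨a, ha⟩ : ∃ a : ℕ, C < 2 ^ a := ⟨C, Nat.lt_two_pow_self⟩
  -- a common bound for the entries
  obtain ⟨m, hm⟩ : ∃ m : ℕ, ∀ d, v d ≤ m ∧ v' d ≤ m :=
    ⟨∑ d, (v d + v' d), fun d => by
      have := Finset.single_le_sum (f := fun d => v d + v' d) (fun _ _ => Nat.zero_le _)
        (Finset.mem_univ d)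
      exact ⟨(Nat.le_add_right _ _).trans this, (Nat.le_add_left _ _).trans this⟩⟩
  obtain ⟨b, hb⟩ : ∃ b : ℕ, C * m + m + 1 < 2 ^ b := ⟨C * m + m + 1, Nat.lt_two_pow_self⟩
  set L := a + b with hLdef
  have hL2 : 2 ^ L = 2 ^ a * 2 ^ b := by rw [hLdef, pow_add]
  have ha0 : 0 < 2 ^ a := pow_pos (by norm_num) a
  -- the two blocks
  set u : D → ℕ := fun d => 2 ^ a * v d with hu
  set u' : D → ℕ := fun d => 2 ^ a * v' d with hu'
  have huu : u ≠ u' := by
    intro h
    apply hvv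
    funext d
    exact Nat.eq_of_mul_eq_mul_left ha0 (congrFun h d)
  have hmem : ∀ w : D → ℕ, (∀ d, w d ≤ m) →
      (fun d => 2 ^ a * w d) ∈ Fintype.piFinset (fun _ : D => range (2 ^ L)) := by
    intro w hw
    simp only [Fintype.mem_piFinset, mem_range]
    intro d
    rw [hL2]
    have := hw d
    exact Nat.mul_lt_mul_of_pos_left (by omega) ha0
  have hlin : ∀ (w : D → ℕ) (i : I), lin p i (fun d => 2 ^ a * w d) = 2 ^ a * lin p i w := by
    intro w i
    have := lin_split p i (2 ^ a) w (fun _ => 0)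
    simpa [lin] using this
  have hval : ∀ w : D → ℕ, (∀ d, w d ≤ m) → ∀ c : I → ℕ, (∀ i, c i ≤ C) → ∀ i,
      lin p i (fun d => 2 ^ a * w d) + c i < 2 ^ L := by
    intro w hw c hc i
    rw [hlin, hL2]
    have h1 := lin_le p C hC i w m hw
    have h2 := hc i
    calc 2 ^ a * lin p i w + c i < 2 ^ a * lin p i w + 2 ^ a := by omega
      _ = 2 ^ a * (lin p i w + 1) := by ring
      _ ≤ 2 ^ a * 2 ^ b := Nat.mul_le_mul_left _ (by omega)
  have hterm : ∀ w : D → ℕ, (∀ d, w d ≤ m) → ∀ c : I → ℕ, (∀ i, c i ≤ C) →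
      ∀ (T : ℕ) (h : (I → ℕ) → ℝ),
      (∏ i, sg ((lin p i (fun d => 2 ^ a * w d) + c i) % 2 ^ L)) *
        Phi p T (fun i => (lin p i (fun d => 2 ^ a * w d) + c i) / 2 ^ L) h =
      (∏ i, sg (c i)) * (∏ i, sg (lin p i w)) * Phi p T (fun _ => 0) h := by
    intro w hw c hc T h
    have e1 : (fun i => (lin p i (fun d => 2 ^ a * w d) + c i) / 2 ^ L) = fun _ => 0 := by
      funext i
      exact Nat.div_eq_of_lt (hval w hw c hc i)
    rw [e1, ← Finset.prod_mul_distrib]
    congr 1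
    refine Finset.prod_congr rfl (fun i _ => ?_)
    rw [Nat.mod_eq_of_lt (hval w hw c hc i), hlin]
    exact sg_split a _ _ (lt_of_le_of_lt (hc i) ha)
  have hcardD : Fintype.card D ≠ 0 := by
    intro h0
    have : IsEmpty D := Fintype.card_eq_zero_iff.1 h0
    exact hvv (Subsingleton.elim _ _)
  refine ⟨L, ?_, ?_⟩
  · have hb1 : b ≠ 0 := by rintro rfl; simp at hb
    have : L * Fintype.card D ≠ 0 := Nat.mul_ne_zero (by omega) hcardD
    calc (2 : ℝ) = 2 ^ 1 := by norm_num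
      _ ≤ 2 ^ (L * Fintype.card D) := pow_le_pow_right₀ (by norm_num) (Nat.one_le_iff_ne_zero.2 this)
  · intro T M hM h hbound c hc
    rw [Phi_add]
    set S := Fintype.piFinset (fun _ : D => range (2 ^ L)) with hS
    set F : (D → ℕ) → ℝ := fun w => (∏ i, sg ((lin p i w + c i) % 2 ^ L)) *
        Phi p T (fun i => (lin p i w + c i) / 2 ^ L) h with hF
    have hu_mem : u ∈ S := hmem v (fun d => (hm d).1)
    have hu'_mem : u' ∈ S.erase u := Finset.mem_erase.2 ⟨huu.symm, hmem v' (fun d => (hm d).2)⟩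
    have hcancel : F u + F u' = 0 := by
      simp only [hF]
      rw [hu, hu', hterm v (fun d => (hm d).1) c hc T h, hterm v' (fun d => (hm d).2) c hc T h, hopp]
      ring
    have hsum : ∑ w ∈ S, F w = ∑ w ∈ (S.erase u).erase u', F w := by
      rw [← Finset.add_sum_erase S F hu_mem, ← Finset.add_sum_erase (S.erase u) F hu'_mem,
        ← add_assoc, hcancel, zero_add]
    have hcard : (((S.erase u).erase u').card : ℝ) = 2 ^ (L * Fintype.card D) - 2 := by
      have h1 := Finset.card_erase_of_mem hu_mem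
      have h2 := Finset.card_erase_of_mem hu'_mem
      have h3 : S.card = 2 ^ (L * Fintype.card D) := by
        rw [hS]; simp [Fintype.card_piFinset, pow_mul]
      have h4 : 0 < (S.erase u).card := Finset.card_pos.2 ⟨_, hu'_mem⟩
      have h5 : ((S.erase u).erase u').card + 2 = 2 ^ (L * Fintype.card D) := by omega
      have h6 : (((S.erase u).erase u').card : ℝ) + 2 = 2 ^ (L * Fintype.card D) := by
        exact_mod_cast h5
      linarith
    have hgoal : |∑ w ∈ S, F w| ≤ (2 ^ (L * Fintype.card D) - 2) * M := by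
      rw [hsum, ← hcard]
      refine (Finset.abs_sum_le_sum_abs _ _).trans ?_
      rw [← nsmul_eq_mul]
      refine Finset.sum_le_card_nsmul _ _ M (fun w hw => ?_)
      have hwS : w ∈ S := Finset.mem_of_mem_erase (Finset.mem_of_mem_erase hw)
      simp only [hF]
      rw [abs_mul, abs_prod_sg, one_mul]
      apply hbound
      intro i
      refine carry_le p C hC L c hc w (fun d => ?_) i
      have := Fintype.mem_piFinset.1 hwS d
      exact mem_range.1 this
    exact hgoal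

theorem contraction {I D : Type*} [Fintype I] [Fintype D] [DecidableEq D] (p : I → D → ℕ)
    (C : ℕ) (hC : ∀ i, ∑ d, p i d ≤ C)
    (hnc : ∃ v v' : D → ℕ, ∏ i, sg (lin p i v) ≠ ∏ i, sg (lin p i v')) (ε : ℝ) (hε : 0 < ε) :
    ∃ T : ℕ, ∀ c : I → ℕ, (∀ i, c i ≤ C) → ∀ h : (I → ℕ) → ℝ, (∀ κ, |h κ| ≤ 1) →
      |Phi p T c h| ≤ ε * 2 ^ (T * Fintype.card D) := by
  obtain ⟨L, hL2, hstep⟩ := contraction_step p C hC hnc
  set Q : ℝ := 2 ^ (L * Fintype.card D) with hQ
  have hQ0 : 0 < Q := by positivity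
  set β : ℝ := (Q - 2) / Q with hβ
  have hβ0 : 0 ≤ β := div_nonneg (by linarith) hQ0.le
  have hβ1 : β < 1 := by rw [hβ, div_lt_one hQ0]; linarith
  have hind : ∀ k : ℕ, ∀ h : (I → ℕ) → ℝ, (∀ κ, |h κ| ≤ 1) → ∀ c : I → ℕ, (∀ i, c i ≤ C) →
      |Phi p (L * k) c h| ≤ β ^ k * 2 ^ (L * k * Fintype.card D) := by
    intro k
    induction k with
    | zero =>
      intro h hh c _
      have := Phi_le p (L * 0) c h hh
      simpa using this
    | succ k ih =>
      intro h hh c hc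
      have h1 := hstep (L * k) (β ^ k * 2 ^ (L * k * Fintype.card D)) (by positivity) h
        (fun c hc => ih h hh c hc) c hc
      have e : L * (k + 1) = L + L * k := by ring
      rw [e]
      refine h1.trans (le_of_eq ?_)
      have e2 : (2 : ℝ) ^ ((L + L * k) * Fintype.card D) = Q * 2 ^ (L * k * Fintype.card D) := by
        rw [hQ, ← pow_add]; congr 1; ring
      have e3 : Q - 2 = β * Q := by rw [hβ]; field_simp
      rw [e2, pow_succ, e3]
      ring
  obtain ⟨k, hk⟩ := exists_pow_lt_of_lt_one hε hβ1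
  refine ⟨L * k, fun c hc h hh => (hind k h hh c hc).trans ?_⟩
  exact mul_le_mul_of_nonneg_right hk.le (by positivity)

theorem box_bound {I D : Type*} [Fintype I] [Fintype D] [DecidableEq D] (p : I → D → ℕ)
    (C T : ℕ) (ε : ℝ)
    (hΦ : ∀ c : I → ℕ, (∀ i, c i ≤ C) → ∀ h : (I → ℕ) → ℝ, (∀ κ, |h κ| ≤ 1) →
      |Phi p T c h| ≤ ε * 2 ^ (T * Fintype.card D))
    (w : ℕ) (hw : T ≤ w) (B : D → ℕ) (c : I → ℕ) (hc : ∀ i, c i ≤ C) :
    |∑ v ∈ Fintype.piFinset (fun d : D => range (2 ^ T * B d)),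
      ∏ i, sg ((lin p i v + c i) % 2 ^ w)| ≤ ε * ∏ d, ((2 ^ T * B d : ℕ) : ℝ) := by
  have hT : 0 < 2 ^ T := pow_pos (by norm_num) T
  obtain ⟨k, rfl⟩ := Nat.exists_eq_add_of_le hw
  rw [sum_split (2 ^ T) hT B, Finset.sum_comm]
  have h1 : ∀ V ∈ Fintype.piFinset (fun d : D => range (B d)),
      |∑ u ∈ Fintype.piFinset (fun _ : D => range (2 ^ T)),
        ∏ i, sg ((lin p i (fun d => 2 ^ T * V d + u d) + c i) % 2 ^ (T + k))|
        ≤ ε * 2 ^ (T * Fintype.card D) := by
    intro V _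
    have h2 := hΦ c hc (fun κ => ∏ i, sg ((lin p i V + κ i) % 2 ^ k))
      (fun κ => (abs_prod_sg _).le)
    unfold Phi at h2
    have e : ∀ u : D → ℕ, (∏ i, sg ((lin p i u + c i) % 2 ^ T)) *
        (∏ i, sg ((lin p i V + (lin p i u + c i) / 2 ^ T) % 2 ^ k)) =
        ∏ i, sg ((lin p i (fun d => 2 ^ T * V d + u d) + c i) % 2 ^ (T + k)) := by
      intro u
      rw [← Finset.prod_mul_distrib]
      refine Finset.prod_congr rfl (fun i _ => ?_)
      rw [lin_split, add_assoc, sg_low]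
    simp only [e] at h2
    exact h2
  refine (Finset.abs_sum_le_sum_abs _ _).trans ((Finset.sum_le_card_nsmul _ _ _ h1).trans
    (le_of_eq ?_))
  rw [Fintype.card_piFinset]
  simp only [card_range, nsmul_eq_mul]
  push_cast
  rw [Finset.prod_mul_distrib, Finset.prod_const, Finset.card_univ, pow_mul]
  ring

end Pool.Agent.Lib.MP_8fac0f_nt.N
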