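import Pool.Agent.Lib.MP_8fac0f_nt.N.NP
import Pool.Agent.Lib.MP_8fac0f_nt.N.C

/-!
# Thue-Morse along polynomials: contraction with an arbitrary environment
-/

set_option autoImplicit false

namespace Pool.Agent.Lib.MP_8fac0f_nt.N

open Finset

/-- Weights which make subset sums (plus an offset) unique. -/
theorem exists_weights {G : Type*} [DecidableEq G] (S : Finset G) (Cg : G → ℕ)
    (hpos : ∀ g ∈ S, 0 < Cg g) (J₀ : Finset ℕ) :
    ∃ c : G → ℕ, ∀ T ⊆ S, ∀ T' ⊆ S, ∀ j ∈ J₀, ∀ j' ∈ J₀,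
      ∑ g ∈ T, c g * Cg g + j = ∑ g ∈ T', c g * Cg g + j' → T = T' ∧ j = j' := by
  induction S using Finset.induction_on with
  | empty =>
    refine ⟨fun _ => 0, fun T hT T' hT' j _ j' _ h => ?_⟩
    rw [Finset.subset_empty] at hT hT'
    subst hT; subst hT'
    exact ⟨rfl, by simpa using h⟩
  | insert a S ha ih =>
    obtain ⟨c, hc⟩ := ih (fun g hg => hpos g (Finset.mem_insert_of_mem hg))
    set N := ∑ g ∈ S, c g * Cg g + J₀.sup id + 1 with hN
    have hJ : ∀ j ∈ J₀, j ≤ J₀.sup id := fun j hj => Finset.le_sup (f := id) hj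
    have hCa := hpos a (Finset.mem_insert_self a S)
    refine ⟨Function.update c a N, fun T hT T' hT' j hj j' hj' h => ?_⟩
    have hsum : ∀ U : Finset G, a ∉ U → ∑ g ∈ U, Function.update c a N g * Cg g =
        ∑ g ∈ U, c g * Cg g := by
      intro U hU
      refine Finset.sum_congr rfl fun g hg => ?_
      rw [Function.update_of_ne (by rintro rfl; exact hU hg)]
    have hle : ∀ U ⊆ S, ∑ g ∈ U, c g * Cg g ≤ ∑ g ∈ S, c g * Cg g := fun U hU =>
      Finset.sum_le_sum_of_subset hU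
    have hsub : ∀ U ⊆ insert a S, U.erase a ⊆ S := by
      intro U hU g hg
      have h1 := hU (Finset.mem_of_mem_erase hg)
      rcases Finset.mem_insert.1 h1 with h1 | h1
      · exact absurd h1 (Finset.ne_of_mem_erase hg)
      · exact h1
    have hsplit : ∀ U ⊆ insert a S, a ∈ U → ∑ g ∈ U, Function.update c a N g * Cg g =
        N * Cg a + ∑ g ∈ U.erase a, c g * Cg g := by
      intro U _ haU
      rw [← Finset.add_sum_erase U _ haU, Function.update_self,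
        hsum _ (Finset.notMem_erase a U)]
    have hNC : N ≤ N * Cg a := Nat.le_mul_of_pos_right _ hCa
    have hj1 := hJ j hj
    have hj2 := hJ j' hj'
    by_cases h1 : a ∈ T <;> by_cases h2 : a ∈ T'
    · rw [hsplit T hT h1, hsplit T' hT' h2] at h
      have h3 := hc (T.erase a) (hsub T hT) (T'.erase a) (hsub T' hT') j hj j' hj' (by omega)
      refine ⟨?_, h3.2⟩
      rw [← Finset.insert_erase h1, ← Finset.insert_erase h2, h3.1]
    · exfalso
      have hT'S : T' ⊆ S := by rw [← Finset.erase_eq_of_notMem h2]; exact hsub T' hT'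
      rw [hsplit T hT h1, hsum T' h2] at h
      have := hle T' hT'S
      omega
    · exfalso
      have hTS : T ⊆ S := by rw [← Finset.erase_eq_of_notMem h1]; exact hsub T hT
      rw [hsplit T' hT' h2, hsum T h1] at h
      have := hle T hTS
      omega
    · have hTS : T ⊆ S := by rw [← Finset.erase_eq_of_notMem h1]; exact hsub T hT
      have hT'S : T' ⊆ S := by rw [← Finset.erase_eq_of_notMem h2]; exact hsub T' hT'
      rw [hsum T h1, hsum T' h2] at h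
      exact hc T hTS T' hT'S j hj j' hj' h

/-- A shift which brings no residue close to the top. -/
theorem exists_low {ι : Type*} [Fintype ι] (q : ι → ℕ) (M T : ℕ)
    (h : Fintype.card ι * T < M) : ∃ t < M, ∀ g, (t + q g) % M + T < M := by
  classical
  by_contra hcon
  push Not at hcon
  have hM : 0 < M := by omega
  have hcov : range M ⊆ (Finset.univ : Finset ι).biUnion
      fun g => (range M).filter fun t => M ≤ (t + q g) % M + T := by
    intro t ht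
    obtain ⟨g, hg⟩ := hcon t (mem_range.1 ht)
    exact Finset.mem_biUnion.2 ⟨g, Finset.mem_univ g, Finset.mem_filter.2 ⟨ht, hg⟩⟩
  have hcard : ∀ g ∈ (Finset.univ : Finset ι),
      ((range M).filter fun t => M ≤ (t + q g) % M + T).card ≤ T := by
    intro g _
    have hinj : Set.InjOn (fun t => (t + q g) % M)
        (((range M).filter fun t => M ≤ (t + q g) % M + T : Finset ℕ) : Set ℕ) := by
      intro t ht t' ht' he
      have h1 : t < M := mem_range.1 (Finset.mem_filter.1 (Finset.mem_coe.1 ht)).1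
      have h2 : t' < M := mem_range.1 (Finset.mem_filter.1 (Finset.mem_coe.1 ht')).1
      have h3 : t + q g ≡ t' + q g [MOD M] := he
      have h4 := Nat.ModEq.add_right_cancel' (q g) h3
      exact Nat.ModEq.eq_of_lt_of_lt h4 h1 h2
    calc ((range M).filter fun t => M ≤ (t + q g) % M + T).card
        ≤ (Finset.Ico (M - T) M).card := by
          refine Finset.card_le_card_of_injOn _ (fun t ht => ?_) hinj
          have h1 := (Finset.mem_filter.1 (Finset.mem_coe.1 ht)).2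
          have h2 := Nat.mod_lt (t + q g) hM
          exact Finset.mem_coe.2 (Finset.mem_Ico.2 ⟨by omega, h2⟩)
      _ ≤ T := by rw [Nat.card_Ico]; omega
  have h1 := Finset.card_le_card hcov
  have h2 := Finset.card_biUnion_le_card_mul _ _ _ hcard
  rw [card_range] at h1
  rw [Finset.card_univ] at h2
  omega

theorem add_div_mod_of_lt {A i M : ℕ} (h : A % M + i < M) :
    (A + i) / M = A / M ∧ (A + i) % M = A % M + i := by
  have hM : 0 < M := by omega
  have e : A + i = M * (A / M) + (A % M + i) := by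
    have := Nat.div_add_mod A M
    omega
  constructor
  · rw [e, Nat.mul_add_div hM, Nat.div_eq_of_lt h, add_zero]
  · conv_lhs => rw [e]
    rw [Nat.mul_add_mod, Nat.mod_eq_of_lt h]

theorem exists_neg_mod (M k : ℕ) (hM : 0 < M) : ∃ s < M, M ∣ s + k := by
  refine ⟨(M - k % M) % M, Nat.mod_lt _ hM, ?_⟩
  rw [Nat.dvd_iff_mod_eq_zero, Nat.mod_add_mod]
  have h1 := Nat.mod_lt k hM
  have h2 := Nat.div_add_mod k M
  have e : M - k % M + k = M * (k / M + 1) := by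
    rw [mul_add, mul_one]; omega
  rw [e, Nat.mul_mod_right]

/-- The value of the form at a point of the family. -/
theorem lin_family {G D : Type*} [Fintype D] [DecidableEq D]
    (C : G → D → ℕ) (d₀ : D) (h1 : ∀ g, C g d₀ = 1) (i : G → D) (c : G → ℕ) (T : Finset G)
    (y : ℕ) (g : G) :
    lin C g (fun d => (if d = d₀ then y else 0) + ∑ g' ∈ T, if i g' = d then c g' else 0) =
      y + ∑ g' ∈ T, c g' * C g (i g') := by
  unfold lin
  simp only [mul_add, Finset.sum_add_distrib, Finset.mul_sum, mul_ite, mul_zero]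
  congr 1
  · simp [h1]
  · rw [Finset.sum_comm]
    refine Finset.sum_congr rfl fun g' _ => ?_
    simp [mul_comm]

theorem sq_prod_sg {α : Type*} (s : Finset α) (f : α → ℕ) :
    (∏ o ∈ s, sg (f o)) * (∏ o ∈ s, sg (f o)) = 1 := by
  rw [← Finset.prod_mul_distrib]
  exact Finset.prod_eq_one fun o _ => sg_sq _

/-- The high digits of a good block. -/
theorem high_block {G D : Type*} [Fintype G] [Fintype D] [DecidableEq G] [DecidableEq D]
    (C : G → D → ℕ) (d₀ : D) (h1 : ∀ g, C g d₀ = 1) (gs : G)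
    (hC : ∀ g, g ≠ gs → ∃ i, C g i = 0 ∧ 0 < C gs i)
    (Os : Finset (Finset (ℕ × ℕ))) (hO : ∀ O ∈ Os, O.Nonempty) :
    ∃ b x' y' : ℕ, x' < 2 ^ b ∧ y' < 2 ^ b ∧ ∀ O ∈ Os, ∀ κ : G → ℕ, ∃ u u' : D → ℕ,
      (∀ d, u d < 2 ^ b) ∧ (∀ d, u' d < 2 ^ b) ∧
      (∀ g, ∀ o ∈ O, (lin C g u + κ g + o.1 * x' + o.2 * y') / 2 ^ b =
        (lin C g u' + κ g + o.1 * x' + o.2 * y') / 2 ^ b) ∧
      ∏ g, ∏ o ∈ O, sg ((lin C g u + κ g + o.1 * x' + o.2 * y') % 2 ^ b) =
        - ∏ g, ∏ o ∈ O, sg ((lin C g u' + κ g + o.1 * x' + o.2 * y') % 2 ^ b) := by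
  have : Nonempty D := ⟨d₀⟩
  choose! i hi using hC
  set S : Finset G := Finset.univ.erase gs with hS
  set Ou : Finset (ℕ × ℕ) := Os.biUnion id with hOu
  set W : ℕ := Ou.sup (fun o => o.2) + 1 with hW
  set off : ℕ × ℕ → ℕ := fun o => o.1 * W + o.2 * 1 with hoff
  have hOsub : ∀ O ∈ Os, ∀ o ∈ O, o ∈ Ou := fun O hO' o ho =>
    Finset.mem_biUnion.2 ⟨O, hO', ho⟩
  have hoW : ∀ o ∈ Ou, o.2 < W := fun o ho =>
    Nat.lt_succ_of_le (Finset.le_sup (f := fun o : ℕ × ℕ => o.2) ho)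
  have hoffinj : ∀ o ∈ Ou, ∀ o' ∈ Ou, off o = off o' → o = o' := by
    intro o ho o' ho' h
    have a1 := hoW o ho
    have a2 := hoW o' ho'
    simp only [hoff, mul_one] at h
    have hW0 : 0 < W := by omega
    have e1 : (o.1 * W + o.2) / W = o.1 := by
      rw [mul_comm, Nat.mul_add_div hW0, Nat.div_eq_of_lt a1, add_zero]
    have e2 : (o'.1 * W + o'.2) / W = o'.1 := by
      rw [mul_comm, Nat.mul_add_div hW0, Nat.div_eq_of_lt a2, add_zero]
    have e3 : o.1 = o'.1 := by rw [← e1, ← e2, h]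
    rw [e3] at h
    exact Prod.ext e3 (by omega)
  obtain ⟨c, hc⟩ := exists_weights S (fun g => C gs (i g))
    (fun g hg => (hi g (Finset.ne_of_mem_erase hg)).2) (Ou.image off)
  -- the sets of shifts
  set J₁ : Finset (ℕ × ℕ) → Finset ℕ := fun O =>
    (S.powerset ×ˢ O).image (fun q => ∑ g' ∈ q.1, c g' * C gs (i g') + off q.2) with hJ₁
  have hnp : ∀ O ∈ Os, ∃ x₁ x₂ : ℕ, ∏ j ∈ J₁ O, sg (x₁ + j) ≠ ∏ j ∈ J₁ O, sg (x₂ + j) := by
    intro O hO'
    apply np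
    obtain ⟨o, ho⟩ := hO O hO'
    have hmem : ((∅ : Finset G), o) ∈ S.powerset ×ˢ O :=
      Finset.mem_product.2 ⟨Finset.empty_mem_powerset S, ho⟩
    exact ⟨_, Finset.mem_image_of_mem _ hmem⟩
  choose! X₁ X₂ hX using hnp
  set TT : ℕ := ∑ O ∈ Os, (X₁ O + X₂ O) + ∑ g, ∑ g' ∈ S, c g' * C g (i g') + ∑ g' ∈ S, c g' +
    ∑ o ∈ Ou, off o + W with hTT
  obtain ⟨m, hm⟩ : ∃ m, TT < 2 ^ m := ⟨TT, Nat.lt_two_pow_self⟩
  obtain ⟨b₁, hb₁⟩ : ∃ b₁, Fintype.card (Option G) * TT < 2 ^ b₁ := ⟨_, Nat.lt_two_pow_self⟩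
  have hm0 : 0 < 2 ^ m := pow_pos (by norm_num) m
  have hb0 : 0 < 2 ^ b₁ := pow_pos (by norm_num) b₁
  have hmb : 2 ^ (m + b₁) = 2 ^ m * 2 ^ b₁ := pow_add _ _ _
  have hm_le : 2 ^ m ≤ 2 ^ (m + b₁) := Nat.pow_le_pow_right (by norm_num) (by omega)
  refine ⟨m + b₁, W, 1, by omega, by omega, ?_⟩
  intro O hO' κ
  obtain ⟨s, hs, hsd⟩ := exists_neg_mod (2 ^ m) (κ gs) hm0
  obtain ⟨t, ht, htl⟩ := exists_low (ι := Option G)
    (fun g => g.elim 0 fun g => (s + κ g) / 2 ^ m) (2 ^ b₁) TT hb₁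
  set z₀ := 2 ^ m * t + s with hz₀
  have hz : z₀ + TT < 2 ^ (m + b₁) := by
    have h := htl none
    simp only [Option.elim, add_zero] at h
    rw [Nat.mod_eq_of_lt ht] at h
    rw [hmb]
    calc z₀ + TT = 2 ^ m * t + s + TT := by rw [hz₀]
      _ < 2 ^ m * t + 2 ^ m + 2 ^ m * TT := by
          have : TT ≤ 2 ^ m * TT := Nat.le_mul_of_pos_left _ hm0
          omega
      _ = 2 ^ m * (t + TT + 1) := by ring
      _ ≤ 2 ^ m * 2 ^ b₁ := Nat.mul_le_mul_left _ (by omega)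
  have hA : ∀ g, (z₀ + κ g) % 2 ^ (m + b₁) + TT < 2 ^ (m + b₁) := by
    intro g
    have h := htl (some g)
    simp only [Option.elim] at h
    have e1 : z₀ + κ g = 2 ^ m * t + (s + κ g) := by rw [hz₀]; ring
    rw [e1, hmb, Nat.mod_mul, Nat.mul_add_mod, Nat.mul_add_div hm0]
    have h2 := Nat.mod_lt (s + κ g) hm0
    calc (s + κ g) % 2 ^ m + 2 ^ m * ((t + (s + κ g) / 2 ^ m) % 2 ^ b₁) + TT
        < 2 ^ m + 2 ^ m * ((t + (s + κ g) / 2 ^ m) % 2 ^ b₁) + 2 ^ m * TT := by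
          have : TT ≤ 2 ^ m * TT := Nat.le_mul_of_pos_left _ hm0
          omega
      _ = 2 ^ m * ((t + (s + κ g) / 2 ^ m) % 2 ^ b₁ + TT + 1) := by ring
      _ ≤ 2 ^ m * 2 ^ b₁ := Nat.mul_le_mul_left _ (by omega)
  -- increments
  have hX₁ : X₁ O ≤ ∑ O ∈ Os, (X₁ O + X₂ O) :=
    (Nat.le_add_right _ _).trans
      (Finset.single_le_sum (f := fun O => X₁ O + X₂ O) (fun _ _ => Nat.zero_le _) hO')
  have hX₂ : X₂ O ≤ ∑ O ∈ Os, (X₁ O + X₂ O) :=
    (Nat.le_add_left _ _).trans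
      (Finset.single_le_sum (f := fun O => X₁ O + X₂ O) (fun _ _ => Nat.zero_le _) hO')
  have hinc1 : ∀ g, ∀ T ⊆ S, ∑ g' ∈ T, c g' * C g (i g') ≤
      ∑ g, ∑ g' ∈ S, c g' * C g (i g') := by
    intro g T hT
    exact (Finset.sum_le_sum_of_subset hT).trans
      (Finset.single_le_sum (f := fun g => ∑ g' ∈ S, c g' * C g (i g'))
        (fun _ _ => Nat.zero_le _) (Finset.mem_univ g))
  have hinc2 : ∀ o ∈ O, off o ≤ ∑ o ∈ Ou, off o := fun o ho =>
    Finset.single_le_sum (f := off) (fun _ _ => Nat.zero_le _) (hOsub O hO' o ho)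
  have hinc : ∀ g, ∀ T ⊆ S, ∀ o ∈ O, ∀ x, (x = X₁ O ∨ x = X₂ O) →
      x + ∑ g' ∈ T, c g' * C g (i g') + off o ≤ TT := by
    intro g T hT o ho x hx
    have a1 := hinc1 g T hT
    have a2 := hinc2 o ho
    rcases hx with rfl | rfl <;> omega
  -- the family
  set U : Finset G → ℕ → D → ℕ := fun T x d =>
    (if d = d₀ then z₀ + x else 0) + ∑ g' ∈ T, if i g' = d then c g' else 0 with hU
  have hval : ∀ T x g (o : ℕ × ℕ), lin C g (U T x) + κ g + o.1 * W + o.2 * 1 =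
      (z₀ + κ g) + (x + ∑ g' ∈ T, c g' * C g (i g') + off o) := by
    intro T x g o
    rw [hU]
    simp only
    rw [lin_family C d₀ h1 i c T (z₀ + x) g, hoff]
    ring
  have hUlt : ∀ T ⊆ S, ∀ x, (x = X₁ O ∨ x = X₂ O) → ∀ d, U T x d < 2 ^ (m + b₁) := by
    intro T hT x hx d
    have a1 : ∑ g' ∈ T, (if i g' = d then c g' else 0) ≤ ∑ g' ∈ S, c g' :=
      (Finset.sum_le_sum fun g' _ => by split_ifs <;> simp).trans
        (Finset.sum_le_sum_of_subset hT)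
    have a2 : (if d = d₀ then z₀ + x else 0) ≤ z₀ + x := by split_ifs <;> simp
    have a3 : U T x d ≤ z₀ + x + ∑ g' ∈ S, c g' := by rw [hU]; exact Nat.add_le_add a2 a1
    rcases hx with rfl | rfl <;> omega
  set V : Finset G → ℕ → G → ℕ × ℕ → ℕ := fun T x g o =>
    (z₀ + κ g) % 2 ^ (m + b₁) + (x + ∑ g' ∈ T, c g' * C g (i g') + off o) with hV
  set Sgn : Finset G → ℕ → ℝ := fun T x => ∏ g, ∏ o ∈ O, sg (V T x g o) with hSgn
  have hSgn_cases : ∀ T x, Sgn T x = 1 ∨ Sgn T x = -1 := by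
    intro T x
    have : |Sgn T x| = 1 := by
      rw [hSgn, Finset.abs_prod]
      refine Finset.prod_eq_one fun g _ => ?_
      rw [Finset.abs_prod]
      exact Finset.prod_eq_one fun o _ => abs_sg _
    exact (abs_eq (by norm_num)).1 this
  -- product over the family
  have hprod : ∀ x, (x = X₁ O ∨ x = X₂ O) → ∏ T ∈ S.powerset, Sgn T x =
      (sg ((z₀ + κ gs) % 2 ^ (m + b₁) / 2 ^ m)) ^ (S.powerset ×ˢ O).card *
        ∏ j ∈ J₁ O, sg (x + j) := by
    intro x hx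
    simp only [hSgn]
    rw [Finset.prod_comm, ← Finset.mul_prod_erase Finset.univ _ (Finset.mem_univ gs)]
    have hrest : ∏ g ∈ Finset.univ.erase gs, ∏ T ∈ S.powerset, ∏ o ∈ O, sg (V T x g o) = 1 := by
      refine Finset.prod_eq_one fun g hg => ?_
      have hgS : g ∈ S := hg
      have hne : g ≠ gs := Finset.ne_of_mem_erase hg
      rw [← Finset.insert_erase hgS, Finset.prod_powerset_insert (Finset.notMem_erase g S)]
      have hsame : ∀ T ∈ (S.erase g).powerset, ∏ o ∈ O, sg (V (insert g T) x g o) =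
          ∏ o ∈ O, sg (V T x g o) := by
        intro T hT
        have hgT : g ∉ T := fun h => Finset.notMem_erase g S (Finset.mem_powerset.1 hT h)
        refine Finset.prod_congr rfl fun o _ => ?_
        simp only [hV]
        rw [Finset.sum_insert hgT, (hi g hne).1, mul_zero, zero_add]
      rw [Finset.prod_congr rfl hsame, ← Finset.prod_mul_distrib]
      exact Finset.prod_eq_one fun T _ => sq_prod_sg O _
    rw [hrest, mul_one]
    -- the isolated index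
    have hres : (z₀ + κ gs) % 2 ^ (m + b₁) = 2 ^ m * ((z₀ + κ gs) % 2 ^ (m + b₁) / 2 ^ m) := by
      have hd : 2 ^ m ∣ z₀ + κ gs := by
        rw [hz₀, add_assoc]
        exact Dvd.dvd.add (Dvd.intro _ rfl) hsd
      have hd2 : 2 ^ m ∣ (z₀ + κ gs) % 2 ^ (m + b₁) := by
        rw [hmb]
        exact (Nat.dvd_mod_iff (Dvd.intro _ rfl)).2 hd
      exact (Nat.mul_div_cancel' hd2).symm
    set top := (z₀ + κ gs) % 2 ^ (m + b₁) / 2 ^ m with htop
    have hterm : ∀ T ∈ S.powerset, ∀ o ∈ O, sg (V T x gs o) =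
        sg top * sg (x + (∑ g' ∈ T, c g' * C gs (i g') + off o)) := by
      intro T hT o ho
      have hb := hinc gs T (Finset.mem_powerset.1 hT) o ho x hx
      have e : V T x gs o = 2 ^ m * top + (x + (∑ g' ∈ T, c g' * C gs (i g') + off o)) := by
        simp only [hV]
        rw [hres]
        ring
      rw [e, sg_split m _ _ (by omega), mul_comm]
    rw [Finset.prod_congr rfl fun T hT => Finset.prod_congr rfl fun o ho => hterm T hT o ho,
      ← Finset.prod_product']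
    rw [Finset.prod_mul_distrib, Finset.prod_const]
    congr 1
    simp only [hJ₁]
    rw [Finset.prod_image]
    intro q hq q' hq' he
    have hq1 := Finset.mem_product.1 (Finset.mem_coe.1 hq)
    have hq2 := Finset.mem_product.1 (Finset.mem_coe.1 hq')
    have hc' := hc q.1 (Finset.mem_powerset.1 hq1.1) q'.1 (Finset.mem_powerset.1 hq2.1)
      (off q.2) (Finset.mem_image_of_mem _ (hOsub O hO' _ hq1.2))
      (off q'.2) (Finset.mem_image_of_mem _ (hOsub O hO' _ hq2.2)) he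
    exact Prod.ext hc'.1 (hoffinj _ (hOsub O hO' _ hq1.2) _ (hOsub O hO' _ hq2.2) hc'.2)
  -- two members with opposite signs
  have hex : ∃ T ⊆ S, ∃ T' ⊆ S, ∃ x x', (x = X₁ O ∨ x = X₂ O) ∧ (x' = X₁ O ∨ x' = X₂ O) ∧
      Sgn T x = - Sgn T' x' := by
    by_contra hcon
    push Not at hcon
    have hall : ∀ T ⊆ S, ∀ T' ⊆ S, ∀ x x', (x = X₁ O ∨ x = X₂ O) → (x' = X₁ O ∨ x' = X₂ O) →
        Sgn T x = Sgn T' x' := by
      intro T hT T' hT' x x' hx hx'
      have h := hcon T hT T' hT' x x' hx hx'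
      rcases hSgn_cases T x with h1 | h1 <;> rcases hSgn_cases T' x' with h2 | h2
      · rw [h1, h2]
      · exact absurd (by rw [h1, h2]; norm_num) h
      · exact absurd (by rw [h1, h2]) h
      · rw [h1, h2]
    have h1 := hprod (X₁ O) (Or.inl rfl)
    have h2 := hprod (X₂ O) (Or.inr rfl)
    have h3 : ∏ T ∈ S.powerset, Sgn T (X₁ O) = ∏ T ∈ S.powerset, Sgn T (X₂ O) :=
      Finset.prod_congr rfl fun T hT => hall T (Finset.mem_powerset.1 hT) T
        (Finset.mem_powerset.1 hT) _ _ (Or.inl rfl) (Or.inr rfl)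
    rw [h1, h2] at h3
    exact hX O hO' (mul_left_cancel₀ (pow_ne_zero _ (sg_ne_zero _)) h3)
  obtain ⟨T, hT, T', hT', x, x', hx, hx', hneg⟩ := hex
  have hmodV : ∀ T ⊆ S, ∀ x, (x = X₁ O ∨ x = X₂ O) → ∀ g, ∀ o ∈ O,
      (lin C g (U T x) + κ g + o.1 * W + o.2 * 1) / 2 ^ (m + b₁) = (z₀ + κ g) / 2 ^ (m + b₁) ∧
      (lin C g (U T x) + κ g + o.1 * W + o.2 * 1) % 2 ^ (m + b₁) = V T x g o := by
    intro T hT x hx g o ho
    rw [hval]
    have hb := hinc g T hT o ho x hx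
    have hg := hA g
    exact add_div_mod_of_lt (by omega)
  refine ⟨U T x, U T' x', hUlt T hT x hx, hUlt T' hT' x' hx', ?_, ?_⟩
  · intro g o ho
    rw [(hmodV T hT x hx g o ho).1, (hmodV T' hT' x' hx' g o ho).1]
  · have e : ∀ T ⊆ S, ∀ x, (x = X₁ O ∨ x = X₂ O) →
        ∏ g, ∏ o ∈ O, sg ((lin C g (U T x) + κ g + o.1 * W + o.2 * 1) % 2 ^ (m + b₁)) =
          Sgn T x := by
      intro T hT x hx
      simp only [hSgn]
      refine Finset.prod_congr rfl fun g _ => Finset.prod_congr rfl fun o ho => ?_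
      rw [(hmodV T hT x hx g o ho).2]
    rw [e T hT x hx, e T' hT' x' hx']
    exact hneg

/-- A good block: two choices of the digits with the same carries and opposite signs. -/
theorem good_block {G D : Type*} [Fintype G] [Fintype D] [DecidableEq G] [DecidableEq D]
    (C : G → D → ℕ) (d₀ : D) (h1 : ∀ g, C g d₀ = 1) (gs : G)
    (hC : ∀ g, g ≠ gs → ∃ i, C g i = 0 ∧ 0 < C gs i)
    (Os : Finset (Finset (ℕ × ℕ))) (hO : ∀ O ∈ Os, O.Nonempty) (cm : ℕ) :
    ∃ l₀ x₀ y₀ : ℕ, 0 < l₀ ∧ x₀ < 2 ^ l₀ ∧ y₀ < 2 ^ l₀ ∧ ∀ O ∈ Os, ∀ (κ : G → ℕ)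
      (c : G → ℕ × ℕ → ℕ), (∀ g, ∀ o ∈ O, c g o ≤ cm) → ∃ u u' : D → ℕ,
      (∀ d, u d < 2 ^ l₀) ∧ (∀ d, u' d < 2 ^ l₀) ∧
      (∀ g, ∀ o ∈ O, (lin C g u + κ g + o.1 * x₀ + o.2 * y₀ + c g o) / 2 ^ l₀ =
        (lin C g u' + κ g + o.1 * x₀ + o.2 * y₀ + c g o) / 2 ^ l₀) ∧
      ∏ g, ∏ o ∈ O, sg ((lin C g u + κ g + o.1 * x₀ + o.2 * y₀ + c g o) % 2 ^ l₀) =
        - ∏ g, ∏ o ∈ O, sg ((lin C g u' + κ g + o.1 * x₀ + o.2 * y₀ + c g o) % 2 ^ l₀) := by
  obtain ⟨b, x', y', hx', hy', hhigh⟩ := high_block C d₀ h1 gs hC Os hO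
  set a := Fintype.card G * cm + 1 with ha
  have ha2 : Fintype.card G * cm < 2 ^ a := by
    have : a < 2 ^ a := Nat.lt_two_pow_self
    omega
  have ha0 : 0 < 2 ^ a := pow_pos (by norm_num) a
  have hab : 2 ^ (a + b) = 2 ^ a * 2 ^ b := pow_add _ _ _
  refine ⟨a + b, 2 ^ a * x', 2 ^ a * y', by omega, ?_, ?_, ?_⟩
  · rw [hab]; exact Nat.mul_lt_mul_of_pos_left hx' ha0
  · rw [hab]; exact Nat.mul_lt_mul_of_pos_left hy' ha0
  intro O hO' κ c hc
  obtain ⟨zl, hzl, hlow⟩ := exists_low κ (2 ^ a) cm ha2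
  obtain ⟨u, u', hu, hu', hcar, hsgn⟩ := hhigh O hO' (fun g => (zl + κ g) / 2 ^ a)
  set E : (D → ℕ) → D → ℕ := fun w d => 2 ^ a * w d + (if d = d₀ then zl else 0) with hE
  have hlinE : ∀ w g, lin C g (E w) = 2 ^ a * lin C g w + zl := by
    intro w g
    rw [hE]
    simp only
    rw [lin_split]
    congr 1
    unfold lin
    simp [h1]
  have hElt : ∀ w : D → ℕ, (∀ d, w d < 2 ^ b) → ∀ d, E w d < 2 ^ (a + b) := by
    intro w hw d
    have h2 : E w d < 2 ^ a * w d + 2 ^ a := by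
      rw [hE]
      simp only
      split_ifs <;> omega
    calc E w d < 2 ^ a * w d + 2 ^ a := h2
      _ = 2 ^ a * (w d + 1) := by ring
      _ ≤ 2 ^ a * 2 ^ b := Nat.mul_le_mul_left _ (hw d)
      _ = 2 ^ (a + b) := hab.symm
  have hval : ∀ w g (o : ℕ × ℕ), lin C g (E w) + κ g + o.1 * (2 ^ a * x') +
      o.2 * (2 ^ a * y') + c g o = 2 ^ a * (lin C g w + (zl + κ g) / 2 ^ a + o.1 * x' +
        o.2 * y') + ((zl + κ g) % 2 ^ a + c g o) := by
    intro w g o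
    rw [hlinE]
    have h3 := Nat.div_add_mod (zl + κ g) (2 ^ a)
    calc 2 ^ a * lin C g w + zl + κ g + o.1 * (2 ^ a * x') + o.2 * (2 ^ a * y') + c g o
        = 2 ^ a * (lin C g w + o.1 * x' + o.2 * y') + (zl + κ g) + c g o := by ring
      _ = 2 ^ a * (lin C g w + o.1 * x' + o.2 * y') +
          (2 ^ a * ((zl + κ g) / 2 ^ a) + (zl + κ g) % 2 ^ a) + c g o := by rw [h3]
      _ = _ := by ring
  have hr : ∀ g, ∀ o ∈ O, (zl + κ g) % 2 ^ a + c g o < 2 ^ a := fun g o ho => by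
    have h3 := hlow g
    have h4 := hc g o ho
    omega
  have hdiv : ∀ w g, ∀ o ∈ O, (lin C g (E w) + κ g + o.1 * (2 ^ a * x') +
      o.2 * (2 ^ a * y') + c g o) / 2 ^ (a + b) =
      (lin C g w + (zl + κ g) / 2 ^ a + o.1 * x' + o.2 * y') / 2 ^ b := by
    intro w g o ho
    rw [hval, hab, ← Nat.div_div_eq_div_mul, Nat.mul_add_div ha0,
      Nat.div_eq_of_lt (hr g o ho), add_zero]
  have hsg : ∀ w g, ∀ o ∈ O, sg ((lin C g (E w) + κ g + o.1 * (2 ^ a * x') +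
      o.2 * (2 ^ a * y') + c g o) % 2 ^ (a + b)) =
      sg ((zl + κ g) % 2 ^ a + c g o) *
        sg ((lin C g w + (zl + κ g) / 2 ^ a + o.1 * x' + o.2 * y') % 2 ^ b) := by
    intro w g o ho
    rw [hval, sg_low, Nat.mod_eq_of_lt (hr g o ho), Nat.div_eq_of_lt (hr g o ho), add_zero]
  have hprod : ∀ w, ∏ g, ∏ o ∈ O, sg ((lin C g (E w) + κ g + o.1 * (2 ^ a * x') +
      o.2 * (2 ^ a * y') + c g o) % 2 ^ (a + b)) =
      (∏ g, ∏ o ∈ O, sg ((zl + κ g) % 2 ^ a + c g o)) *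
        ∏ g, ∏ o ∈ O, sg ((lin C g w + (zl + κ g) / 2 ^ a + o.1 * x' + o.2 * y') % 2 ^ b) := by
    intro w
    rw [← Finset.prod_mul_distrib]
    refine Finset.prod_congr rfl fun g _ => ?_
    rw [← Finset.prod_mul_distrib]
    exact Finset.prod_congr rfl fun o ho => hsg w g o ho
  refine ⟨E u, E u', hElt u hu, hElt u' hu', ?_, ?_⟩
  · intro g o ho
    rw [hdiv u g o ho, hdiv u' g o ho]
    exact hcar g o ho
  · rw [hprod, hprod, hsgn]
    ring

/-- The box sum with environment. -/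
noncomputable def SB {G D : Type*} [Fintype G] [Fintype D] [DecidableEq D] (C : G → D → ℕ)
    (O : Finset (ℕ × ℕ)) (l₀ B : ℕ) (κ : G → ℕ) (X Y : ℕ) (c : G → ℕ × ℕ → ℕ) : ℝ :=
  ∑ v ∈ Fintype.piFinset (fun _ : D => range (2 ^ (B * l₀))),
    ∏ g, ∏ o ∈ O, sg ((lin C g v + κ g + o.1 * X + o.2 * Y + c g o) % 2 ^ (B * l₀))

theorem SB_succ {G D : Type*} [Fintype G] [Fintype D] [DecidableEq D] (C : G → D → ℕ)
    (O : Finset (ℕ × ℕ)) (l₀ B : ℕ) (κ : G → ℕ) (X Y : ℕ) (c : G → ℕ × ℕ → ℕ) :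
    SB C O l₀ (B + 1) κ X Y c = ∑ u ∈ Fintype.piFinset (fun _ : D => range (2 ^ l₀)),
      (∏ g, ∏ o ∈ O, sg ((lin C g u + κ g % 2 ^ l₀ + o.1 * (X % 2 ^ l₀) +
        o.2 * (Y % 2 ^ l₀) + c g o) % 2 ^ l₀)) *
      SB C O l₀ B (fun g => κ g / 2 ^ l₀) (X / 2 ^ l₀) (Y / 2 ^ l₀)
        (fun g o => (lin C g u + κ g % 2 ^ l₀ + o.1 * (X % 2 ^ l₀) +
        o.2 * (Y % 2 ^ l₀) + c g o) / 2 ^ l₀) := by
  have hl : 0 < 2 ^ l₀ := pow_pos (by norm_num) l₀
  have hB : (B + 1) * l₀ = l₀ + B * l₀ := by ring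
  unfold SB
  rw [hB]
  have e : (fun _ : D => range (2 ^ (l₀ + B * l₀))) =
      fun _ : D => range (2 ^ l₀ * 2 ^ (B * l₀)) := by
    simp [pow_add]
  rw [e, sum_split (2 ^ l₀) hl (fun _ => 2 ^ (B * l₀))]
  refine Finset.sum_congr rfl (fun u _ => ?_)
  rw [Finset.mul_sum]
  refine Finset.sum_congr rfl (fun V _ => ?_)
  rw [← Finset.prod_mul_distrib]
  refine Finset.prod_congr rfl fun g _ => ?_
  rw [← Finset.prod_mul_distrib]
  refine Finset.prod_congr rfl fun o _ => ?_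
  have e1 : lin C g (fun d => 2 ^ l₀ * V d + u d) + κ g + o.1 * X + o.2 * Y + c g o =
      2 ^ l₀ * (lin C g V + κ g / 2 ^ l₀ + o.1 * (X / 2 ^ l₀) + o.2 * (Y / 2 ^ l₀)) +
      (lin C g u + κ g % 2 ^ l₀ + o.1 * (X % 2 ^ l₀) + o.2 * (Y % 2 ^ l₀) + c g o) := by
    rw [lin_split]
    calc 2 ^ l₀ * lin C g V + lin C g u + κ g + o.1 * X + o.2 * Y + c g o
        = 2 ^ l₀ * lin C g V + lin C g u + (2 ^ l₀ * (κ g / 2 ^ l₀) + κ g % 2 ^ l₀) +
          o.1 * (2 ^ l₀ * (X / 2 ^ l₀) + X % 2 ^ l₀) +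
          o.2 * (2 ^ l₀ * (Y / 2 ^ l₀) + Y % 2 ^ l₀) + c g o := by
          rw [Nat.div_add_mod, Nat.div_add_mod, Nat.div_add_mod]
      _ = _ := by ring
  rw [e1, sg_low]

theorem count_succ (l₀ x₀ y₀ B X Y : ℕ) :
    ((range (B + 1)).filter (fun i => X / 2 ^ (i * l₀) % 2 ^ l₀ = x₀ ∧
      Y / 2 ^ (i * l₀) % 2 ^ l₀ = y₀)).card =
    ((range B).filter (fun i => X / 2 ^ l₀ / 2 ^ (i * l₀) % 2 ^ l₀ = x₀ ∧
      Y / 2 ^ l₀ / 2 ^ (i * l₀) % 2 ^ l₀ = y₀)).card +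
    (if X % 2 ^ l₀ = x₀ ∧ Y % 2 ^ l₀ = y₀ then 1 else 0) := by
  rw [Finset.card_filter, Finset.card_filter, Finset.sum_range_succ']
  congr 1
  · refine Finset.sum_congr rfl fun i _ => ?_
    have e : ∀ Z : ℕ, Z / 2 ^ ((i + 1) * l₀) = Z / 2 ^ l₀ / 2 ^ (i * l₀) := by
      intro Z
      rw [Nat.div_div_eq_div_mul, ← pow_add]
      congr 2
      ring
    rw [e, e]
  · simp

theorem abs_prod_prod_sg {G : Type*} [Fintype G] {α : Type*} (O : Finset α) (f : G → α → ℕ) :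
    |∏ g, ∏ o ∈ O, sg (f g o)| = 1 := by
  rw [Finset.abs_prod]
  refine Finset.prod_eq_one fun g _ => ?_
  rw [Finset.abs_prod]
  exact Finset.prod_eq_one fun o _ => abs_sg _

theorem SB_congr {G D : Type*} [Fintype G] [Fintype D] [DecidableEq D] (C : G → D → ℕ)
    (O : Finset (ℕ × ℕ)) (l₀ B : ℕ) (κ : G → ℕ) (X Y : ℕ) (c c' : G → ℕ × ℕ → ℕ)
    (h : ∀ g, ∀ o ∈ O, c g o = c' g o) : SB C O l₀ B κ X Y c = SB C O l₀ B κ X Y c' := by
  unfold SB
  refine Finset.sum_congr rfl fun v _ => Finset.prod_congr rfl fun g _ =>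
    Finset.prod_congr rfl fun o ho => ?_
  rw [h g o ho]

/-- Contraction, with a distinguished parameter which has coefficient `1` everywhere. -/
theorem contr_aux {G D : Type*} [Fintype G] [Fintype D] [DecidableEq G] [DecidableEq D]
    (C : G → D → ℕ) (d₀ : D) (h1 : ∀ g, C g d₀ = 1) (gs : G)
    (hC : ∀ g, g ≠ gs → ∃ i, C g i = 0 ∧ 0 < C gs i)
    (Os : Finset (Finset (ℕ × ℕ))) (hO : ∀ O ∈ Os, O.Nonempty) (c₀ : ℕ) :
    ∃ (l₀ x₀ y₀ : ℕ) (δ : ℝ), 0 < l₀ ∧ x₀ < 2 ^ l₀ ∧ y₀ < 2 ^ l₀ ∧ 0 < δ ∧ δ ≤ 1 ∧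
      ∀ (B : ℕ), ∀ O ∈ Os, ∀ (κ : G → ℕ) (X Y : ℕ) (c : G → ℕ × ℕ → ℕ),
      (∀ g, ∀ o ∈ O, c g o ≤ c₀) →
      |SB C O l₀ B κ X Y c| ≤ (1 - δ) ^ ((range B).filter (fun i =>
        X / 2 ^ (i * l₀) % 2 ^ l₀ = x₀ ∧ Y / 2 ^ (i * l₀) % 2 ^ l₀ = y₀)).card
          * 2 ^ (B * l₀ * Fintype.card D) := by
  set Ou : Finset (ℕ × ℕ) := Os.biUnion id with hOu
  set cm : ℕ := c₀ + ∑ g, ∑ d, C g d + 1 + ∑ o ∈ Ou, (o.1 + o.2) with hcm
  obtain ⟨l₀, x₀, y₀, hl, hx₀, hy₀, hgood⟩ := good_block C d₀ h1 gs hC Os hO cm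
  have hD : 0 < Fintype.card D := Fintype.card_pos_iff.2 ⟨d₀⟩
  set Q : ℝ := 2 ^ (l₀ * Fintype.card D) with hQ
  have hQ2 : 2 ≤ Q := by
    calc (2 : ℝ) = 2 ^ 1 := by norm_num
      _ ≤ 2 ^ (l₀ * Fintype.card D) :=
        pow_le_pow_right₀ (by norm_num) (Nat.mul_pos hl hD)
  have hQ0 : 0 < Q := by linarith
  have hδ1 : 2 / Q ≤ 1 := (div_le_one hQ0).2 hQ2
  refine ⟨l₀, x₀, y₀, 2 / Q, hl, hx₀, hy₀, by positivity, hδ1, ?_⟩
  have hmain : ∀ (B : ℕ), ∀ O ∈ Os, ∀ (κ : G → ℕ) (X Y : ℕ) (c : G → ℕ × ℕ → ℕ),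
      (∀ g, ∀ o ∈ O, c g o ≤ cm) →
      |SB C O l₀ B κ X Y c| ≤ (1 - 2 / Q) ^ ((range B).filter (fun i =>
        X / 2 ^ (i * l₀) % 2 ^ l₀ = x₀ ∧ Y / 2 ^ (i * l₀) % 2 ^ l₀ = y₀)).card
          * 2 ^ (B * l₀ * Fintype.card D) := by
    intro B
    induction B with
    | zero =>
      intro O _ κ X Y c _
      have : SB C O l₀ 0 κ X Y c = 1 := by
        unfold SB
        simp [Nat.mod_one, sg_zero]
      rw [this]
      simp
    | succ B ih =>
      intro O hO' κ X Y c hc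
      rw [SB_succ, count_succ]
      set low : (D → ℕ) → G → ℕ × ℕ → ℕ := fun u g o => lin C g u + κ g % 2 ^ l₀ +
        o.1 * (X % 2 ^ l₀) + o.2 * (Y % 2 ^ l₀) + c g o with hlow
      set cnt := ((range B).filter (fun i => X / 2 ^ l₀ / 2 ^ (i * l₀) % 2 ^ l₀ = x₀ ∧
        Y / 2 ^ l₀ / 2 ^ (i * l₀) % 2 ^ l₀ = y₀)).card with hcnt
      set Mb : ℝ := (1 - 2 / Q) ^ cnt * 2 ^ (B * l₀ * Fintype.card D) with hMb
      have hMb0 : 0 ≤ Mb := mul_nonneg (pow_nonneg (by linarith) _) (by positivity)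
      have hl0 : 0 < 2 ^ l₀ := pow_pos (by norm_num) l₀
      -- carries
      have hcarry : ∀ u ∈ Fintype.piFinset (fun _ : D => range (2 ^ l₀)), ∀ g, ∀ o ∈ O,
          low u g o / 2 ^ l₀ ≤ cm := by
        intro u hu g o ho
        apply Nat.div_le_of_le_mul
        have a0 : ∀ d, u d ≤ 2 ^ l₀ - 1 := fun d => by
          have := mem_range.1 (Fintype.mem_piFinset.1 hu d)
          omega
        have a1 := lin_le C (∑ g, ∑ d, C g d) (fun g => Finset.single_le_sum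
          (f := fun g => ∑ d, C g d) (fun _ _ => Nat.zero_le _) (Finset.mem_univ g)) g u
          (2 ^ l₀ - 1) a0
        have a2 : κ g % 2 ^ l₀ ≤ 2 ^ l₀ - 1 := by have := Nat.mod_lt (κ g) hl0; omega
        have a3 : X % 2 ^ l₀ ≤ 2 ^ l₀ - 1 := by have := Nat.mod_lt X hl0; omega
        have a4 : Y % 2 ^ l₀ ≤ 2 ^ l₀ - 1 := by have := Nat.mod_lt Y hl0; omega
        have a5 : o.1 + o.2 ≤ ∑ o ∈ Ou, (o.1 + o.2) :=
          Finset.single_le_sum (f := fun o : ℕ × ℕ => o.1 + o.2) (fun _ _ => Nat.zero_le _)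
            (Finset.mem_biUnion.2 ⟨O, hO', ho⟩)
        have a6 := hc g o ho
        have a7 : o.1 * (X % 2 ^ l₀) ≤ o.1 * (2 ^ l₀ - 1) := Nat.mul_le_mul_left _ a3
        have a8 : o.2 * (Y % 2 ^ l₀) ≤ o.2 * (2 ^ l₀ - 1) := Nat.mul_le_mul_left _ a4
        calc low u g o ≤ (∑ g, ∑ d, C g d) * (2 ^ l₀ - 1) + (2 ^ l₀ - 1) +
              o.1 * (2 ^ l₀ - 1) + o.2 * (2 ^ l₀ - 1) + cm := by
              simp only [hlow]; omega
          _ = (∑ g, ∑ d, C g d + 1 + (o.1 + o.2)) * (2 ^ l₀ - 1) + cm := by ring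
          _ ≤ cm * (2 ^ l₀ - 1) + cm := by
              refine Nat.add_le_add_right (Nat.mul_le_mul_right _ ?_) _
              omega
          _ = cm * (2 ^ l₀ - 1 + 1) := by ring
          _ = 2 ^ l₀ * cm := by rw [Nat.sub_add_cancel hl0, mul_comm]
      set S := Fintype.piFinset (fun _ : D => range (2 ^ l₀)) with hS
      set F : (D → ℕ) → ℝ := fun u => (∏ g, ∏ o ∈ O, sg (low u g o % 2 ^ l₀)) *
        SB C O l₀ B (fun g => κ g / 2 ^ l₀) (X / 2 ^ l₀) (Y / 2 ^ l₀)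
          (fun g o => low u g o / 2 ^ l₀) with hF
      have hFb : ∀ u ∈ S, |F u| ≤ Mb := by
        intro u hu
        simp only [hF]
        rw [abs_mul, abs_prod_prod_sg, one_mul]
        exact ih O hO' _ _ _ _ (hcarry u hu)
      have hScard : (S.card : ℝ) = Q := by
        rw [hS, hQ]
        simp [Fintype.card_piFinset, pow_mul]
      have hpow : (2 : ℝ) ^ ((B + 1) * l₀ * Fintype.card D) =
          Q * 2 ^ (B * l₀ * Fintype.card D) := by
        rw [hQ, ← pow_add]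
        congr 1
        ring
      change |∑ u ∈ S, F u| ≤ _
      by_cases hXY : X % 2 ^ l₀ = x₀ ∧ Y % 2 ^ l₀ = y₀
      · rw [if_pos hXY]
        obtain ⟨u, u', hu, hu', hcar, hsgn⟩ := hgood O hO' (fun g => κ g % 2 ^ l₀) c hc
        rw [← hXY.1, ← hXY.2] at hcar hsgn
        have hu_mem : u ∈ S := Fintype.mem_piFinset.2 fun d => mem_range.2 (hu d)
        have hu'_mem0 : u' ∈ S := Fintype.mem_piFinset.2 fun d => mem_range.2 (hu' d)
        have hsgn' : ∏ g, ∏ o ∈ O, sg (low u g o % 2 ^ l₀) =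
            - ∏ g, ∏ o ∈ O, sg (low u' g o % 2 ^ l₀) := hsgn
        have hne : u' ≠ u := by
          rintro rfl
          have h0 := abs_prod_prod_sg O (fun g o => low u' g o % 2 ^ l₀)
          have h2 : ∏ g, ∏ o ∈ O, sg (low u' g o % 2 ^ l₀) = 0 := by linarith
          rw [h2] at h0
          norm_num at h0
        have hu'_mem : u' ∈ S.erase u := Finset.mem_erase.2 ⟨hne, hu'_mem0⟩
        have hcancel : F u + F u' = 0 := by
          simp only [hF]
          rw [hsgn', SB_congr C O l₀ B _ _ _ (fun g o => low u g o / 2 ^ l₀)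
            (fun g o => low u' g o / 2 ^ l₀) hcar]
          ring
        have hsum : ∑ w ∈ S, F w = ∑ w ∈ (S.erase u).erase u', F w := by
          rw [← Finset.add_sum_erase S F hu_mem, ← Finset.add_sum_erase (S.erase u) F hu'_mem,
            ← add_assoc, hcancel, zero_add]
        have hcard : (((S.erase u).erase u').card : ℝ) = Q - 2 := by
          have h2 := Finset.card_erase_of_mem hu_mem
          have h3 := Finset.card_erase_of_mem hu'_mem
          have h4 : 0 < (S.erase u).card := Finset.card_pos.2 ⟨_, hu'_mem⟩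
          have h5 : ((S.erase u).erase u').card + 2 = S.card := by omega
          have h6 : (((S.erase u).erase u').card : ℝ) + 2 = S.card := by exact_mod_cast h5
          linarith
        calc |∑ w ∈ S, F w| = |∑ w ∈ (S.erase u).erase u', F w| := by rw [hsum]
          _ ≤ ∑ w ∈ (S.erase u).erase u', |F w| := Finset.abs_sum_le_sum_abs _ _
          _ ≤ ((S.erase u).erase u').card • Mb := Finset.sum_le_card_nsmul _ _ _
              (fun w hw => hFb w (Finset.mem_of_mem_erase (Finset.mem_of_mem_erase hw)))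
          _ = (Q - 2) * Mb := by rw [nsmul_eq_mul, hcard]
          _ = (1 - 2 / Q) ^ (cnt + 1) * 2 ^ ((B + 1) * l₀ * Fintype.card D) := by
              rw [hpow, hMb, pow_succ]
              have : Q - 2 = (1 - 2 / Q) * Q := by field_simp
              rw [this]
              ring
      · rw [if_neg hXY, add_zero]
        calc |∑ w ∈ S, F w| ≤ ∑ w ∈ S, |F w| := Finset.abs_sum_le_sum_abs _ _
          _ ≤ S.card • Mb := Finset.sum_le_card_nsmul _ _ _ hFb
          _ = Q * Mb := by rw [nsmul_eq_mul, hScard]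
          _ = (1 - 2 / Q) ^ cnt * 2 ^ ((B + 1) * l₀ * Fintype.card D) := by
              rw [hpow, hMb]
              ring
  intro B O hO' κ X Y c hc
  exact hmain B O hO' κ X Y c fun g o ho => (hc g o ho).trans (by omega)

theorem sum_option_pi {D : Type*} [Fintype D] [DecidableEq D] (M : ℕ)
    (F : (Option D → ℕ) → ℝ) :
    ∑ v ∈ Fintype.piFinset (fun _ : Option D => range M), F v =
      ∑ z ∈ range M, ∑ p ∈ Fintype.piFinset (fun _ : D => range M),
        F (fun o => o.elim z p) := by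
  rw [← Finset.sum_product']
  refine Finset.sum_nbij' (fun v => (v none, fun d => v (some d)))
    (fun q o => o.elim q.1 q.2) ?_ ?_ ?_ ?_ ?_
  · intro v hv
    simp only [Finset.mem_product, Fintype.mem_piFinset] at hv ⊢
    exact ⟨hv none, fun d => hv (some d)⟩
  · rintro ⟨z, p⟩ h
    simp only [Finset.mem_product, Fintype.mem_piFinset] at h ⊢
    intro o
    cases o with
    | none => exact h.1
    | some d => exact h.2 d
  · intro v _
    funext o
    cases o <;> rfl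
  · rintro ⟨z, p⟩ _
    rfl
  · intro v _
    congr 1
    funext o
    cases o <;> rfl

/-- **Contraction with an arbitrary environment.** -/
theorem contr {G D : Type*} [Fintype G] [Fintype D] [DecidableEq G] [DecidableEq D]
    (C : G → D → ℕ) (gs : G) (hC : ∀ g, g ≠ gs → ∃ i, C g i = 0 ∧ 0 < C gs i)
    (Os : Finset (Finset (ℕ × ℕ))) (hO : ∀ O ∈ Os, O.Nonempty) (c₀ : ℕ) :
    ∃ (l₀ x₀ y₀ : ℕ) (δ : ℝ), 0 < l₀ ∧ x₀ < 2 ^ l₀ ∧ y₀ < 2 ^ l₀ ∧ 0 < δ ∧ δ ≤ 1 ∧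
      ∀ (B : ℕ), ∀ O ∈ Os, ∀ (κ : G → ℕ) (X Y : ℕ) (c : G → ℕ × ℕ → ℕ),
      (∀ g, ∀ o ∈ O, c g o ≤ c₀) →
      |∑ z ∈ range (2 ^ (B * l₀)),
        ∑ p ∈ Fintype.piFinset (fun _ : D => range (2 ^ (B * l₀))),
        ∏ g, ∏ o ∈ O, sg ((z + ∑ i, C g i * p i + κ g + o.1 * X + o.2 * Y + c g o)
          % 2 ^ (B * l₀))|
      ≤ (1 - δ) ^ ((range B).filter (fun i => X / 2 ^ (i * l₀) % 2 ^ l₀ = x₀ ∧
        Y / 2 ^ (i * l₀) % 2 ^ l₀ = y₀)).card * 2 ^ (B * l₀ * (Fintype.card D + 1)) := by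
  set C' : G → Option D → ℕ := fun g o => o.elim 1 (C g) with hC'
  obtain ⟨l₀, x₀, y₀, δ, hl, hx, hy, hδ, hδ1, hmain⟩ := contr_aux C' none
    (fun g => rfl) gs (fun g hg => by
      obtain ⟨i, hi1, hi2⟩ := hC g hg
      exact ⟨some i, hi1, hi2⟩) Os hO c₀
  refine ⟨l₀, x₀, y₀, δ, hl, hx, hy, hδ, hδ1, fun B O hO' κ X Y c hc => ?_⟩
  have h := hmain B O hO' κ X Y c hc
  unfold SB at h
  rw [sum_option_pi, Fintype.card_option] at h
  refine le_trans (le_of_eq ?_) h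
  congr 1
  refine Finset.sum_congr rfl fun z _ => Finset.sum_congr rfl fun p _ =>
    Finset.prod_congr rfl fun g _ => Finset.prod_congr rfl fun o _ => ?_
  have e : lin C' g (fun o => o.elim z p) = z + ∑ i, C g i * p i := by
    unfold lin
    rw [Fintype.sum_option]
    simp [hC']
  rw [e]

end Pool.Agent.Lib.MP_8fac0f_nt.N
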