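import Pool.Agent.Lib.MP_8fac0f_nt.N.Defs

/-!
# The Thue-Morse sequence has no finite product relation
-/

set_option autoImplicit false

namespace Pool.Agent.Lib.MP_8fac0f_nt.N

open Finset

theorem prod_sg_even_aux (J : Finset ℕ) (m : ℕ) (hm : m ∈ J) (hmax : ∀ j ∈ J, j ≤ m)
    (he : Even J.card) (k : ℕ) (hk : m < 2 ^ k) :
    ∏ j ∈ J, sg (2 ^ k - m + j) = (-1) ^ (k + 1) * ∏ j ∈ J.erase m, sg (m - j - 1) := by
  rw [← Finset.mul_prod_erase J _ hm]
  have h1 : sg (2 ^ k - m + m) = -1 := by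
    rw [Nat.sub_add_cancel hk.le]
    have := sg_two_pow_mul k 1
    rw [mul_one] at this
    rw [this, sg_one]
  have h2 : ∀ j ∈ J.erase m, sg (2 ^ k - m + j) = (-1) ^ k * sg (m - j - 1) := by
    intro j hj
    have hjm : j < m := lt_of_le_of_ne (hmax j (Finset.mem_of_mem_erase hj))
      (Finset.ne_of_mem_erase hj)
    exact sg_compl k (m - j - 1) (2 ^ k - m + j) (by omega)
  rw [h1, Finset.prod_congr rfl h2, Finset.prod_mul_distrib, Finset.prod_const,
    Finset.card_erase_of_mem hm]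
  have h3 : Odd (J.card - 1) := by
    have : 0 < J.card := Finset.card_pos.2 ⟨m, hm⟩
    obtain ⟨r, hr⟩ := he
    exact ⟨r - 1, by omega⟩
  have h4 : (((-1 : ℝ) ^ k) ^ (J.card - 1)) = (-1) ^ k := by
    rw [← pow_mul, mul_comm, pow_mul, h3.neg_one_pow]
  rw [h4, pow_succ]
  ring

/-- No product of finitely many shifts of the Thue-Morse sequence is constant. -/
theorem np (J : Finset ℕ) (hJ : J.Nonempty) :
    ∃ x₁ x₂ : ℕ, ∏ j ∈ J, sg (x₁ + j) ≠ ∏ j ∈ J, sg (x₂ + j) := by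
  obtain ⟨m, hm, hmax⟩ := J.exists_max_image id hJ
  simp only [id] at hmax
  obtain ⟨k, hk⟩ : ∃ k, m < 2 ^ k := ⟨m, Nat.lt_two_pow_self⟩
  rcases Nat.even_or_odd J.card with he | ho
  · refine ⟨2 ^ k - m, 2 ^ (k + 1) - m, ?_⟩
    have hk' : m < 2 ^ (k + 1) := by rw [pow_succ]; omega
    rw [prod_sg_even_aux J m hm hmax he k hk, prod_sg_even_aux J m hm hmax he (k + 1) hk']
    have hne : ∏ j ∈ J.erase m, sg (m - j - 1) ≠ 0 :=
      Finset.prod_ne_zero_iff.2 fun j _ => sg_ne_zero _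
    have hp : ((-1 : ℝ)) ^ (k + 1) ≠ 0 := pow_ne_zero _ (by norm_num)
    intro h
    have h' := mul_right_cancel₀ hne h
    rw [pow_succ (-1 : ℝ) (k + 1)] at h'
    apply hp
    linarith
  · refine ⟨0, 2 ^ k, ?_⟩
    have h1 : ∀ j ∈ J, sg (2 ^ k + j) = -1 * sg j := by
      intro j hj
      have := sg_split k 1 j (lt_of_le_of_lt (hmax j hj) hk)
      rw [mul_one] at this
      rw [this, sg_one, mul_comm]
    rw [Finset.prod_congr rfl h1, Finset.prod_mul_distrib, Finset.prod_const, ho.neg_one_pow]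
    simp only [zero_add]
    have hne : ∏ j ∈ J, sg j ≠ 0 := Finset.prod_ne_zero_iff.2 fun j _ => sg_ne_zero _
    intro h
    apply hne
    linarith

end Pool.Agent.Lib.MP_8fac0f_nt.N
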