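import Pool.Agent.Lib.MP_8fac0f_nt.N.Defs

/-!
# Discrepancy of dyadic arcs from finitely many exponential sums

A discrete Fejer kernel: the average over a grid of `‖∑_{h<H} e(h (x - j/N))‖^2`, with the grid
points of a slightly larger arc.
-/

set_option autoImplicit false

namespace Pool.Agent.Lib.MP_8fac0f_nt.N

open Finset

/-- `exp (2 π i x)` -/
noncomputable def A_E (x : ℝ) : ℂ := Complex.exp (2 * Real.pi * Complex.I * x)

theorem A_E_add (x y : ℝ) : A_E (x + y) = A_E x * A_E y := by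
  unfold A_E
  rw [← Complex.exp_add]
  congr 1
  push_cast
  ring

theorem A_E_zero : A_E 0 = 1 := by simp [A_E]

theorem A_E_norm (x : ℝ) : ‖A_E x‖ = 1 := by
  unfold A_E
  have : (2 * Real.pi * Complex.I * x : ℂ) = ((2 * Real.pi * x : ℝ) : ℂ) * Complex.I := by
    push_cast; ring
  rw [this, Complex.norm_exp_ofReal_mul_I]

theorem A_E_conj (x : ℝ) : (starRingEnd ℂ) (A_E x) = A_E (-x) := by
  unfold A_E
  rw [← Complex.exp_conj]
  congr 1
  rw [map_mul, map_mul, map_mul, Complex.conj_I, Complex.conj_ofReal, Complex.conj_ofReal,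
    map_ofNat]
  push_cast
  ring

theorem A_E_nat_mul (h : ℕ) (x : ℝ) : A_E (h * x) = A_E x ^ h := by
  unfold A_E
  rw [← Complex.exp_nat_mul]
  congr 1
  push_cast
  ring

theorem A_E_int (n : ℤ) : A_E n = 1 := by
  unfold A_E
  rw [Complex.exp_eq_one_iff]
  exact ⟨n, by push_cast; ring⟩

theorem A_E_add_int (x : ℝ) (n : ℤ) : A_E (x + n) = A_E x := by
  rw [A_E_add, A_E_int, mul_one]

/-- The kernel. -/
noncomputable def A_K (H : ℕ) (x : ℝ) : ℝ := ‖∑ h ∈ range H, A_E (h * x)‖ ^ 2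

theorem A_K_nonneg (H : ℕ) (x : ℝ) : 0 ≤ A_K H x := by
  unfold A_K; positivity

theorem A_K_expand (H : ℕ) (x : ℝ) :
    ((A_K H x : ℝ) : ℂ) = ∑ h ∈ range H, ∑ h' ∈ range H, A_E (((h : ℝ) - h') * x) := by
  unfold A_K
  push_cast
  rw [← Complex.mul_conj', map_sum, Finset.sum_mul_sum]
  refine Finset.sum_congr rfl fun h _ => Finset.sum_congr rfl fun h' _ => ?_
  rw [A_E_conj, ← A_E_add]
  congr 1
  ring

theorem A_norm_one_sub (θ η : ℝ) (hη : 0 ≤ η) (h1 : -1 + η ≤ θ) (h2 : θ ≤ -η) :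
    4 * η ≤ ‖1 - A_E θ‖ := by
  have e1 : ‖1 - A_E θ‖ = 2 * |Real.sin (Real.pi * θ)| := by
    rw [norm_sub_rev]
    unfold A_E
    have : (2 * Real.pi * Complex.I * θ : ℂ) = Complex.I * ((2 * Real.pi * θ : ℝ) : ℂ) := by
      push_cast; ring
    rw [this, Complex.norm_exp_I_mul_ofReal_sub_one, Real.norm_eq_abs, abs_mul]
    have h3 : 2 * Real.pi * θ / 2 = Real.pi * θ := by ring
    rw [h3]
    simp
  rw [e1]
  have hpi := Real.pi_pos
  have key : 2 * η ≤ Real.sin (Real.pi * (-θ)) := by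
    rcases le_total (-θ) (1 / 2) with h | h
    · have := Real.mul_le_sin (x := Real.pi * (-θ)) (by nlinarith) (by nlinarith)
      have e2 : 2 / Real.pi * (Real.pi * (-θ)) = 2 * (-θ) := by field_simp
      rw [e2] at this
      linarith
    · have := Real.mul_le_sin (x := Real.pi * (1 + θ)) (by nlinarith) (by nlinarith)
      have e2 : 2 / Real.pi * (Real.pi * (1 + θ)) = 2 * (1 + θ) := by field_simp
      rw [e2] at this
      have e3 : Real.sin (Real.pi * (-θ)) = Real.sin (Real.pi * (1 + θ)) := by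
        rw [← Real.sin_pi_sub]
        congr 1
        ring
      rw [e3]
      linarith
  have h4 : Real.sin (Real.pi * (-θ)) = - Real.sin (Real.pi * θ) := by
    rw [mul_neg, Real.sin_neg]
  rw [h4] at key
  have := neg_le_abs (Real.sin (Real.pi * θ))
  linarith

theorem A_K_small (H : ℕ) (θ η : ℝ) (hη : 0 < η) (h1 : -1 + η ≤ θ) (h2 : θ ≤ -η) :
    A_K H θ ≤ 1 / (4 * η ^ 2) := by
  have hk := A_norm_one_sub θ η hη.le h1 h2
  have hg : (∑ h ∈ range H, A_E (h * θ)) * (1 - A_E θ) = 1 - A_E θ ^ H := by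
    have : ∑ h ∈ range H, A_E (h * θ) = ∑ h ∈ range H, A_E θ ^ h :=
      Finset.sum_congr rfl fun h _ => A_E_nat_mul h θ
    rw [this, geom_sum_mul_neg]
  have hn : ‖∑ h ∈ range H, A_E (h * θ)‖ * ‖1 - A_E θ‖ ≤ 2 := by
    rw [← norm_mul, hg]
    calc ‖1 - A_E θ ^ H‖ ≤ ‖(1 : ℂ)‖ + ‖A_E θ ^ H‖ := norm_sub_le _ _
      _ = 2 := by rw [norm_pow, A_E_norm]; norm_num
  have hs : ‖∑ h ∈ range H, A_E (h * θ)‖ ≤ 1 / (2 * η) := by
    rw [le_div_iff₀ (by positivity)]
    have h0 : 0 ≤ ‖∑ h ∈ range H, A_E (h * θ)‖ := norm_nonneg _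
    nlinarith
  unfold A_K
  calc ‖∑ h ∈ range H, A_E (h * θ)‖ ^ 2 ≤ (1 / (2 * η)) ^ 2 := by gcongr
    _ = 1 / (4 * η ^ 2) := by ring

theorem A_grid_zero (N : ℕ) (hN : 0 < N) (k : ℤ) (hk0 : k ≠ 0) (hk1 : -(N : ℤ) < k)
    (hk2 : k < N) : ∑ i ∈ range N, A_E (-(k * (i / N : ℝ))) = 0 := by
  have hN' : (N : ℝ) ≠ 0 := by positivity
  have e1 : ∀ i ∈ range N, A_E (-(k * (i / N : ℝ))) = A_E (-(k : ℝ) / N) ^ i := by
    intro i _
    rw [← A_E_nat_mul]
    congr 1
    ring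
  rw [Finset.sum_congr rfl e1]
  have hne : A_E (-(k : ℝ) / N) ≠ 1 := by
    intro h
    unfold A_E at h
    rw [Complex.exp_eq_one_iff] at h
    obtain ⟨n, hn⟩ := h
    have h2 : (2 * Real.pi * Complex.I : ℂ) ≠ 0 := by
      simp [Real.pi_ne_zero]
    have h3 : (((-(k : ℝ) / N : ℝ)) : ℂ) = (n : ℂ) := by
      have : (2 * Real.pi * Complex.I : ℂ) * ((-(k : ℝ) / N : ℝ) : ℂ)
          = (2 * Real.pi * Complex.I : ℂ) * n := by
        rw [hn]; ring
      exact mul_left_cancel₀ h2 this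
    have h4 : (-(k : ℝ) / N : ℝ) = n := by exact_mod_cast h3
    rw [div_eq_iff hN'] at h4
    have h5 : -k = n * N := by exact_mod_cast h4
    have h6 : (N : ℤ) ∣ k := ⟨-n, by linarith⟩
    have h7 := Int.eq_zero_of_abs_lt_dvd h6 (by rw [abs_lt]; exact ⟨hk1, hk2⟩)
    exact hk0 h7
  rw [geom_sum_eq hne]
  have : A_E (-(k : ℝ) / N) ^ N = 1 := by
    rw [← A_E_nat_mul]
    have : (N : ℝ) * (-(k : ℝ) / N) = ((-k : ℤ) : ℝ) := by
      push_cast; field_simp
    rw [this, A_E_int]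
  rw [this]
  simp

theorem A_grid (N H : ℕ) (hN : 0 < N) (hH : H ≤ N) (z : ℝ) :
    ∑ i ∈ range N, A_K H (z - i / N) = N * H := by
  have : ((∑ i ∈ range N, A_K H (z - i / N) : ℝ) : ℂ) = ((N * H : ℝ) : ℂ) := by
    push_cast
    calc ∑ i ∈ range N, ((A_K H (z - i / N) : ℝ) : ℂ)
        = ∑ i ∈ range N, ∑ h ∈ range H, ∑ h' ∈ range H,
            A_E (((h : ℝ) - h') * z) * A_E (-((((h : ℤ) - h' : ℤ) : ℝ) * (i / N : ℝ))) := by
          refine Finset.sum_congr rfl fun i _ => ?_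
          rw [A_K_expand]
          refine Finset.sum_congr rfl fun h _ => Finset.sum_congr rfl fun h' _ => ?_
          rw [← A_E_add]
          congr 1
          push_cast
          ring
      _ = ∑ h ∈ range H, ∑ h' ∈ range H, A_E (((h : ℝ) - h') * z) *
            ∑ i ∈ range N, A_E (-((((h : ℤ) - h' : ℤ) : ℝ) * (i / N : ℝ))) := by
          rw [Finset.sum_comm]
          refine Finset.sum_congr rfl fun h _ => ?_
          rw [Finset.sum_comm]
          refine Finset.sum_congr rfl fun h' _ => ?_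
          rw [Finset.mul_sum]
      _ = ∑ h ∈ range H, ∑ h' ∈ range H, if h = h' then (N : ℂ) else 0 := by
          refine Finset.sum_congr rfl fun h hh => Finset.sum_congr rfl fun h' hh' => ?_
          rw [mem_range] at hh hh'
          split_ifs with hc
          · subst hc
            simp [A_E_zero]
          · rw [A_grid_zero N hN _ (by omega) (by omega) (by omega), mul_zero]
      _ = N * H := by
          simp only [Finset.sum_ite_eq, mem_range]
          rw [Finset.sum_congr rfl (g := fun _ => (N : ℂ))]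
          · simp; ring
          · intro h hh
            rw [mem_range] at hh
            simp [hh]
  exact_mod_cast this

/-- The exponential sums at all differences. -/
theorem A_sums (H : ℕ) (δ : ℝ) (T : ℕ) (y : ℕ → ℝ)
    (hy : ∀ h : ℕ, 1 ≤ h → h ≤ H →
      ‖∑ t ∈ range T, Complex.exp (2 * Real.pi * Complex.I * h * y t)‖ ≤ δ * T)
    (h h' : ℕ) (hh : h < H) (hh' : h' < H) (hne : h ≠ h') :
    ‖∑ t ∈ range T, A_E (((h : ℝ) - h') * y t)‖ ≤ δ * T := by
  have key : ∀ k : ℕ, 1 ≤ k → k ≤ H → ‖∑ t ∈ range T, A_E ((k : ℝ) * y t)‖ ≤ δ * T := by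
    intro k h1 h2
    have := hy k h1 h2
    convert this using 4
    unfold A_E
    congr 1
    push_cast
    ring
  rcases lt_or_gt_of_ne hne with hlt | hlt
  · have := key (h' - h) (by omega) (by omega)
    rw [← Complex.norm_conj, map_sum] at this
    convert this using 4
    rw [A_E_conj]
    congr 1
    rw [Nat.cast_sub hlt.le]
    ring
  · have := key (h - h') (by omega) (by omega)
    convert this using 5
    rw [Nat.cast_sub hlt.le]

/-- Upper bound for the total mass of the smoothed arc. -/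
theorem A_upper (H N W : ℕ) (δ : ℝ) (hδ : 0 ≤ δ) (T : ℕ) (y : ℕ → ℝ)
    (hy : ∀ h : ℕ, 1 ≤ h → h ≤ H →
      ‖∑ t ∈ range T, Complex.exp (2 * Real.pi * Complex.I * h * y t)‖ ≤ δ * T) (a : ℝ) :
    ∑ t ∈ range T, ∑ i ∈ range W, A_K H (y t - a - i / N) ≤ W * H * T + W * H ^ 2 * (δ * T) := by
  have h1 : ∀ i ∈ range W, ∑ t ∈ range T, A_K H (y t - a - i / N) ≤ H * T + H ^ 2 * (δ * T) := by
    intro i _
    have e1 : ((∑ t ∈ range T, A_K H (y t - a - i / N) : ℝ) : ℂ)
        = ∑ h ∈ range H, ∑ h' ∈ range H, A_E (((h : ℝ) - h') * (-a - i / N)) *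
          ∑ t ∈ range T, A_E (((h : ℝ) - h') * y t) := by
      push_cast
      calc ∑ t ∈ range T, ((A_K H (y t - a - i / N) : ℝ) : ℂ)
          = ∑ t ∈ range T, ∑ h ∈ range H, ∑ h' ∈ range H,
              A_E (((h : ℝ) - h') * (-a - i / N)) * A_E (((h : ℝ) - h') * y t) := by
            refine Finset.sum_congr rfl fun t _ => ?_
            rw [A_K_expand]
            refine Finset.sum_congr rfl fun h _ => Finset.sum_congr rfl fun h' _ => ?_
            rw [← A_E_add]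
            congr 1
            ring
        _ = _ := by
            rw [Finset.sum_comm]
            refine Finset.sum_congr rfl fun h _ => ?_
            rw [Finset.sum_comm]
            refine Finset.sum_congr rfl fun h' _ => ?_
            rw [Finset.mul_sum]
    have e2 : ∑ t ∈ range T, A_K H (y t - a - i / N)
        ≤ ∑ h ∈ range H, ∑ h' ∈ range H, (if h = h' then (T : ℝ) else δ * T) := by
      calc ∑ t ∈ range T, A_K H (y t - a - i / N)
          = ‖((∑ t ∈ range T, A_K H (y t - a - i / N) : ℝ) : ℂ)‖ := by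
            rw [Complex.norm_real, Real.norm_eq_abs, abs_of_nonneg]
            exact Finset.sum_nonneg fun t _ => A_K_nonneg _ _
        _ ≤ ∑ h ∈ range H, ∑ h' ∈ range H, (if h = h' then (T : ℝ) else δ * T) := by
            rw [e1]
            refine (norm_sum_le _ _).trans (Finset.sum_le_sum fun h hh => ?_)
            refine (norm_sum_le _ _).trans (Finset.sum_le_sum fun h' hh' => ?_)
            rw [norm_mul, A_E_norm, one_mul]
            split_ifs with hc
            · subst hc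
              simp [A_E_zero]
            · exact A_sums H δ T y hy h h' (mem_range.1 hh) (mem_range.1 hh') hc
    refine e2.trans ?_
    have e3 : ∑ h ∈ range H, ∑ h' ∈ range H, (if h = h' then (T : ℝ) else δ * T)
        ≤ ∑ h ∈ range H, ∑ h' ∈ range H, ((if h = h' then (T : ℝ) else 0) + δ * T) := by
      refine Finset.sum_le_sum fun h _ => Finset.sum_le_sum fun h' _ => ?_
      split_ifs
      · have : 0 ≤ δ * T := by positivity
        linarith
      · linarith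
    refine e3.trans (le_of_eq ?_)
    have e4 : ∀ h ∈ range H, ∑ h' ∈ range H, ((if h = h' then (T : ℝ) else 0) + δ * T)
        = T + H * (δ * T) := by
      intro h hh
      rw [Finset.sum_add_distrib]
      simp only [Finset.sum_ite_eq, hh, if_true, Finset.sum_const, card_range, nsmul_eq_mul]
    rw [Finset.sum_congr rfl e4]
    simp only [Finset.sum_const, card_range, nsmul_eq_mul]
    ring
  rw [Finset.sum_comm]
  calc ∑ i ∈ range W, ∑ t ∈ range T, A_K H (y t - a - i / N)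
      ≤ ∑ i ∈ range W, (H * T + H ^ 2 * (δ * T) : ℝ) := Finset.sum_le_sum h1
    _ = W * H * T + W * H ^ 2 * (δ * T) := by
        simp only [Finset.sum_const, card_range, nsmul_eq_mul]
        ring

theorem A_K_add_int (H : ℕ) (x : ℝ) (n : ℤ) : A_K H (x + n) = A_K H x := by
  unfold A_K
  congr 2
  refine Finset.sum_congr rfl fun h _ => ?_
  have : (h : ℝ) * (x + n) = h * x + ((h * n : ℤ) : ℝ) := by push_cast; ring
  rw [this, A_E_add_int]

/-- The smoothed arc is large on the arc. -/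
theorem A_lower (M q : ℕ) (hM : 0 < M) (hq : 0 < q) (α : ℤ) (x : ℝ)
    (hx : ⌊(M : ℝ) * x⌋ % M = α % M) :
    ((M * q ^ 3 : ℕ) : ℝ) * (M * q ^ 3 : ℕ) - (M * q ^ 3 : ℕ) * ((M : ℝ) ^ 2 * q ^ 2 / 4)
      ≤ ∑ i ∈ range (q ^ 3 + 2 * q ^ 2 + 1),
        A_K (M * q ^ 3) (x - ((α : ℝ) / M - (q : ℝ) ^ 2 / (M * q ^ 3 : ℕ)) - i / (M * q ^ 3 : ℕ)) := by
  obtain ⟨n, hn⟩ : ∃ n : ℤ, ⌊(M : ℝ) * x⌋ = α + M * n := by
    have h1 : (M : ℤ) ∣ ⌊(M : ℝ) * x⌋ - α := Int.ModEq.dvd (Int.ModEq.symm hx)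
    obtain ⟨n, hn⟩ := h1
    exact ⟨n, by linarith⟩
  have hM' : (0 : ℝ) < M := by exact_mod_cast hM
  have hq' : (0 : ℝ) < q := by exact_mod_cast hq
  have hf1 := Int.floor_le ((M : ℝ) * x)
  have hf2 := Int.lt_floor_add_one ((M : ℝ) * x)
  rw [hn] at hf1 hf2
  push_cast at hf1 hf2
  set s : ℝ := M * x - (α + M * n) with hs
  have hs0 : 0 ≤ s := by linarith
  have hs1 : s < 1 := by linarith
  have hxe : x = (α + s) / M + n := by
    field_simp
    rw [hs]
    ring
  set N : ℕ := M * q ^ 3 with hNdef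
  have hN : 0 < N := by positivity
  have hN' : (0 : ℝ) < N := by exact_mod_cast hN
  have hNe : (N : ℝ) = M * q ^ 3 := by rw [hNdef]; push_cast; ring
  set z : ℝ := x - ((α : ℝ) / M - (q : ℝ) ^ 2 / N) with hz
  have hgrid := A_grid N N hN le_rfl z
  have hsmall : ∀ i ∈ range N \ range (q ^ 3 + 2 * q ^ 2 + 1), A_K N (z - i / N)
      ≤ (M : ℝ) ^ 2 * q ^ 2 / 4 := by
    intro i hi
    rw [mem_sdiff, mem_range, mem_range, not_lt] at hi
    obtain ⟨hi1, hi2⟩ := hi
    have hi1' : (i : ℝ) + 1 ≤ N := by exact_mod_cast hi1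
    have hi2' : (q : ℝ) ^ 3 + 2 * q ^ 2 + 1 ≤ i := by exact_mod_cast hi2
    have e1 : z - i / N = (s * q ^ 3 + q ^ 2 - i) / N + n := by
      rw [hz, hxe, hNe]
      field_simp
      ring
    rw [e1, A_K_add_int]
    have hη : (0 : ℝ) < q ^ 2 / N := by positivity
    have := A_K_small N ((s * q ^ 3 + q ^ 2 - i) / N) (q ^ 2 / N) hη ?_ ?_
    · refine this.trans (le_of_eq ?_)
      rw [hNe]
      field_simp
    · rw [le_div_iff₀ hN']
      have : (-1 + (q : ℝ) ^ 2 / N) * N = -N + q ^ 2 := by field_simp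
      rw [this]
      have : 0 ≤ s * (q : ℝ) ^ 3 := by positivity
      linarith
    · rw [div_le_iff₀ hN']
      have : -((q : ℝ) ^ 2 / N) * N = -q ^ 2 := by field_simp
      rw [this]
      have : s * (q : ℝ) ^ 3 ≤ q ^ 3 := by
        have : 0 ≤ (q : ℝ) ^ 3 := by positivity
        nlinarith
      linarith
  have hsum : ∑ i ∈ range N, A_K N (z - i / N)
      ≤ ∑ i ∈ range (q ^ 3 + 2 * q ^ 2 + 1), A_K N (z - i / N)
        + ∑ i ∈ range N \ range (q ^ 3 + 2 * q ^ 2 + 1), A_K N (z - i / N) := by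
    rw [← Finset.sum_inter_add_sum_sdiff (range N) (range (q ^ 3 + 2 * q ^ 2 + 1))]
    refine add_le_add (Finset.sum_le_sum_of_subset_of_nonneg Finset.inter_subset_right ?_) le_rfl
    intro i _ _
    exact A_K_nonneg _ _
  have hsum2 : ∑ i ∈ range N \ range (q ^ 3 + 2 * q ^ 2 + 1), A_K N (z - i / N)
      ≤ N * ((M : ℝ) ^ 2 * q ^ 2 / 4) := by
    refine (Finset.sum_le_sum hsmall).trans ?_
    rw [Finset.sum_const, nsmul_eq_mul]
    have hc : ((range N \ range (q ^ 3 + 2 * q ^ 2 + 1)).card : ℝ) ≤ N := by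
      have := Finset.card_le_card (Finset.sdiff_subset (s := range N)
        (t := range (q ^ 3 + 2 * q ^ 2 + 1)))
      rw [card_range] at this
      exact_mod_cast this
    gcongr
  rw [hgrid] at hsum
  linarith

/-- The one-sided bound. -/
theorem A_count (M q : ℕ) (hM : 0 < M) (hq : M ≤ q) (T : ℕ) (y : ℕ → ℝ)
    (hy : ∀ h : ℕ, 1 ≤ h → h ≤ M * q ^ 3 →
      ‖∑ t ∈ range T, Complex.exp (2 * Real.pi * Complex.I * h * y t)‖
        ≤ (1 / ((M * q ^ 3 : ℕ) * q : ℝ)) * T) (α : ℤ) :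
    ((((range T).filter (fun t => ⌊(M : ℝ) * y t⌋ % M = α % M)).card : ℕ) : ℝ)
      ≤ T / M + (8 * M / q) * T := by
  have hq0 : 0 < q := lt_of_lt_of_le hM hq
  have hM' : (0 : ℝ) < M := by exact_mod_cast hM
  have hM1 : (1 : ℝ) ≤ M := by exact_mod_cast hM
  have hq' : (0 : ℝ) < q := by exact_mod_cast hq0
  have hq1 : (1 : ℝ) ≤ q := by exact_mod_cast hq0
  set N : ℕ := M * q ^ 3 with hNdef
  have hN : 0 < N := by positivity
  have hN' : (0 : ℝ) < N := by exact_mod_cast hN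
  have hNe : (N : ℝ) = M * q ^ 3 := by rw [hNdef]; push_cast; ring
  set C := (range T).filter (fun t => ⌊(M : ℝ) * y t⌋ % M = α % M) with hC
  set a : ℝ := (α : ℝ) / M - (q : ℝ) ^ 2 / N with ha
  have hup := A_upper N N (q ^ 3 + 2 * q ^ 2 + 1) (1 / (N * q)) (by positivity) T y hy a
  have hlow : (C.card : ℝ) * (N * N - N * ((M : ℝ) ^ 2 * q ^ 2 / 4))
      ≤ ∑ t ∈ range T, ∑ i ∈ range (q ^ 3 + 2 * q ^ 2 + 1), A_K N (y t - a - i / N) := by
    calc (C.card : ℝ) * (N * N - N * ((M : ℝ) ^ 2 * q ^ 2 / 4))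
        = ∑ t ∈ C, (N * N - N * ((M : ℝ) ^ 2 * q ^ 2 / 4) : ℝ) := by
          rw [Finset.sum_const, nsmul_eq_mul]
      _ ≤ ∑ t ∈ C, ∑ i ∈ range (q ^ 3 + 2 * q ^ 2 + 1), A_K N (y t - a - i / N) := by
          refine Finset.sum_le_sum fun t ht => ?_
          rw [hC, mem_filter] at ht
          exact A_lower M q hM hq0 α (y t) ht.2
      _ ≤ _ := by
          refine Finset.sum_le_sum_of_subset_of_nonneg (Finset.filter_subset _ _) ?_
          intro t _ _
          exact Finset.sum_nonneg fun i _ => A_K_nonneg _ _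
  have hcT : (C.card : ℝ) ≤ T := by
    have := Finset.card_le_card (Finset.filter_subset
      (fun t => ⌊(M : ℝ) * y t⌋ % M = α % M) (range T))
    rw [card_range] at this
    exact_mod_cast this
  have hT0 : (0 : ℝ) ≤ T := by positivity
  have hmain := hlow.trans hup
  -- divide by `N ^ 2`
  have hW : ((q ^ 3 + 2 * q ^ 2 + 1 : ℕ) : ℝ) ≤ q ^ 3 * (1 + 3 / q) := by
    push_cast
    have : (q : ℝ) ^ 3 * (1 + 3 / q) = q ^ 3 + 3 * q ^ 2 := by field_simp
    rw [this]
    nlinarith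
  have e1 : (C.card : ℝ) * (1 - M / (4 * q)) ≤ (1 + 3 / q) / M * (1 + 1 / q) * T := by
    have h1 : (C.card : ℝ) * (N * N - N * ((M : ℝ) ^ 2 * q ^ 2 / 4))
        = (C.card : ℝ) * (1 - M / (4 * q)) * (N * N) := by
      rw [hNe]
      field_simp
    have h2 : ((q ^ 3 + 2 * q ^ 2 + 1 : ℕ) : ℝ) * N * T
        + ((q ^ 3 + 2 * q ^ 2 + 1 : ℕ) : ℝ) * N ^ 2 * (1 / (N * q) * T)
        = ((q ^ 3 + 2 * q ^ 2 + 1 : ℕ) : ℝ) * (N * (1 + 1 / q) * T) := by
      field_simp
    rw [h1, h2] at hmain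
    have h3 : ((q ^ 3 + 2 * q ^ 2 + 1 : ℕ) : ℝ) * (N * (1 + 1 / q) * T)
        ≤ (q ^ 3 * (1 + 3 / q)) * (N * (1 + 1 / q) * T) := by
      gcongr
    have h4 : ((q : ℝ) ^ 3 * (1 + 3 / q)) * (N * (1 + 1 / q) * T)
        = (1 + 3 / q) / M * (1 + 1 / q) * T * (N * N) := by
      rw [hNe]
      field_simp
    have h5 := hmain.trans (h3.trans h4.le)
    exact le_of_mul_le_mul_right h5 (by positivity)
  have e2 : (1 + 3 / (q : ℝ)) / M * (1 + 1 / q) ≤ 1 / M + 7 / q := by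
    have h1 : (1 + 3 / (q : ℝ)) * (1 + 1 / q) ≤ 1 + 7 / q := by
      have h2 : 1 / (q : ℝ) ≤ 1 := by
        rw [div_le_one hq']; exact hq1
      have h3 : 0 < 1 / (q : ℝ) := by positivity
      have h4 : 3 / (q : ℝ) = 3 * (1 / q) := by ring
      have h5 : 7 / (q : ℝ) = 7 * (1 / q) := by ring
      rw [h4, h5]
      nlinarith
    calc (1 + 3 / (q : ℝ)) / M * (1 + 1 / q) = ((1 + 3 / (q : ℝ)) * (1 + 1 / q)) / M := by ring
      _ ≤ (1 + 7 / q) / M := by gcongr
      _ = 1 / M + (7 / q) / M := by ring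
      _ ≤ 1 / M + 7 / q := by
          have : (7 / (q : ℝ)) / M ≤ 7 / q := div_le_self (by positivity) hM1
          linarith
  have e3 : (1 + 3 / (q : ℝ)) / M * (1 + 1 / q) * T ≤ (1 / M + 7 / q) * T := by gcongr
  have e4 : (C.card : ℝ) * (M / (4 * q)) ≤ T * (M / (4 * q)) := by gcongr
  have e5 : (C.card : ℝ) ≤ (1 / M + 7 / q) * T + T * (M / (4 * q)) := by
    nlinarith
  refine e5.trans ?_
  have e6 : (7 / (q : ℝ)) ≤ 7 * M / q := by
    gcongr
    linarith
  have e7 : (M / (4 * q) : ℝ) ≤ M / q := by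
    gcongr
    linarith
  have e8 : (1 / (M : ℝ) + 7 / q) * T + T * (M / (4 * q)) = T / M + (7 / q + M / (4 * q)) * T := by
    ring
  rw [e8]
  have e9 : (7 / (q : ℝ) + M / (4 * q)) ≤ 8 * M / q := by
    have : (8 : ℝ) * M / q = 7 * M / q + M / q := by ring
    rw [this]
    exact add_le_add e6 e7
  gcongr

theorem A_count_all (M : ℕ) (hM : 0 < M) (y : ℕ → ℝ) (T : ℕ) :
    ∑ β ∈ range M, ((((range T).filter
      (fun t => ⌊(M : ℝ) * y t⌋ % M = (β : ℤ) % M)).card : ℕ) : ℝ) = T := by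
  have hM0 : (M : ℤ) ≠ 0 := by exact_mod_cast hM.ne'
  have h1 : (range T).card = ∑ β ∈ range M, ((range T).filter
      (fun t => ((⌊(M : ℝ) * y t⌋ % M).toNat) = β)).card := by
    apply Finset.card_eq_sum_card_fiberwise
    intro t _
    have h1 := Int.emod_nonneg ⌊(M : ℝ) * y t⌋ hM0
    have h2 := Int.emod_lt_of_pos ⌊(M : ℝ) * y t⌋ (show (0 : ℤ) < M by exact_mod_cast hM)
    simp only [coe_range, Set.mem_Iio]
    omega
  have h2 : ∀ β ∈ range M, ((range T).filter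
      (fun t => ⌊(M : ℝ) * y t⌋ % M = (β : ℤ) % M)).card = ((range T).filter
      (fun t => ((⌊(M : ℝ) * y t⌋ % M).toNat) = β)).card := by
    intro β hβ
    rw [mem_range] at hβ
    congr 1
    apply Finset.filter_congr
    intro t _
    have h1 := Int.emod_nonneg ⌊(M : ℝ) * y t⌋ hM0
    have h3 : (β : ℤ) % M = β := Int.emod_eq_of_lt (by positivity) (by exact_mod_cast hβ)
    rw [h3]
    omega
  have h3 : ∑ β ∈ range M, ((range T).filter
      (fun t => ⌊(M : ℝ) * y t⌋ % M = (β : ℤ) % M)).card = T := by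
    rw [Finset.sum_congr rfl h2, ← h1, card_range]
  exact_mod_cast h3

theorem arc (e : ℕ) (ε : ℝ) (hε : 0 < ε) : ∃ (H : ℕ) (δ : ℝ), 0 < δ ∧ ∀ (T : ℕ) (y : ℕ → ℝ),
    (∀ h : ℕ, 1 ≤ h → h ≤ H →
      ‖∑ t ∈ range T, Complex.exp (2 * Real.pi * Complex.I * h * y t)‖ ≤ δ * T) →
    ∀ α : ℤ, |(((range T).filter (fun t => ⌊(2 : ℝ) ^ e * y t⌋ % 2 ^ e = α % 2 ^ e)).card : ℝ)
      - T / 2 ^ e| ≤ ε * T := by
  set M : ℕ := 2 ^ e with hMdef
  have hM : 0 < M := by positivity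
  have hM' : (0 : ℝ) < M := by exact_mod_cast hM
  have hM1 : (1 : ℝ) ≤ M := by exact_mod_cast hM
  obtain ⟨q₀, hq₀⟩ := exists_nat_ge (8 * M * M / ε)
  set q : ℕ := max q₀ M with hqdef
  have hqM : M ≤ q := le_max_right _ _
  have hq0 : 0 < q := lt_of_lt_of_le hM hqM
  have hq' : (0 : ℝ) < q := by exact_mod_cast hq0
  have hqε : 8 * M / q ≤ ε / M := by
    rw [div_le_div_iff₀ hq' hM']
    have h1 : (q₀ : ℝ) ≤ q := by exact_mod_cast le_max_left _ _
    have h2 : 8 * M * M / ε ≤ (q : ℝ) := hq₀.trans h1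
    rw [div_le_iff₀ hε] at h2
    linarith
  refine ⟨M * q ^ 3, 1 / ((M * q ^ 3 : ℕ) * q : ℝ), by positivity, ?_⟩
  intro T y hy α
  have hT0 : (0 : ℝ) ≤ T := by positivity
  have hMR : ((2 : ℝ) ^ e) = (M : ℝ) := by rw [hMdef]; push_cast; rfl
  have hMZ : ((2 : ℤ) ^ e) = (M : ℤ) := by rw [hMdef]; push_cast; rfl
  rw [hMR, hMZ]
  have hall : ∀ β : ℤ, ((((range T).filter
      (fun t => ⌊(M : ℝ) * y t⌋ % M = β % M)).card : ℕ) : ℝ) ≤ T / M + (ε / M) * T := by
    intro β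
    refine (A_count M q hM hqM T y hy β).trans ?_
    gcongr
  have hM0 : (M : ℤ) ≠ 0 := by exact_mod_cast hM.ne'
  have hMpos : (0 : ℤ) < M := by exact_mod_cast hM
  set α₀ : ℕ := (α % M).toNat with hα₀
  have h1 := Int.emod_nonneg α hM0
  have h2 := Int.emod_lt_of_pos α hMpos
  have hα₀M : α₀ < M := by omega
  have hα₁ : α % M = (α₀ : ℤ) % M := by
    have : (α₀ : ℤ) = α % M := by omega
    rw [this, Int.emod_emod_of_dvd _ (dvd_refl _)]
  have hsum := A_count_all M hM y T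
  rw [← Finset.add_sum_erase _ _ (mem_range.2 hα₀M)] at hsum
  have hrest : ∑ β ∈ (range M).erase α₀, ((((range T).filter
      (fun t => ⌊(M : ℝ) * y t⌋ % M = (β : ℤ) % M)).card : ℕ) : ℝ)
      ≤ ∑ β ∈ (range M).erase α₀, (T / M + (ε / M) * T : ℝ) :=
    Finset.sum_le_sum fun β _ => hall β
  rw [Finset.sum_const, Finset.card_erase_of_mem (mem_range.2 hα₀M), card_range, nsmul_eq_mul,
    Nat.cast_sub hM] at hrest
  push_cast at hrest
  have e1 : ((M : ℝ) - 1) * (T / M + (ε / M) * T) = T - T / M + (ε * T - (ε / M) * T) := by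
    field_simp
  rw [e1] at hrest
  have h0 : 0 ≤ (ε / M) * T := by positivity
  have hεM : (ε / M) * T ≤ ε * T := by
    gcongr
    exact div_le_self hε.le hM1
  have hup := hall α
  rw [hα₁] at hup ⊢
  rw [abs_le]
  constructor
  · linarith
  · linarith

end Pool.Agent.Lib.MP_8fac0f_nt.N
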