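import Mathlib

/-!
# Thue-Morse along polynomials: the sign of the binary sum of digits
-/

set_option autoImplicit false

namespace Pool.Agent.Lib.MP_8fac0f_nt.N

open Finset

/-- `(-1)` to the binary sum of digits. -/
noncomputable def sg (n : ℕ) : ℝ := (-1) ^ (Nat.digits 2 n).sum

theorem sg_zero : sg 0 = 1 := by simp [sg]

theorem sg_two_mul_add (b n : ℕ) (hb : b < 2) : sg (2 * n + b) = sg n * (-1) ^ b := by
  unfold sg
  rcases Nat.eq_zero_or_pos n with rfl | hn
  · interval_cases b <;> simp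
  · have h : Nat.digits 2 (b + 2 * n) = b :: Nat.digits 2 n :=
      Nat.digits_add 2 (by norm_num) b n hb (Or.inr hn.ne')
    rw [add_comm (2 * n) b, h, List.sum_cons, pow_add]
    ring

theorem sg_one : sg 1 = -1 := by
  have := sg_two_mul_add 1 0 (by norm_num)
  simpa [sg_zero] using this

theorem sg_split (T q r : ℕ) (h : r < 2 ^ T) : sg (2 ^ T * q + r) = sg r * sg q := by
  induction T generalizing r with
  | zero =>
    have : r = 0 := by simpa using h
    subst this
    simp [sg_zero]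
  | succ T ih =>
    obtain ⟨r', b, hb, hr⟩ : ∃ r' b, b < 2 ∧ r = 2 * r' + b :=
      ⟨r / 2, r % 2, Nat.mod_lt _ (by norm_num), by omega⟩
    have hr' : r' < 2 ^ T := by rw [pow_succ] at h; omega
    have e : 2 ^ (T + 1) * q + r = 2 * (2 ^ T * q + r') + b := by rw [hr]; ring
    rw [e, sg_two_mul_add b _ hb, ih r' hr', hr, sg_two_mul_add b _ hb]
    ring

theorem sg_two_pow_mul (T q : ℕ) : sg (2 ^ T * q) = sg q := by
  have := sg_split T q 0 (pow_pos (by norm_num) T)
  simpa [sg_zero] using this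

theorem sg_mod_div (T x : ℕ) : sg x = sg (x % 2 ^ T) * sg (x / 2 ^ T) := by
  conv_lhs => rw [← Nat.div_add_mod x (2 ^ T)]
  exact sg_split T _ _ (Nat.mod_lt _ (pow_pos (by norm_num) T))

theorem sg_sq (n : ℕ) : sg n * sg n = 1 := by
  unfold sg
  rw [← pow_add, ← two_mul, pow_mul]
  simp

theorem sg_cases (n : ℕ) : sg n = 1 ∨ sg n = -1 := by
  unfold sg
  rcases neg_one_pow_eq_or ℝ (Nat.digits 2 n).sum with h | h <;> simp [h]

theorem abs_sg (n : ℕ) : |sg n| = 1 := by
  rcases sg_cases n with h | h <;> simp [h]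

theorem sg_ne_zero (n : ℕ) : sg n ≠ 0 := by
  rcases sg_cases n with h | h <;> simp [h]

/-- Complement: `sg (2^Q - 1 - x) = (-1)^Q * sg x`. -/
theorem sg_compl (Q x y : ℕ) (h : x + y + 1 = 2 ^ Q) : sg y = (-1) ^ Q * sg x := by
  induction Q generalizing x y with
  | zero =>
    have hx : x = 0 := by simp at h; omega
    have hy : y = 0 := by simp at h; omega
    simp [hx, hy]
  | succ Q ih =>
    rw [pow_succ] at h
    obtain ⟨x', b, hb, hx⟩ : ∃ x' b, b < 2 ∧ x = 2 * x' + b :=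
      ⟨x / 2, x % 2, Nat.mod_lt _ (by norm_num), by omega⟩
    obtain ⟨y', c, hc, hy⟩ : ∃ y' c, c < 2 ∧ y = 2 * y' + c :=
      ⟨y / 2, y % 2, Nat.mod_lt _ (by norm_num), by omega⟩
    have hbc : b + c = 1 := by omega
    have hxy : x' + y' + 1 = 2 ^ Q := by omega
    rw [hx, hy, sg_two_mul_add b _ hb, sg_two_mul_add c _ hc, ih x' y' hxy]
    have : b = 0 ∧ c = 1 ∨ b = 1 ∧ c = 0 := by omega
    rcases this with ⟨rfl, rfl⟩ | ⟨rfl, rfl⟩ <;> ring

/-- The quadratic polynomial. -/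
def qd (a b c n : ℕ) : ℕ := a * n ^ 2 + b * n + c

/-- The linear form with nonnegative coefficients `p i`. -/
def lin {I D : Type*} [Fintype D] (p : I → D → ℕ) (i : I) (v : D → ℕ) : ℕ := ∑ d, p i d * v d

/-- Signed transfer of `T` digits: carries `c` in, any function `h` of the carries out. -/
noncomputable def Phi {I D : Type*} [Fintype I] [Fintype D] [DecidableEq D] (p : I → D → ℕ)
    (T : ℕ) (c : I → ℕ) (h : (I → ℕ) → ℝ) : ℝ :=
  ∑ v ∈ Fintype.piFinset (fun _ : D => range (2 ^ T)),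
    (∏ i, sg ((lin p i v + c i) % 2 ^ T)) * h (fun i => (lin p i v + c i) / 2 ^ T)

/-- The correlation of `g` along the shifts in `J` tends to zero. -/
def CorrZero (g : ℕ → ℝ) (J : Finset ℕ) : Prop :=
  Filter.Tendsto (fun N : ℕ => (∑ n ∈ range N, ∏ j ∈ J, g (n + j)) / N) Filter.atTop (nhds 0)

/-- The truncated product. -/
noncomputable def GK (a b c : ℕ) (J : Finset ℕ) (K n : ℕ) : ℝ :=
  ∏ j ∈ J, sg (qd a b c (n + j) % 2 ^ K)

end Pool.Agent.Lib.MP_8fac0f_nt.N
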