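import Pool.Agent.Lib.MP_8fac0f_nt.N.V
import Pool.Agent.Lib.MP_8fac0f_nt.N.A

/-!
# Equidistribution of the middle digits of a quadratic polynomial
-/

set_option autoImplicit false

namespace Pool.Agent.Lib.MP_8fac0f_nt.N

open Finset

theorem E_norm (r : ℝ) : ‖Complex.exp (2 * Real.pi * Complex.I * r)‖ = 1 := by
  have : 2 * Real.pi * Complex.I * r = ((2 * Real.pi * r : ℝ) : ℂ) * Complex.I := by
    push_cast; ring
  rw [this, Complex.norm_exp_ofReal_mul_I]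

theorem E_exp_int (k : ℤ) : Complex.exp (2 * Real.pi * Complex.I * (k : ℝ)) = 1 := by
  rw [Complex.exp_eq_one_iff]
  exact ⟨k, by push_cast; ring⟩

theorem E_exp_ne_one (r : ℝ) (h0 : r ≠ 0) (h1 : |r| < 1) :
    Complex.exp (2 * Real.pi * Complex.I * r) ≠ 1 := by
  intro h
  rw [Complex.exp_eq_one_iff] at h
  obtain ⟨n, hn⟩ := h
  have h2 : (r : ℂ) = n := by
    have hpi : (2 * Real.pi * Complex.I : ℂ) ≠ 0 := Complex.two_pi_I_ne_zero
    have : (2 * Real.pi * Complex.I) * (r : ℂ) = (2 * Real.pi * Complex.I) * n := by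
      rw [hn]; ring
    exact mul_left_cancel₀ hpi this
  have h3 : r = n := by exact_mod_cast h2
  have h4 : |(n : ℝ)| < 1 := h3 ▸ h1
  have h5 : |n| < 1 := by exact_mod_cast h4
  have h6 : n = 0 := Int.abs_lt_one_iff.1 h5
  exact h0 (by rw [h3, h6]; simp)

/-- A full geometric sum of a nontrivial root of unity vanishes. -/
theorem E_geom (r : ℝ) (h0 : r ≠ 0) (h1 : |r| < 1) (T : ℕ) (k : ℤ) (hk : r * T = k) (c : ℝ) :
    ∑ t ∈ range T, Complex.exp (2 * Real.pi * Complex.I * ((c + r * t : ℝ))) = 0 := by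
  have h2 : ∀ t : ℕ, Complex.exp (2 * Real.pi * Complex.I * ((c + r * t : ℝ)))
      = Complex.exp (2 * Real.pi * Complex.I * c) * Complex.exp (2 * Real.pi * Complex.I * r) ^ t := by
    intro t
    rw [← Complex.exp_nat_mul, ← Complex.exp_add]
    congr 1
    push_cast
    ring
  simp_rw [h2]
  rw [← Finset.mul_sum, geom_sum_eq (E_exp_ne_one r h0 h1)]
  have h3 : Complex.exp (2 * Real.pi * Complex.I * r) ^ T = 1 := by
    rw [← Complex.exp_nat_mul]
    have : (T : ℂ) * (2 * Real.pi * Complex.I * r) = 2 * Real.pi * Complex.I * ((k : ℝ) : ℂ) := by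
      rw [← hk]; push_cast; ring
    rw [this, E_exp_int]
  rw [h3]
  simp

/-- Exponential sums of a quadratic phase whose leading coefficient `θ` satisfies `θ T ∈ ℤ`. -/
theorem E_quad (θ μ ν : ℝ) (hθ : 0 < θ) (T R : ℕ) (hT : 0 < T) (hR : 0 < R)
    (hsmall : 2 * θ * R < 1) (k : ℤ) (hk : θ * T = k) :
    ‖∑ t ∈ range T, Complex.exp (2 * Real.pi * Complex.I * ((θ * t ^ 2 + μ * t + ν : ℝ)))‖
      ≤ (Real.sqrt (1 / R + 0) + 2 * R / T) * T := by
  refine vdcC (fun t => Complex.exp (2 * Real.pi * Complex.I * ((θ * t ^ 2 + μ * t + ν : ℝ))))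
    (fun n => (E_norm _).le) T R R hT hR (fun i => i) (fun i hi => hi.le) 0 le_rfl ?_
  intro i hi j hj hij
  have e1 : ∀ n : ℕ, Complex.exp (2 * Real.pi * Complex.I *
        ((θ * ((n + i : ℕ) : ℝ) ^ 2 + μ * ((n + i : ℕ) : ℝ) + ν : ℝ))) * (starRingEnd ℂ)
        (Complex.exp (2 * Real.pi * Complex.I *
          ((θ * ((n + j : ℕ) : ℝ) ^ 2 + μ * ((n + j : ℕ) : ℝ) + ν : ℝ))))
      = Complex.exp (2 * Real.pi * Complex.I *
        (((θ * ((i : ℝ) ^ 2 - (j : ℝ) ^ 2) + μ * (i - j)) + (2 * θ * (i - j)) * n : ℝ))) := by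
    intro n
    rw [← Complex.exp_conj, ← Complex.exp_add]
    congr 1
    simp only [map_mul, Complex.conj_ofReal, Complex.conj_I, map_ofNat]
    push_cast
    ring
  have hr0 : (2 * θ * ((i : ℝ) - j)) ≠ 0 := by
    have : (i : ℝ) - j ≠ 0 := sub_ne_zero.2 (by exact_mod_cast hij)
    have := hθ.ne'
    positivity
  have hr1 : |2 * θ * ((i : ℝ) - j)| < 1 := by
    rw [abs_mul, abs_of_pos (by positivity : (0 : ℝ) < 2 * θ)]
    have : |(i : ℝ) - j| ≤ R := by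
      have h1 : (i : ℝ) < R := by exact_mod_cast hi
      have h2 : (j : ℝ) < R := by exact_mod_cast hj
      have h3 : (0 : ℝ) ≤ i := Nat.cast_nonneg _
      have h4 : (0 : ℝ) ≤ j := Nat.cast_nonneg _
      rw [abs_le]
      constructor <;> linarith
    exact (mul_le_mul_of_nonneg_left this (by positivity)).trans_lt hsmall
  have := E_geom (2 * θ * ((i : ℝ) - j)) hr0 hr1 T (2 * k * ((i : ℤ) - j))
    (by push_cast; rw [← hk]; ring) (θ * ((i : ℝ) ^ 2 - (j : ℝ) ^ 2) + μ * (i - j))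
  simp_rw [e1]
  rw [this]
  simp

theorem equi (a b c m e : ℕ) (ha : 1 ≤ a) (hm : e ≤ m) (ε : ℝ) (hε : 0 < ε) :
    ∃ κ₀ : ℕ, ∀ κ : ℕ, κ₀ ≤ κ → ∀ χ z α : ℕ, α < 2 ^ e →
      |(((range (2 ^ (κ - m))).filter
        (fun t => qd a b c (χ * 2 ^ κ + z + 2 ^ m * t) / 2 ^ κ % 2 ^ e = α)).card : ℝ)
          - 2 ^ (κ - m) / 2 ^ e| ≤ ε * 2 ^ (κ - m) := by
  obtain ⟨H, δ, hδ, harc⟩ := arc e ε hε
  -- the number of shifts
  obtain ⟨R, hR⟩ : ∃ R : ℕ, (2 / δ) ^ 2 < R := exists_nat_gt _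
  have hR0 : 0 < R := by
    have : (0 : ℝ) < R := lt_of_le_of_lt (by positivity) hR
    exact_mod_cast this
  have hRr : (0 : ℝ) < R := by exact_mod_cast hR0
  have hsq : Real.sqrt (1 / R + 0) ≤ δ / 2 := by
    rw [add_zero, Real.sqrt_le_left (by positivity), div_le_iff₀ hRr]
    have h1 : (2 / δ) ^ 2 * (δ / 2) ^ 2 = 1 := by field_simp
    have h2 : (2 / δ) ^ 2 * (δ / 2) ^ 2 ≤ R * (δ / 2) ^ 2 :=
      mul_le_mul_of_nonneg_right hR.le (by positivity)
    linarith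
  obtain ⟨k₁, hk₁⟩ : ∃ k₁ : ℕ, 4 * R / δ < 2 ^ k₁ := pow_unbounded_of_one_lt _ (by norm_num)
  obtain ⟨k₂, hk₂⟩ : ∃ k₂ : ℕ, (2 * (H * (a * 2 ^ (2 * m))) * R : ℝ) < 2 ^ k₂ :=
    pow_unbounded_of_one_lt _ (by norm_num)
  refine ⟨k₁ + k₂ + m, fun κ hκ χ z α hα => ?_⟩
  set T : ℕ := 2 ^ (κ - m) with hTdef
  have hT0 : 0 < T := by positivity
  have hTr : (0 : ℝ) < T := by exact_mod_cast hT0
  have hTk : (T : ℝ) = 2 ^ (κ - m) := by rw [hTdef]; push_cast; rfl
  set n₀ : ℕ := χ * 2 ^ κ + z with hn₀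
  set y : ℕ → ℝ := fun t => (qd a b c (n₀ + 2 ^ m * t) : ℝ) / 2 ^ (κ + e) with hy
  have hfloor : ∀ t, ⌊(2 : ℝ) ^ e * y t⌋ = ((qd a b c (n₀ + 2 ^ m * t) / 2 ^ κ : ℕ) : ℤ) := by
    intro t
    have : (2 : ℝ) ^ e * y t = ((qd a b c (n₀ + 2 ^ m * t) : ℕ) : ℝ) / ((2 ^ κ : ℕ) : ℝ) := by
      rw [hy]
      push_cast
      rw [pow_add]
      field_simp
    rw [this, ← Int.natCast_floor_eq_floor (by positivity), Nat.floor_div_eq_div]
  have hexp : ∀ h : ℕ, 1 ≤ h → h ≤ H →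
      ‖∑ t ∈ range T, Complex.exp (2 * Real.pi * Complex.I * h * y t)‖ ≤ δ * T := by
    intro h h1 hH
    have hh : (0 : ℝ) < h := by exact_mod_cast h1
    have hexpand : ∀ t : ℕ, Complex.exp (2 * Real.pi * Complex.I * h * y t)
        = Complex.exp (2 * Real.pi * Complex.I *
          (((h * (a * 2 ^ (2 * m)) / 2 ^ (κ + e)) * t ^ 2
            + (h * (2 * a * n₀ + b) * 2 ^ m / 2 ^ (κ + e)) * t
            + h * (qd a b c n₀) / 2 ^ (κ + e) : ℝ))) := by
      intro t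
      have : (h * y t : ℝ) = ((h * (a * 2 ^ (2 * m)) / 2 ^ (κ + e)) * t ^ 2
            + (h * (2 * a * n₀ + b) * 2 ^ m / 2 ^ (κ + e)) * t
            + h * (qd a b c n₀) / 2 ^ (κ + e) : ℝ) := by
        simp only [hy, qd]
        push_cast
        rw [pow_mul']
        field_simp
        ring
      rw [← this]
      congr 1
      push_cast
      ring
    simp_rw [hexpand]
    have hθ : (0 : ℝ) < h * (a * 2 ^ (2 * m)) / 2 ^ (κ + e) := by
      have : (0 : ℝ) < a := by exact_mod_cast ha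
      positivity
    have hsmall : 2 * (h * (a * 2 ^ (2 * m)) / 2 ^ (κ + e)) * R < (1 : ℝ) := by
      have h2 : (2 : ℝ) ^ k₂ ≤ 2 ^ (κ + e) := pow_le_pow_right₀ (by norm_num) (by omega)
      have h3 : (h : ℝ) ≤ H := by exact_mod_cast hH
      have h4 : (2 * (h * (a * 2 ^ (2 * m))) * R : ℝ) ≤ 2 * (H * (a * 2 ^ (2 * m))) * R := by
        gcongr
      have h5 : 2 * (h * (a * 2 ^ (2 * m)) / 2 ^ (κ + e)) * R
          = (2 * (h * (a * 2 ^ (2 * m))) * R : ℝ) / 2 ^ (κ + e) := by ring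
      rw [h5, div_lt_one (by positivity)]
      linarith
    have hkint : (h * (a * 2 ^ (2 * m)) / 2 ^ (κ + e)) * T
        = (((h * a * 2 ^ (m - e) : ℕ) : ℤ) : ℝ) := by
      rw [hTk]
      have h6 : (2 : ℝ) ^ (2 * m) * 2 ^ (κ - m) = 2 ^ (m - e) * 2 ^ (κ + e) := by
        rw [← pow_add, ← pow_add]
        congr 1
        omega
      push_cast
      rw [div_mul_eq_mul_div, div_eq_iff (by positivity)]
      linear_combination (h : ℝ) * a * h6
    refine (E_quad _ _ _ hθ T R hT0 hR0 hsmall _ hkint).trans ?_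
    refine mul_le_mul_of_nonneg_right ?_ hTr.le
    have h7 : 2 * (R : ℝ) / T ≤ δ / 2 := by
      have h8 : (2 : ℝ) ^ k₁ ≤ T := by
        rw [hTk]
        exact pow_le_pow_right₀ (by norm_num) (by omega)
      have h9 : 4 * R / δ < T := hk₁.trans_le h8
      rw [div_lt_iff₀ hδ] at h9
      rw [div_le_iff₀ hTr]
      linarith
    linarith
  have key := harc T y hexp α
  have hset : ((range T).filter (fun t => ⌊(2 : ℝ) ^ e * y t⌋ % 2 ^ e = (α : ℤ) % 2 ^ e))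
      = (range T).filter (fun t => qd a b c (n₀ + 2 ^ m * t) / 2 ^ κ % 2 ^ e = α) := by
    refine Finset.filter_congr fun t _ => ?_
    rw [hfloor]
    have : (α : ℤ) % 2 ^ e = α := by
      rw [Int.emod_eq_of_lt (by positivity)]
      exact_mod_cast hα
    rw [this]
    norm_cast
  rw [hset, hTk] at key
  exact key

end Pool.Agent.Lib.MP_8fac0f_nt.N
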