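import Pool.Agent.Lib.MP_8fac0f_nt.N.Defs

/-!
# NC: the product of the signs is not constant
-/

set_option autoImplicit false

namespace Pool.Agent.Lib.MP_8fac0f_nt.N

open Finset

theorem nonconst {I D : Type*} [Fintype I] [Fintype D] [DecidableEq D] (p : I → D → ℕ)
    (d₀ : D) (h1 : ∀ i, p i d₀ = 1) (hI : Even (Fintype.card I)) (v : D → ℕ) (i₀ : I)
    (hmax : ∀ i, i ≠ i₀ → lin p i v < lin p i₀ v) :
    ∃ v v' : D → ℕ, ∏ i, sg (lin p i v) ≠ ∏ i, sg (lin p i v') := by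
  classical
  set w₀ := lin p i₀ v with hw₀
  set vQ : ℕ → D → ℕ := fun Q d => v d + if d = d₀ then 2 ^ Q - w₀ else 0 with hvQ
  have hlin : ∀ Q i, lin p i (vQ Q) = lin p i v + (2 ^ Q - w₀) := by
    intro Q i
    unfold lin
    simp only [hvQ, mul_add, sum_add_distrib, mul_ite, mul_zero]
    rw [sum_ite_eq' univ d₀]
    simp [h1]
  have hval : ∀ Q, w₀ ≤ 2 ^ Q → ∏ i, sg (lin p i (vQ Q)) =
      -1 * (((-1 : ℝ) ^ Q) ^ (Fintype.card I - 1) *
        ∏ i ∈ univ.erase i₀, sg (w₀ - 1 - lin p i v)) := by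
    intro Q hQ
    rw [← mul_prod_erase univ _ (mem_univ i₀)]
    congr 1
    · rw [hlin, ← hw₀, Nat.add_sub_cancel' hQ]
      have := sg_two_pow_mul Q 1
      rw [mul_one] at this
      rw [this, sg_one]
    · have hc : (univ.erase i₀).card = Fintype.card I - 1 := by
        rw [card_erase_of_mem (mem_univ _), card_univ]
      rw [← hc, ← prod_const, ← prod_mul_distrib]
      refine prod_congr rfl fun i hi => ?_
      have hlt := hmax i (ne_of_mem_erase hi)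
      apply sg_compl Q
      rw [hlin]
      omega
  have hcard : Odd (Fintype.card I - 1) := by
    have hpos : 0 < Fintype.card I := Fintype.card_pos_iff.mpr ⟨i₀⟩
    obtain ⟨c, hc⟩ := hI
    exact ⟨c - 1, by omega⟩
  have hne : ∏ i ∈ univ.erase i₀, sg (w₀ - 1 - lin p i v) ≠ 0 :=
    prod_ne_zero_iff.mpr fun i _ => sg_ne_zero _
  have hQ : w₀ ≤ 2 ^ w₀ := Nat.lt_two_pow_self.le
  refine ⟨vQ w₀, vQ (w₀ + 1), ?_⟩
  rw [hval w₀ hQ, hval (w₀ + 1) (hQ.trans (Nat.pow_le_pow_right (by norm_num) (Nat.le_succ _)))]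
  intro h
  have h2 : ((-1 : ℝ) ^ w₀) ^ (Fintype.card I - 1) = ((-1 : ℝ) ^ (w₀ + 1)) ^ (Fintype.card I - 1) := by
    have := mul_left_cancel₀ (by norm_num : (-1 : ℝ) ≠ 0) h
    exact mul_right_cancel₀ hne this
  rw [pow_succ (-1 : ℝ) w₀, mul_pow, hcard.neg_one_pow] at h2
  have h3 : ((-1 : ℝ) ^ w₀) ^ (Fintype.card I - 1) ≠ 0 :=
    pow_ne_zero _ (pow_ne_zero _ (by norm_num))
  apply h3
  linarith

end Pool.Agent.Lib.MP_8fac0f_nt.N
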