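import Pool.Agent.Lib.MP_8fac0f_nt.N.Defs
import Pool.Agent.Lib.MP_8fac0f_nt.N.V

/-!
# Module NN: normality from correlations
-/

set_option autoImplicit false

namespace Pool.Agent.Lib.MP_8fac0f_nt.N

open Finset Polynomial Filter Topology

theorem NN_prod_shift (g : ℕ → ℝ) (J : Finset ℕ) (n s : ℕ) :
    ∏ j ∈ J, g (n + s + j) = ∏ j ∈ J.map (addRightEmbedding s), g (n + j) := by
  rw [prod_map]
  refine prod_congr rfl fun j _ => ?_
  congr 1
  simp only [addRightEmbedding_apply]
  ring

theorem even_reduction (g : ℕ → ℝ) (hg : ∀ n, g n = 1 ∨ g n = -1)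
    (h : ∀ J : Finset ℕ, J.Nonempty → Even J.card → CorrZero g J) :
    ∀ J : Finset ℕ, J.Nonempty → CorrZero g J := by
  classical
  intro J hJ
  set M : ℕ := J.sup id with hM
  have hMJ : ∀ j ∈ J, j ≤ M := fun j hj => Finset.le_sup (f := id) hj
  set F : ℕ → ℝ := fun n => ∏ j ∈ J, g (n + j) with hFdef
  have habs : ∀ n, |g n| = 1 := fun n => by rcases hg n with h | h <;> simp [h]
  have hF1 : ∀ n, |F n| ≤ 1 := fun n => by
    simp only [F, Finset.abs_prod, habs, prod_const_one, le_refl]
  -- shifted products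
  have hpair : ∀ i j : ℕ, i ≠ j → CorrZero g (J.map (addRightEmbedding (i * (M + 1))) ∪
      J.map (addRightEmbedding (j * (M + 1)))) ∧
      ∀ n, F (n + i * (M + 1)) * F (n + j * (M + 1)) =
        ∏ x ∈ J.map (addRightEmbedding (i * (M + 1))) ∪ J.map (addRightEmbedding (j * (M + 1))),
          g (n + x) := by
    intro i j hij
    have hdis : Disjoint (J.map (addRightEmbedding (i * (M + 1))))
        (J.map (addRightEmbedding (j * (M + 1)))) := by
      rw [Finset.disjoint_left]
      intro x hx hx'
      simp only [Finset.mem_map, addRightEmbedding_apply] at hx hx'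
      obtain ⟨a, ha, rfl⟩ := hx
      obtain ⟨b, hb, hab⟩ := hx'
      have h1 := hMJ a ha
      have h2 := hMJ b hb
      apply hij
      have h3 : (a + i * (M + 1)) / (M + 1) = i := by
        rw [Nat.add_mul_div_right _ _ (Nat.succ_pos M), Nat.div_eq_of_lt (by omega), zero_add]
      have h4 : (b + j * (M + 1)) / (M + 1) = j := by
        rw [Nat.add_mul_div_right _ _ (Nat.succ_pos M), Nat.div_eq_of_lt (by omega), zero_add]
      rw [← h3, ← h4, hab]
    refine ⟨h _ ?_ ?_, fun n => ?_⟩
    · obtain ⟨a, ha⟩ := hJ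
      exact ⟨a + i * (M + 1), mem_union_left _ (by
        rw [Finset.mem_map]; exact ⟨a, ha, rfl⟩)⟩
    · rw [card_union_of_disjoint hdis, card_map, card_map]
      exact ⟨_, rfl⟩
    · rw [prod_union hdis]
      simp only [F]
      rw [NN_prod_shift, NN_prod_shift]
  -- epsilon management
  unfold CorrZero
  rw [Metric.tendsto_atTop]
  intro ε hε
  obtain ⟨R, hR⟩ : ∃ R : ℕ, 8 / ε ^ 2 < R := exists_nat_gt _
  have hRpos : 0 < R := by
    have : (0 : ℝ) < R := lt_trans (by positivity) hR
    exact_mod_cast this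
  have hR' : (0 : ℝ) < R := by exact_mod_cast hRpos
  set B : ℝ := ε ^ 2 / 8 with hB
  have hBpos : 0 < B := by positivity
  -- eventually all pair correlations are small
  have hev : ∀ᶠ N : ℕ in atTop, ∀ i < R, ∀ j < R, i ≠ j →
      |∑ n ∈ range N, F (n + i * (M + 1)) * F (n + j * (M + 1))| ≤ B * N := by
    have h1 : ∀ i ∈ Set.Iio R, ∀ᶠ N : ℕ in atTop, ∀ j < R, i ≠ j →
        |∑ n ∈ range N, F (n + i * (M + 1)) * F (n + j * (M + 1))| ≤ B * N := by
      intro i _
      have h2 : ∀ j ∈ Set.Iio R, ∀ᶠ N : ℕ in atTop, i ≠ j →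
          |∑ n ∈ range N, F (n + i * (M + 1)) * F (n + j * (M + 1))| ≤ B * N := by
        intro j _
        by_cases hij : i = j
        · exact Eventually.of_forall fun N h => absurd hij h
        · obtain ⟨h3, h4⟩ := hpair i j hij
          unfold CorrZero at h3
          rw [Metric.tendsto_atTop] at h3
          obtain ⟨N₀, hN₀⟩ := h3 B hBpos
          filter_upwards [eventually_ge_atTop (max N₀ 1)] with N hN _
          have h5 := hN₀ N (le_trans (le_max_left _ _) hN)
          have hNpos : (0 : ℝ) < N := by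
            have : 1 ≤ N := le_trans (le_max_right _ _) hN
            exact_mod_cast this
          rw [Real.dist_eq, sub_zero, abs_div, abs_of_pos hNpos, div_lt_iff₀ hNpos] at h5
          simp only [h4]
          exact h5.le
      have h3 := (eventually_all_finite (Set.finite_Iio R)).mpr h2
      filter_upwards [h3] with N hN j hj
      exact hN j hj
    have h3 := (eventually_all_finite (Set.finite_Iio R)).mpr h1
    filter_upwards [h3] with N hN i hi
    exact hN i hi
  obtain ⟨N₁, hN₁⟩ := eventually_atTop.mp hev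
  obtain ⟨N₂, hN₂⟩ : ∃ N₂ : ℕ, 4 * ((R * (M + 1) : ℕ) : ℝ) / ε < N₂ := exists_nat_gt _
  refine ⟨max (max N₁ N₂) 1, fun N hN => ?_⟩
  have hNN1 : N₁ ≤ N := le_trans (le_trans (le_max_left _ _) (le_max_left _ _)) hN
  have hNN2 : N₂ ≤ N := le_trans (le_trans (le_max_right _ _) (le_max_left _ _)) hN
  have hN1 : 1 ≤ N := le_trans (le_max_right _ _) hN
  have hNpos : (0 : ℝ) < N := by exact_mod_cast hN1
  have hv := vdcR F hF1 N R (R * (M + 1)) hN1 hRpos (fun i => i * (M + 1))
    (fun i hi => Nat.mul_le_mul_right _ hi.le) B hBpos.le (hN₁ N hNN1)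
  rw [Real.dist_eq, sub_zero, abs_div, abs_of_pos hNpos, div_lt_iff₀ hNpos]
  refine lt_of_le_of_lt hv ?_
  apply mul_lt_mul_of_pos_right _ hNpos
  have h6 : Real.sqrt (1 / R + B) ≤ ε / 2 := by
    rw [Real.sqrt_le_left (by positivity)]
    have h7 : 1 / (R : ℝ) ≤ ε ^ 2 / 8 := by
      rw [div_le_iff₀ hR']
      rw [div_lt_iff₀ (by positivity)] at hR
      nlinarith
    have h8 : (ε / 2) ^ 2 = ε ^ 2 / 8 + ε ^ 2 / 8 := by ring
    rw [h8]
    linarith
  have h7 : 2 * ((R * (M + 1) : ℕ) : ℝ) / N < ε / 2 := by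
    rw [div_lt_iff₀ hNpos]
    have h8 : (N₂ : ℝ) ≤ N := by exact_mod_cast hNN2
    rw [div_lt_iff₀ hε] at hN₂
    nlinarith
  linarith

theorem normal_of_corr (t : ℕ → ℕ) (g : ℕ → ℝ) (ht : ∀ n, t n < 2) (hg : ∀ n, g n = (-1) ^ t n)
    (h : ∀ J : Finset ℕ, J.Nonempty → CorrZero g J) (k : ℕ) (w : Fin k → Fin 2) :
    Tendsto (fun N : ℕ => (((range N).filter (fun n => ∀ i : Fin k, t (n + i) = w i)).card : ℝ) / N)
      atTop (𝓝 ((1 / 2) ^ k)) := by
  classical
  have hind : ∀ n i, (if t (n + (i : Fin k)) = w i then (1 : ℝ) else 0) =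
      (1 + (-1) ^ (w i : ℕ) * g (n + i)) / 2 := by
    intro n i
    have h1 := ht (n + i)
    have h2 := (w i).isLt
    rw [hg]
    generalize t (n + (i : ℕ)) = a at h1 ⊢
    generalize ((w i : Fin 2) : ℕ) = b at h2 ⊢
    interval_cases a <;> interval_cases b <;> norm_num
  have hcount : ∀ N : ℕ, (((range N).filter (fun n => ∀ i : Fin k, t (n + i) = w i)).card : ℝ) =
      ∑ S ∈ (univ : Finset (Fin k)).powerset, (1 / 2) ^ k * (∏ i ∈ S, (-1 : ℝ) ^ (w i : ℕ)) *
        ∑ n ∈ range N, ∏ j ∈ S.map Fin.valEmbedding, g (n + j) := by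
    intro N
    have h1 : (((range N).filter (fun n => ∀ i : Fin k, t (n + i) = w i)).card : ℝ) =
        ∑ n ∈ range N, ∏ i : Fin k, (if t (n + (i : Fin k)) = w i then (1 : ℝ) else 0) := by
      rw [card_filter, Nat.cast_sum]
      refine sum_congr rfl fun n _ => ?_
      rw [Finset.prod_ite_zero]
      simp
    rw [h1]
    have h2 : ∀ n, ∏ i : Fin k, (if t (n + (i : Fin k)) = w i then (1 : ℝ) else 0) =
        ∑ S ∈ (univ : Finset (Fin k)).powerset, (1 / 2) ^ k * (∏ i ∈ S, (-1 : ℝ) ^ (w i : ℕ)) *
          ∏ j ∈ S.map Fin.valEmbedding, g (n + j) := by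
      intro n
      simp_rw [hind]
      rw [prod_div_distrib, prod_const, card_univ, Fintype.card_fin, prod_one_add, div_eq_mul_inv,
        sum_mul]
      refine sum_congr rfl fun S _ => ?_
      rw [prod_mul_distrib, prod_map]
      simp only [Fin.valEmbedding_apply]
      rw [one_div, inv_pow]
      ring
    simp_rw [h2]
    rw [sum_comm]
    refine sum_congr rfl fun S _ => ?_
    rw [mul_sum]
  simp_rw [hcount]
  have hlim : Tendsto (fun N : ℕ => ∑ S ∈ (univ : Finset (Fin k)).powerset,
      (1 / 2) ^ k * (∏ i ∈ S, (-1 : ℝ) ^ (w i : ℕ)) *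
        ((∑ n ∈ range N, ∏ j ∈ S.map Fin.valEmbedding, g (n + j)) / N)) atTop
      (𝓝 (∑ S ∈ (univ : Finset (Fin k)).powerset,
        (1 / 2) ^ k * (∏ i ∈ S, (-1 : ℝ) ^ (w i : ℕ)) * (if S = ∅ then 1 else 0))) := by
    refine tendsto_finsetSum _ fun S _ => ?_
    refine Tendsto.const_mul _ ?_
    split_ifs with hS
    · subst hS
      refine Tendsto.congr' ?_ tendsto_const_nhds
      filter_upwards [eventually_gt_atTop 0] with N hN
      have : (N : ℝ) ≠ 0 := by exact_mod_cast hN.ne'
      simp [this]
    · exact h _ (by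
        rw [map_nonempty]
        exact nonempty_iff_ne_empty.mpr hS)
  have hval : ∑ S ∈ (univ : Finset (Fin k)).powerset,
        (1 / 2 : ℝ) ^ k * (∏ i ∈ S, (-1 : ℝ) ^ (w i : ℕ)) * (if S = ∅ then 1 else 0) =
        (1 / 2) ^ k := by
    rw [sum_eq_single ∅]
    · simp
    · intro S _ hS
      simp [hS]
    · intro hS
      exact absurd (empty_mem_powerset _) hS
  rw [hval] at hlim
  refine hlim.congr fun N => ?_
  rw [sum_div]
  refine sum_congr rfl fun S _ => ?_
  ring

theorem tendsto_shift (A : ℕ → Prop) [DecidablePred A] (v : ℕ) (l : ℝ)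
    (h : Tendsto (fun N : ℕ => (((range N).filter (fun n => A (n + v))).card : ℝ) / N) atTop (𝓝 l)) :
    Tendsto (fun N : ℕ => (((range N).filter A).card : ℝ) / N) atTop (𝓝 l) := by
  have hcmp : ∀ N : ℕ, |(((range N).filter A).card : ℝ) -
      (((range N).filter (fun n => A (n + v))).card : ℝ)| ≤ v := by
    intro N
    have h1 : ((range N).filter A).card ≤ ((range N).filter (fun n => A (n + v))).card + v := by
      have h2 : (range N).filter A ⊆
          (((range N).filter (fun n => A (n + v))).map (addRightEmbedding v)) ∪ range v := by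
        intro x hx
        rw [mem_filter, mem_range] at hx
        rw [mem_union]
        rcases Nat.lt_or_ge x v with h3 | h3
        · right; exact mem_range.mpr h3
        · left
          rw [Finset.mem_map]
          refine ⟨x - v, ?_, ?_⟩
          · rw [mem_filter, mem_range]
            refine ⟨by omega, ?_⟩
            rw [Nat.sub_add_cancel h3]
            exact hx.2
          · simp only [addRightEmbedding_apply]
            omega
      refine (card_le_card h2).trans ((card_union_le _ _).trans ?_)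
      rw [card_map, card_range]
    have h2 : ((range N).filter (fun n => A (n + v))).card ≤ ((range N).filter A).card + v := by
      have h3 : ((range N).filter (fun n => A (n + v))).map (addRightEmbedding v) ⊆
          (range N).filter A ∪ Ico N (N + v) := by
        intro x hx
        rw [Finset.mem_map] at hx
        obtain ⟨y, hy, rfl⟩ := hx
        rw [mem_filter, mem_range] at hy
        simp only [addRightEmbedding_apply]
        rw [mem_union, mem_filter, mem_range, mem_Ico]
        rcases Nat.lt_or_ge (y + v) N with h4 | h4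
        · left; exact ⟨h4, hy.2⟩
        · right; omega
      have h4 := card_le_card h3
      rw [card_map] at h4
      refine h4.trans ((card_union_le _ _).trans ?_)
      rw [Nat.card_Ico]
      omega
    rw [abs_le]
    constructor
    · have : (((range N).filter (fun n => A (n + v))).card : ℝ) ≤ ((range N).filter A).card + v := by
        exact_mod_cast h2
      linarith
    · have : (((range N).filter A).card : ℝ) ≤
          ((range N).filter (fun n => A (n + v))).card + v := by
        exact_mod_cast h1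
      linarith
  have hdiff : Tendsto (fun N : ℕ => (((range N).filter A).card : ℝ) / N -
      (((range N).filter (fun n => A (n + v))).card : ℝ) / N) atTop (𝓝 0) := by
    refine squeeze_zero_norm (a := fun N : ℕ => (v : ℝ) / N) (fun N => ?_) ?_
    · rw [← sub_div, norm_div, Real.norm_eq_abs, RCLike.norm_natCast]
      exact div_le_div_of_nonneg_right (hcmp N) (Nat.cast_nonneg N)
    · exact tendsto_const_div_atTop_nhds_zero_nat (v : ℝ)
  have := hdiff.add h
  rw [zero_add] at this
  refine this.congr fun N => ?_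
  ring

end Pool.Agent.Lib.MP_8fac0f_nt.N
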