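import Pool.Agent.Lib.MP_8fac0f_nt.N.Defs

/-!
# Module W: digits after a shift by a multiple of `2^κ`
-/

set_option autoImplicit false

namespace Pool.Agent.Lib.MP_8fac0f_nt.N

open Finset

theorem W_qd_shift (a b c κ w n s : ℕ) (hw : w ≤ κ) :
    qd a b c (n + 2 ^ κ * s) % 2 ^ (κ + w) =
      qd a b c n % 2 ^ κ + 2 ^ κ * ((qd a b c n / 2 ^ κ + s * (2 * a * n + b)) % 2 ^ w) := by
  have h1 : qd a b c (n + 2 ^ κ * s) = qd a b c n % 2 ^ κ
      + 2 ^ κ * ((qd a b c n / 2 ^ κ + s * (2 * a * n + b)) + 2 ^ w * (2 ^ (κ - w) * (a * s ^ 2))) := by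
    have e1 : (2 : ℕ) ^ κ * (2 ^ w * (2 ^ (κ - w) * (a * s ^ 2))) = 2 ^ κ * 2 ^ κ * (a * s ^ 2) := by
      have : (2 : ℕ) ^ κ = 2 ^ w * 2 ^ (κ - w) := by rw [← pow_add]; congr 1; omega
      calc _ = 2 ^ κ * (2 ^ w * 2 ^ (κ - w)) * (a * s ^ 2) := by ring
        _ = _ := by rw [← this]
    have e2 : qd a b c n % 2 ^ κ + 2 ^ κ * (qd a b c n / 2 ^ κ) = qd a b c n := by
      rw [add_comm]; exact Nat.div_add_mod _ _
    rw [mul_add, e1]
    have e3 : qd a b c n % 2 ^ κ + (2 ^ κ * (qd a b c n / 2 ^ κ + s * (2 * a * n + b))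
        + 2 ^ κ * 2 ^ κ * (a * s ^ 2)) = qd a b c n + 2 ^ κ * (s * (2 * a * n + b))
        + 2 ^ κ * 2 ^ κ * (a * s ^ 2) := by
      rw [← e2]
      rw [e2]
      nlinarith [e2]
    rw [e3]
    unfold qd
    ring
  rw [h1, pow_add, Nat.mod_mul]
  congr 1
  · rw [Nat.add_mul_mod_self_left, Nat.mod_mod]
  · rw [Nat.add_mul_div_left _ _ (pow_pos (by norm_num) κ),
      Nat.div_eq_of_lt (Nat.mod_lt _ (pow_pos (by norm_num) κ)), zero_add,
      Nat.add_mul_mod_self_left]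

theorem low_cancel (a b c : ℕ) (J : Finset ℕ) (κ w n s s' : ℕ) (hw : w ≤ κ) :
    GK a b c J (κ + w) (n + 2 ^ κ * s) * GK a b c J (κ + w) (n + 2 ^ κ * s') =
      ∏ j ∈ J, sg ((qd a b c (n + j) / 2 ^ κ + s * (2 * a * (n + j) + b)) % 2 ^ w) *
        sg ((qd a b c (n + j) / 2 ^ κ + s' * (2 * a * (n + j) + b)) % 2 ^ w) := by
  unfold GK
  rw [← prod_mul_distrib]
  refine prod_congr rfl fun j _ => ?_
  have e : ∀ s : ℕ, sg (qd a b c (n + 2 ^ κ * s + j) % 2 ^ (κ + w)) = sg (qd a b c (n + j) % 2 ^ κ)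
      * sg ((qd a b c (n + j) / 2 ^ κ + s * (2 * a * (n + j) + b)) % 2 ^ w) := by
    intro s
    rw [show n + 2 ^ κ * s + j = n + j + 2 ^ κ * s by ring, W_qd_shift a b c κ w (n + j) s hw,
      add_comm (qd a b c (n + j) % 2 ^ κ)]
    exact sg_split κ _ _ (Nat.mod_lt _ (pow_pos (by norm_num) κ))
  rw [e, e]
  have := sg_sq (qd a b c (n + j) % 2 ^ κ)
  calc _ = (sg (qd a b c (n + j) % 2 ^ κ) * sg (qd a b c (n + j) % 2 ^ κ)) *
        (sg ((qd a b c (n + j) / 2 ^ κ + s * (2 * a * (n + j) + b)) % 2 ^ w) *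
        sg ((qd a b c (n + j) / 2 ^ κ + s' * (2 * a * (n + j) + b)) % 2 ^ w)) := by ring
    _ = _ := by rw [this, one_mul]

/-- In a good cell the digits of `P (n + j)` in the window are explicit. -/
theorem cell (a b c j κ lam w n : ℕ) (hj : a * j ^ 2 + b * j ≤ 2 ^ κ)
    (hgood : (qd a b c n / 2 ^ κ % 2 ^ (lam + w) + 2 * a * j * (n / 2 ^ κ)) % 2 ^ lam
      + (2 * a * j + 1) < 2 ^ lam) :
    qd a b c (n + j) / 2 ^ (κ + lam) % 2 ^ w =
      (qd a b c n / 2 ^ κ % 2 ^ (lam + w) + 2 * a * j * (n / 2 ^ κ)) / 2 ^ lam % 2 ^ w := by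
  have hk : 0 < 2 ^ κ := pow_pos (by norm_num) κ
  have hl : 0 < 2 ^ lam := pow_pos (by norm_num) lam
  set Q := qd a b c n with hQ
  set A := Q / 2 ^ κ with hA
  set A' := A % 2 ^ (lam + w) with hA'
  set χ := n / 2 ^ κ with hχ
  -- the value of `P (n + j)` on the fine scale
  have e1 : qd a b c (n + j) = Q + 2 * a * j * n + (a * j ^ 2 + b * j) := by
    rw [hQ]; unfold qd; ring
  have e2 : Q = 2 ^ κ * A + Q % 2 ^ κ := (Nat.div_add_mod Q (2 ^ κ)).symm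
  have e3 : n = 2 ^ κ * χ + n % 2 ^ κ := (Nat.div_add_mod n (2 ^ κ)).symm
  have h2 : Q % 2 ^ κ < 2 ^ κ := Nat.mod_lt _ hk
  have h3 : n % 2 ^ κ < 2 ^ κ := Nat.mod_lt _ hk
  set δ := (Q % 2 ^ κ + 2 * a * j * (n % 2 ^ κ) + (a * j ^ 2 + b * j)) / 2 ^ κ with hδ
  have e4 : qd a b c (n + j) / 2 ^ κ = A + 2 * a * j * χ + δ := by
    have : qd a b c (n + j) = (Q % 2 ^ κ + 2 * a * j * (n % 2 ^ κ) + (a * j ^ 2 + b * j))
        + 2 ^ κ * (A + 2 * a * j * χ) := by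
      rw [e1]
      conv_lhs => rw [e2, e3]
      ring
    rw [this, Nat.add_mul_div_left _ _ hk, ← hδ]
    ring
  have h4 : δ ≤ 2 * a * j + 1 := by
    have : Q % 2 ^ κ + 2 * a * j * (n % 2 ^ κ) + (a * j ^ 2 + b * j) < 2 ^ κ * (2 * a * j + 2) := by
      have : 2 * a * j * (n % 2 ^ κ) ≤ 2 * a * j * 2 ^ κ := Nat.mul_le_mul_left _ h3.le
      nlinarith
    rw [hδ]
    have := Nat.div_lt_of_lt_mul this
    omega
  -- reduce modulo `2^(lam+w)`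
  have e5 : A = A' + 2 ^ (lam + w) * (A / 2 ^ (lam + w)) := by
    rw [hA', add_comm]; exact (Nat.div_add_mod A _).symm
  rw [pow_add 2 κ lam, ← Nat.div_div_eq_div_mul, e4]
  have e6 : A + 2 * a * j * χ + δ = (A' + 2 * a * j * χ) % 2 ^ lam + δ
      + 2 ^ lam * ((A' + 2 * a * j * χ) / 2 ^ lam + 2 ^ w * (A / 2 ^ (lam + w))) := by
    have := Nat.div_add_mod (A' + 2 * a * j * χ) (2 ^ lam)
    have e7 : 2 ^ lam * (2 ^ w * (A / 2 ^ (lam + w))) = 2 ^ (lam + w) * (A / 2 ^ (lam + w)) := by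
      rw [pow_add]; ring
    calc A + 2 * a * j * χ + δ = (A' + 2 * a * j * χ) + 2 ^ (lam + w) * (A / 2 ^ (lam + w)) + δ := by
          conv_lhs => rw [e5]
          ring
      _ = _ := by rw [mul_add, e7]; omega
  rw [e6, Nat.add_mul_div_left _ _ hl, Nat.div_eq_of_lt (by omega), zero_add,
    Nat.add_mul_mod_self_left]

end Pool.Agent.Lib.MP_8fac0f_nt.N
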