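import Pool.Agent.Lib.MP_8fac0f_nt.N.V
import Pool.Agent.Lib.MP_8fac0f_nt.N.A
import Pool.Agent.Lib.MP_8fac0f_nt.N.E
import Pool.Agent.Lib.MP_8fac0f_nt.N.C
import Pool.Agent.Lib.MP_8fac0f_nt.N.NC
import Pool.Agent.Lib.MP_8fac0f_nt.N.TR
import Pool.Agent.Lib.MP_8fac0f_nt.N.NN
import Pool.Agent.Lib.MP_8fac0f_nt.N.W

/-!
# Module M, part 1: the window average
-/

set_option autoImplicit false

namespace Pool.Agent.Lib.MP_8fac0f_nt.N

open Finset

theorem M_sum_range_mul {α : Type*} [AddCommMonoid α] (g : ℕ → α) (A B : ℕ) :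
    ∑ n ∈ range (A * B), g n = ∑ i ∈ range B, ∑ r ∈ range A, g (r + A * i) := by
  induction B with
  | zero => simp
  | succ B ih =>
    rw [Nat.mul_succ, sum_range_add, ih, sum_range_succ]
    congr 1
    exact sum_congr rfl fun r _ => by rw [add_comm]

/-- The product over the window, in terms of the fine digits. -/
noncomputable def M_Psi (a b : ℕ) (J : Finset ℕ) (lam w s s' : ℕ) (A χ z : ℕ) : ℝ :=
  ∏ j ∈ J, sg (((A + 2 * a * j * χ) / 2 ^ lam + s * (2 * a * (z + j) + b)) % 2 ^ w) *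
    sg (((A + 2 * a * j * χ) / 2 ^ lam + s' * (2 * a * (z + j) + b)) % 2 ^ w)

/-- Good cells. -/
def M_Good (a : ℕ) (J : Finset ℕ) (lam A χ : ℕ) : Prop :=
  ∀ j ∈ J, (A + 2 * a * j * χ) % 2 ^ lam + (2 * a * j + 1) < 2 ^ lam

instance (a : ℕ) (J : Finset ℕ) (lam A χ : ℕ) : Decidable (M_Good a J lam A χ) := by
  unfold M_Good; infer_instance

theorem M_abs_Psi (a b : ℕ) (J : Finset ℕ) (lam w s s' : ℕ) (A χ z : ℕ) :
    |M_Psi a b J lam w s s' A χ z| = 1 := by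
  unfold M_Psi
  rw [abs_prod]
  apply prod_eq_one
  intro j _
  rw [abs_mul, abs_sg, abs_sg, one_mul]

theorem M_mod_add (x y z W : ℕ) (h : x % W = y % W) : (x + z) % W = (y + z) % W := by
  rw [Nat.add_mod, h, ← Nat.add_mod]

/-- On good cells the product is `M_Psi`. -/
theorem M_cell (a b c : ℕ) (J : Finset ℕ) (κ lam w m s s' : ℕ) (hw : w ≤ κ) (hwm : w ≤ m)
    (hJ : ∀ j ∈ J, a * j ^ 2 + b * j ≤ 2 ^ κ) (χ z t : ℕ) (hzt : z + 2 ^ m * t < 2 ^ κ)
    (hg : M_Good a J lam (qd a b c (χ * 2 ^ κ + z + 2 ^ m * t) / 2 ^ κ % 2 ^ (lam + w)) χ) :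
    GK a b c J (κ + lam + w) (χ * 2 ^ κ + z + 2 ^ m * t + 2 ^ (κ + lam) * s) *
      GK a b c J (κ + lam + w) (χ * 2 ^ κ + z + 2 ^ m * t + 2 ^ (κ + lam) * s') =
      M_Psi a b J lam w s s' (qd a b c (χ * 2 ^ κ + z + 2 ^ m * t) / 2 ^ κ % 2 ^ (lam + w)) χ z := by
  set n := χ * 2 ^ κ + z + 2 ^ m * t with hn
  rw [low_cancel a b c J (κ + lam) w n s s' (by omega)]
  unfold M_Psi
  refine prod_congr rfl fun j hj => ?_
  have hχ : n / 2 ^ κ = χ := by
    rw [hn, add_assoc, mul_comm χ, add_comm, Nat.add_mul_div_left _ _ (pow_pos (by norm_num) κ),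
      Nat.div_eq_of_lt hzt, zero_add]
  have h1 := cell a b c j κ lam w n (hJ j hj) (by rw [hχ]; exact hg j hj)
  rw [hχ] at h1
  have h2 : ∀ s : ℕ, (s * (2 * a * (n + j) + b)) % 2 ^ w = (s * (2 * a * (z + j) + b)) % 2 ^ w := by
    intro s
    have e : s * (2 * a * (n + j) + b) = s * (2 * a * (z + j) + b)
        + 2 ^ w * (s * (2 * a) * (2 ^ (κ - w) * χ + 2 ^ (m - w) * t)) := by
      have e1 : (2 : ℕ) ^ κ = 2 ^ w * 2 ^ (κ - w) := by rw [← pow_add]; congr 1; omega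
      have e2 : (2 : ℕ) ^ m = 2 ^ w * 2 ^ (m - w) := by rw [← pow_add]; congr 1; omega
      rw [hn, e1, e2]
      ring
    rw [e, Nat.add_mul_mod_self_left]
  have h3 : ∀ s : ℕ, (qd a b c (n + j) / 2 ^ (κ + lam) + s * (2 * a * (n + j) + b)) % 2 ^ w =
      ((qd a b c n / 2 ^ κ % 2 ^ (lam + w) + 2 * a * j * χ) / 2 ^ lam
        + s * (2 * a * (z + j) + b)) % 2 ^ w := by
    intro s
    rw [Nat.add_mod, h1, h2 s, ← Nat.add_mod]
  rw [h3 s, h3 s']

/-- The number of bad digits. -/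
theorem M_bad_card (lam q y : ℕ) :
    ((range (2 ^ lam)).filter (fun x => ¬ ((x + y) % 2 ^ lam + q < 2 ^ lam))).card ≤ q := by
  have h : ((range (2 ^ lam)).filter (fun x => ¬ ((x + y) % 2 ^ lam + q < 2 ^ lam))).card ≤
      (Finset.Ico (2 ^ lam - q) (2 ^ lam)).card := by
    apply card_le_card_of_injOn (fun x => (x + y) % 2 ^ lam)
    · intro x hx
      rw [mem_coe, mem_filter, mem_range] at hx
      rw [mem_coe, mem_Ico]
      have := Nat.mod_lt (x + y) (pow_pos (by norm_num : 0 < 2) lam)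
      dsimp only
      omega
    · intro x1 h1 x2 h2 he
      rw [mem_coe, mem_filter, mem_range] at h1 h2
      dsimp only at he
      have : x1 % 2 ^ lam = x2 % 2 ^ lam := Nat.ModEq.add_right_cancel' y he
      rw [Nat.mod_eq_of_lt h1.1, Nat.mod_eq_of_lt h2.1] at this
      exact this
  refine h.trans ?_
  rw [Nat.card_Ico]
  omega

/-- The number of bad cells for fixed `χ`. -/
theorem M_bad_card' (a : ℕ) (J : Finset ℕ) (lam χ : ℕ) :
    ((range (2 ^ lam)).filter (fun x => ¬ M_Good a J lam x χ)).card ≤ ∑ j ∈ J, (2 * a * j + 1) := by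
  have h : (range (2 ^ lam)).filter (fun x => ¬ M_Good a J lam x χ) ⊆
      J.biUnion (fun j => (range (2 ^ lam)).filter
        (fun x => ¬ ((x + 2 * a * j * χ) % 2 ^ lam + (2 * a * j + 1) < 2 ^ lam))) := by
    intro x hx
    rw [mem_filter] at hx
    unfold M_Good at hx
    push Not at hx
    obtain ⟨h1, j, hj, h2⟩ := hx
    rw [mem_biUnion]
    exact ⟨j, hj, mem_filter.2 ⟨h1, by omega⟩⟩
  exact (card_le_card h).trans (card_biUnion_le.trans (sum_le_sum fun j _ => M_bad_card _ _ _))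

/-- The forms. -/
def M_p (a : ℕ) (J : Finset ℕ) (s s' : ℕ) (i : {j // j ∈ J} × Bool) : Fin 3 → ℕ :=
  ![1, 2 * a * i.1, 2 * a * (if i.2 then s' else s)]

theorem M_lin (a : ℕ) (J : Finset ℕ) (s s' : ℕ) (i : {j // j ∈ J} × Bool) (v : Fin 3 → ℕ) :
    lin (M_p a J s s') i v = v 0 + 2 * a * i.1 * v 1 + 2 * a * (if i.2 then s' else s) * v 2 := by
  unfold lin M_p
  rw [Fin.sum_univ_three]
  simp

theorem M_nonconst (a : ℕ) (ha : 1 ≤ a) (J : Finset ℕ) (hJ : J.Nonempty) (s s' : ℕ) (hs : s < s') :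
    ∃ v v' : Fin 3 → ℕ, ∏ i, sg (lin (M_p a J s s') i v) ≠ ∏ i, sg (lin (M_p a J s s') i v') := by
  apply nonconst (M_p a J s s') 0 (fun i => rfl) _ ![0, 1, 1] (⟨J.max' hJ, J.max'_mem hJ⟩, true)
  · rintro ⟨⟨j, hj⟩, σ⟩ hne
    rw [M_lin, M_lin]
    have h1 : j ≤ J.max' hJ := J.le_max' j hj
    simp only [Matrix.cons_val_zero, Matrix.cons_val_one, Matrix.cons_val, if_true, mul_one, zero_add]
    rcases Bool.eq_false_or_eq_true σ with h | h
    · subst h
      have h2 : j ≠ J.max' hJ := by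
        rintro rfl
        exact hne rfl
      have h3 : j < J.max' hJ := lt_of_le_of_ne h1 h2
      simp only [if_true]
      nlinarith
    · subst h
      simp only [Bool.false_eq_true, if_false]
      nlinarith
  · simp only [Fintype.card_prod, Fintype.card_bool]
    exact even_two.mul_left _

theorem M_prod (J : Finset ℕ) (F : ℕ → Bool → ℝ) :
    ∏ i : {j // j ∈ J} × Bool, F i.1 i.2 = ∏ j ∈ J, F j false * F j true := by
  rw [Fintype.prod_prod_type]
  simp only [Fintype.prod_bool]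
  rw [Finset.prod_coe_sort J (fun j => F j true * F j false)]
  exact prod_congr rfl fun j _ => mul_comm _ _

theorem M_piFinset_three (B : Fin 3 → ℕ) (f : (Fin 3 → ℕ) → ℝ) :
    ∑ v ∈ Fintype.piFinset (fun d : Fin 3 => range (B d)), f v =
      ∑ A ∈ range (B 0), ∑ X ∈ range (B 1), ∑ z ∈ range (B 2), f ![A, X, z] := by
  have h1 : ∑ A ∈ range (B 0), ∑ X ∈ range (B 1), ∑ z ∈ range (B 2), f ![A, X, z] =
      ∑ q ∈ range (B 0) ×ˢ (range (B 1) ×ˢ range (B 2)), f ![q.1, q.2.1, q.2.2] := by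
    rw [sum_product]
    refine sum_congr rfl fun A _ => ?_
    rw [sum_product]
  rw [h1]
  refine sum_nbij' (fun v => (v 0, v 1, v 2)) (fun q => ![q.1, q.2.1, q.2.2]) ?_ ?_ ?_ ?_ ?_
  · intro v hv
    rw [Fintype.mem_piFinset] at hv
    simp only [mem_product]
    exact ⟨hv 0, hv 1, hv 2⟩
  · rintro ⟨A, X, z⟩ hq
    simp only [mem_product] at hq
    rw [Fintype.mem_piFinset]
    intro d
    fin_cases d
    · exact hq.1
    · exact hq.2.1
    · exact hq.2.2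
  · intro v _
    funext d
    fin_cases d <;> rfl
  · rintro ⟨A, X, z⟩ _
    rfl
  · intro v _
    congr 1
    funext d
    fin_cases d <;> rfl

/-- `M_Psi` in terms of the forms. -/
theorem M_Psi_eq (a b : ℕ) (J : Finset ℕ) (lam w s s' x y A X z : ℕ) :
    M_Psi a b J lam w s s' (x + 2 ^ lam * A) (y + 2 ^ lam * X) z =
      ∏ i, sg ((lin (M_p a J s s') i ![A, X, z] + ((x + 2 * a * i.1 * y) / 2 ^ lam
        + (if i.2 then s' else s) * (2 * a * i.1 + b))) % 2 ^ w) := by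
  have h := M_prod J (fun j σ => sg ((A + 2 * a * j * X + 2 * a * (if σ then s' else s) * z +
    ((x + 2 * a * j * y) / 2 ^ lam + (if σ then s' else s) * (2 * a * j + b))) % 2 ^ w))
  have h2 : ∀ i : {j // j ∈ J} × Bool, lin (M_p a J s s') i ![A, X, z] =
      A + 2 * a * i.1 * X + 2 * a * (if i.2 then s' else s) * z := fun i => by
    rw [M_lin]; rfl
  simp only [h2]
  rw [h]
  unfold M_Psi
  refine prod_congr rfl fun j _ => ?_
  have h3 : (x + 2 ^ lam * A + 2 * a * j * (y + 2 ^ lam * X)) / 2 ^ lam =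
      A + 2 * a * j * X + (x + 2 * a * j * y) / 2 ^ lam := by
    have : x + 2 ^ lam * A + 2 * a * j * (y + 2 ^ lam * X) = x + 2 * a * j * y
        + 2 ^ lam * (A + 2 * a * j * X) := by ring
    rw [this, Nat.add_mul_div_left _ _ (pow_pos (by norm_num) lam)]
    ring
  simp only [Bool.false_eq_true, if_false, if_true]
  rw [h3]
  congr 2
  · congr 1; ring
  · congr 1; ring

theorem M_Good_iff (a : ℕ) (J : Finset ℕ) (lam x y A X : ℕ) :
    M_Good a J lam (x + 2 ^ lam * A) (y + 2 ^ lam * X) ↔ M_Good a J lam x y := by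
  unfold M_Good
  refine forall_congr' fun j => forall_congr' fun _ => ?_
  have : x + 2 ^ lam * A + 2 * a * j * (y + 2 ^ lam * X) = x + 2 * a * j * y
        + 2 ^ lam * (A + 2 * a * j * X) := by ring
  rw [this, Nat.add_mul_mod_self_left]

/-- A bound for the carries and the coefficients. -/
def M_C (a b : ℕ) (J : Finset ℕ) (s' : ℕ) : ℕ :=
  ∑ j ∈ J, (1 + 2 * a * j + 2 * a * s' + s' * (2 * a * j + b))

theorem M_C_ge (a b : ℕ) (J : Finset ℕ) (s' j : ℕ) (hj : j ∈ J) :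
    1 + 2 * a * j + 2 * a * s' + s' * (2 * a * j + b) ≤ M_C a b J s' := by
  unfold M_C
  exact single_le_sum (f := fun j => 1 + 2 * a * j + 2 * a * s' + s' * (2 * a * j + b))
    (fun _ _ => Nat.zero_le _) hj

theorem M_avg (a b : ℕ) (J : Finset ℕ) (s s' : ℕ) (hs : s < s') (T : ℕ) (ε : ℝ)
    (hΦ : ∀ c : ({j // j ∈ J} × Bool) → ℕ, (∀ i, c i ≤ M_C a b J s') →
      ∀ h : (({j // j ∈ J} × Bool) → ℕ) → ℝ, (∀ κ, |h κ| ≤ 1) →
      |Phi (M_p a J s s') T c h| ≤ ε * 2 ^ (T * Fintype.card (Fin 3)))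
    (lam w m V : ℕ) (hw : T ≤ w) (hm : T ≤ m) (x y : ℕ) (hx : x < 2 ^ lam) (hy : y < 2 ^ lam) :
    |∑ A ∈ range (2 ^ w), ∑ X ∈ range (2 ^ T * V), ∑ z ∈ range (2 ^ m),
      M_Psi a b J lam w s s' (x + 2 ^ lam * A) (y + 2 ^ lam * X) z| ≤
      ε * (2 ^ w * (2 ^ T * V) * 2 ^ m) := by
  have hc : ∀ i : {j // j ∈ J} × Bool, (x + 2 * a * i.1 * y) / 2 ^ lam
        + (if i.2 then s' else s) * (2 * a * i.1 + b) ≤ M_C a b J s' := by
    rintro ⟨⟨j, hj⟩, σ⟩
    refine le_trans ?_ (M_C_ge a b J s' j hj)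
    have h1 : (x + 2 * a * j * y) / 2 ^ lam ≤ 1 + 2 * a * j := by
      apply Nat.div_le_of_le_mul
      nlinarith [Nat.mul_le_mul_left (2 * a * j) hy.le]
    have h2 : (if σ then s' else s) * (2 * a * j + b) ≤ s' * (2 * a * j + b) := by
      apply Nat.mul_le_mul_right
      split_ifs
      · exact le_rfl
      · exact hs.le
    dsimp only
    omega
  have h := box_bound (M_p a J s s') (M_C a b J s') T ε hΦ w hw
    ![2 ^ (w - T), V, 2 ^ (m - T)] _ hc
  rw [M_piFinset_three (fun d => 2 ^ T * (![2 ^ (w - T), V, 2 ^ (m - T)] : Fin 3 → ℕ) d)] at h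
  have e1 : 2 ^ T * 2 ^ (w - T) = 2 ^ w := by rw [← pow_add]; congr 1; omega
  have e2 : 2 ^ T * 2 ^ (m - T) = 2 ^ m := by rw [← pow_add]; congr 1; omega
  simp only [Fin.prod_univ_three, Matrix.cons_val_zero, Matrix.cons_val_one, Matrix.cons_val,
    e1, e2] at h
  have e3 : ∀ A X z : ℕ, M_Psi a b J lam w s s' (x + 2 ^ lam * A) (y + 2 ^ lam * X) z =
      ∏ i, sg ((lin (M_p a J s s') i ![A, X, z] + ((x + 2 * a * i.1 * y) / 2 ^ lam
        + (if i.2 then s' else s) * (2 * a * i.1 + b))) % 2 ^ w) := M_Psi_eq a b J lam w s s' x y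
  simp only [e3]
  refine h.trans (le_of_eq ?_)
  push_cast
  ring

/-- The part of the sum over the good cells. -/
theorem M_total (a b : ℕ) (J : Finset ℕ) (s s' : ℕ) (hs : s < s') (T : ℕ) (ε : ℝ) (hε : 0 ≤ ε)
    (hΦ : ∀ c : ({j // j ∈ J} × Bool) → ℕ, (∀ i, c i ≤ M_C a b J s') →
      ∀ h : (({j // j ∈ J} × Bool) → ℕ) → ℝ, (∀ κ, |h κ| ≤ 1) →
      |Phi (M_p a J s s') T c h| ≤ ε * 2 ^ (T * Fintype.card (Fin 3)))
    (lam w m V : ℕ) (hw : T ≤ w) (hm : T ≤ m) :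
    |∑ χ ∈ range (2 ^ lam * (2 ^ T * V)), ∑ z ∈ range (2 ^ m), ∑ A ∈ range (2 ^ lam * 2 ^ w),
      (if M_Good a J lam A χ then M_Psi a b J lam w s s' A χ z else 0)| ≤
      ε * ((2 ^ lam * (2 ^ T * V)) * 2 ^ m * (2 ^ lam * 2 ^ w)) := by
  have h1 : ∑ χ ∈ range (2 ^ lam * (2 ^ T * V)), ∑ z ∈ range (2 ^ m),
      ∑ A ∈ range (2 ^ lam * 2 ^ w),
      (if M_Good a J lam A χ then M_Psi a b J lam w s s' A χ z else 0) =
      ∑ y ∈ range (2 ^ lam), ∑ x ∈ range (2 ^ lam), (if M_Good a J lam x y then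
        ∑ A ∈ range (2 ^ w), ∑ X ∈ range (2 ^ T * V), ∑ z ∈ range (2 ^ m),
          M_Psi a b J lam w s s' (x + 2 ^ lam * A) (y + 2 ^ lam * X) z else 0) := by
    rw [M_sum_range_mul, sum_comm]
    refine sum_congr rfl fun y _ => ?_
    have h2 : ∀ X z : ℕ, ∑ A ∈ range (2 ^ lam * 2 ^ w),
        (if M_Good a J lam A (y + 2 ^ lam * X) then M_Psi a b J lam w s s' A (y + 2 ^ lam * X) z
          else 0) = ∑ x ∈ range (2 ^ lam), ∑ A ∈ range (2 ^ w), (if M_Good a J lam x y then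
          M_Psi a b J lam w s s' (x + 2 ^ lam * A) (y + 2 ^ lam * X) z else 0) := by
      intro X z
      rw [M_sum_range_mul, sum_comm]
      refine sum_congr rfl fun x _ => sum_congr rfl fun A _ => ?_
      simp only [M_Good_iff]
    simp only [h2]
    -- move the sum over `x` outside
    have h3 : ∀ X : ℕ, ∑ z ∈ range (2 ^ m), ∑ x ∈ range (2 ^ lam), ∑ A ∈ range (2 ^ w),
        (if M_Good a J lam x y then
          M_Psi a b J lam w s s' (x + 2 ^ lam * A) (y + 2 ^ lam * X) z else 0) =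
        ∑ x ∈ range (2 ^ lam), ∑ A ∈ range (2 ^ w), ∑ z ∈ range (2 ^ m),
        (if M_Good a J lam x y then
          M_Psi a b J lam w s s' (x + 2 ^ lam * A) (y + 2 ^ lam * X) z else 0) := by
      intro X
      rw [sum_comm]
      exact sum_congr rfl fun x _ => sum_comm
    simp only [h3]
    rw [sum_comm]
    refine sum_congr rfl fun x _ => ?_
    rw [sum_comm]
    split_ifs
    · rfl
    · simp
  rw [h1]
  have h4 : ∀ y ∈ range (2 ^ lam), ∀ x ∈ range (2 ^ lam), |(if M_Good a J lam x y then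
        ∑ A ∈ range (2 ^ w), ∑ X ∈ range (2 ^ T * V), ∑ z ∈ range (2 ^ m),
          M_Psi a b J lam w s s' (x + 2 ^ lam * A) (y + 2 ^ lam * X) z else 0)| ≤
      ε * (2 ^ w * (2 ^ T * V) * 2 ^ m) := by
    intro y hy x hx
    split_ifs
    · exact M_avg a b J s s' hs T ε hΦ lam w m V hw hm x y (mem_range.1 hx) (mem_range.1 hy)
    · rw [abs_zero]
      positivity
  calc _ ≤ ∑ y ∈ range (2 ^ lam), ∑ x ∈ range (2 ^ lam), ε * (2 ^ w * (2 ^ T * V) * 2 ^ m) := by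
        refine (abs_sum_le_sum_abs _ _).trans (sum_le_sum fun y hy => ?_)
        exact (abs_sum_le_sum_abs _ _).trans (sum_le_sum fun x hx => h4 y hy x hx)
    _ = _ := by
        simp only [sum_const, card_range, nsmul_eq_mul]
        push_cast
        ring

theorem M_bad_total (a : ℕ) (J : Finset ℕ) (lam w χ : ℕ) :
    ((range (2 ^ lam * 2 ^ w)).filter (fun A => ¬ M_Good a J lam A χ)).card ≤
      2 ^ w * ∑ j ∈ J, (2 * a * j + 1) := by
  have h1 : ((range (2 ^ lam * 2 ^ w)).filter (fun A => ¬ M_Good a J lam A χ)).card =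
      ∑ A ∈ range (2 ^ lam * 2 ^ w), (if ¬ M_Good a J lam A χ then 1 else 0) := by
    rw [card_filter]
  rw [h1, M_sum_range_mul]
  have h2 : ∀ A ∈ range (2 ^ w), ∑ x ∈ range (2 ^ lam),
      (if ¬ M_Good a J lam (x + 2 ^ lam * A) χ then 1 else 0) ≤ ∑ j ∈ J, (2 * a * j + 1) := by
    intro A _
    have h3 : ∀ x, M_Good a J lam (x + 2 ^ lam * A) χ ↔ M_Good a J lam x χ := by
      intro x
      have := M_Good_iff a J lam x χ A 0
      simpa using this
    simp only [h3]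
    rw [← card_filter]
    exact M_bad_card' a J lam χ
  calc _ ≤ ∑ A ∈ range (2 ^ w), ∑ j ∈ J, (2 * a * j + 1) := sum_le_sum h2
    _ = _ := by rw [sum_const, card_range, smul_eq_mul]

/-- Replace the sum over `t` by the sum over the values of the equidistributed digit. -/
theorem M_fiber (T E : ℕ) (A' : ℕ → ℕ) (hA : ∀ t, A' t < E) (F : ℕ → ℝ) (hF : ∀ x, |F x| ≤ 1)
    (τ δ : ℝ) (hδ : ∀ α < E, |(((range T).filter (fun t => A' t = α)).card : ℝ) - τ| ≤ δ) :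
    |∑ t ∈ range T, F (A' t) - τ * ∑ α ∈ range E, F α| ≤ E * δ := by
  have h1 : ∑ t ∈ range T, F (A' t) =
      ∑ α ∈ range E, (((range T).filter (fun t => A' t = α)).card : ℝ) * F α := by
    rw [← sum_fiberwise_of_maps_to (s := range T) (t := range E) (g := A')
      (fun t _ => mem_range.2 (hA t))]
    refine sum_congr rfl fun α _ => ?_
    rw [sum_congr rfl (g := fun _ => F α)]
    · rw [sum_const, nsmul_eq_mul]
    · intro t ht
      rw [(mem_filter.1 ht).2]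
  rw [h1, mul_sum, ← sum_sub_distrib]
  calc _ ≤ ∑ α ∈ range E, |(((range T).filter (fun t => A' t = α)).card : ℝ) * F α - τ * F α| :=
        abs_sum_le_sum_abs _ _
    _ ≤ ∑ α ∈ range E, δ := by
        refine sum_le_sum fun α hα => ?_
        rw [← sub_mul, abs_mul]
        have h2 := hδ α (mem_range.1 hα)
        have h3 := hF α
        have h4 : (0 : ℝ) ≤ |(((range T).filter (fun t => A' t = α)).card : ℝ) - τ| := abs_nonneg _
        nlinarith [abs_nonneg (F α)]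
    _ = _ := by rw [sum_const, card_range, nsmul_eq_mul]

theorem M_abs_GK (a b c : ℕ) (J : Finset ℕ) (K n : ℕ) : |GK a b c J K n| = 1 := by
  unfold GK
  rw [abs_prod]
  exact prod_eq_one fun j _ => abs_sg _

/-- The estimate over full blocks. -/
theorem M_block (a b c : ℕ) (J : Finset ℕ) (s s' : ℕ) (hs : s < s') (T : ℕ) (ε₁ ε₂ : ℝ)
    (hε₁ : 0 ≤ ε₁)
    (hΦ : ∀ c : ({j // j ∈ J} × Bool) → ℕ, (∀ i, c i ≤ M_C a b J s') →
      ∀ h : (({j // j ∈ J} × Bool) → ℕ) → ℝ, (∀ κ, |h κ| ≤ 1) →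
      |Phi (M_p a J s s') T c h| ≤ ε₁ * 2 ^ (T * Fintype.card (Fin 3)))
    (κ lam w V : ℕ) (hw : T ≤ w) (hwκ : w ≤ κ) (hκ : lam + w ≤ κ)
    (hJ : ∀ j ∈ J, a * j ^ 2 + b * j ≤ 2 ^ κ)
    (hequi : ∀ χ z α : ℕ, α < 2 ^ (lam + w) →
      |(((range (2 ^ (κ - (lam + w)))).filter
        (fun t => qd a b c (χ * 2 ^ κ + z + 2 ^ (lam + w) * t) / 2 ^ κ % 2 ^ (lam + w) = α)).card : ℝ)
          - 2 ^ (κ - (lam + w)) / 2 ^ (lam + w)| ≤ ε₂ * 2 ^ (κ - (lam + w))) :
    |∑ n ∈ range (2 ^ κ * (2 ^ lam * (2 ^ T * V))),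
      GK a b c J (κ + lam + w) (n + 2 ^ (κ + lam) * s) *
        GK a b c J (κ + lam + w) (n + 2 ^ (κ + lam) * s')| ≤
      (ε₁ + 2 * 2 ^ (lam + w) * ε₂ + (∑ j ∈ J, (2 * a * j + 1) : ℕ) / 2 ^ lam) *
        (2 ^ κ * (2 ^ lam * (2 ^ T * V))) := by
  set m := lam + w with hm
  set H : ℕ → ℝ := fun n => GK a b c J (κ + lam + w) (n + 2 ^ (κ + lam) * s) *
        GK a b c J (κ + lam + w) (n + 2 ^ (κ + lam) * s') with hH
  set M := 2 ^ lam * (2 ^ T * V) with hM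
  set A' : ℕ → ℕ → ℕ → ℕ := fun χ z t =>
    qd a b c (χ * 2 ^ κ + z + 2 ^ m * t) / 2 ^ κ % 2 ^ m with hA'
  have hsplit : (2 : ℕ) ^ κ = 2 ^ m * 2 ^ (κ - m) := by rw [← pow_add]; congr 1; omega
  -- rewrite the sum
  have h1 : ∑ n ∈ range (2 ^ κ * M), H n =
      ∑ χ ∈ range M, ∑ z ∈ range (2 ^ m), ∑ t ∈ range (2 ^ (κ - m)),
        H (χ * 2 ^ κ + z + 2 ^ m * t) := by
    rw [M_sum_range_mul]
    refine sum_congr rfl fun χ _ => ?_
    conv_lhs => rw [hsplit]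
    rw [M_sum_range_mul, sum_comm]
    refine sum_congr rfl fun z _ => sum_congr rfl fun t _ => ?_
    congr 1
    rw [hsplit]
    ring
  -- the two parts
  set F1 : ℕ → ℕ → ℕ → ℝ := fun χ z A =>
    if M_Good a J lam A χ then M_Psi a b J lam w s s' A χ z else 0 with hF1
  set F2 : ℕ → ℕ → ℝ := fun χ A => if ¬ M_Good a J lam A χ then 1 else 0 with hF2
  have h2 : ∀ χ z t : ℕ, z < 2 ^ m → t < 2 ^ (κ - m) →
      |H (χ * 2 ^ κ + z + 2 ^ m * t) - F1 χ z (A' χ z t)| ≤ F2 χ (A' χ z t) := by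
    intro χ z t hz ht
    simp only [hF1, hF2]
    by_cases hg : M_Good a J lam (A' χ z t) χ
    · rw [if_pos hg, if_neg (not_not.2 hg)]
      have hlt : z + 2 ^ m * t < 2 ^ κ := by
        rw [hsplit]
        calc z + 2 ^ m * t < 2 ^ m + 2 ^ m * t := by omega
          _ = 2 ^ m * (t + 1) := by ring
          _ ≤ 2 ^ m * 2 ^ (κ - m) := Nat.mul_le_mul_left _ ht
      have := M_cell a b c J κ lam w m s s' hwκ (by omega) hJ χ z t hlt hg
      simp only [hH, hA', hm] at this ⊢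
      rw [this, sub_self, abs_zero]
    · rw [if_neg hg, if_pos hg, sub_zero]
      simp only [hH]
      rw [abs_mul, M_abs_GK, M_abs_GK, one_mul]
  have hA'lt : ∀ χ z t, A' χ z t < 2 ^ lam * 2 ^ w := by
    intro χ z t
    rw [← pow_add]
    exact Nat.mod_lt _ (pow_pos (by norm_num) _)
  set τ : ℝ := 2 ^ (κ - m) / 2 ^ m with hτ
  set δ : ℝ := ε₂ * 2 ^ (κ - m) with hδ
  have hfib : ∀ (χ z : ℕ) (F : ℕ → ℝ), (∀ x, |F x| ≤ 1) →
      |∑ t ∈ range (2 ^ (κ - m)), F (A' χ z t) - τ * ∑ α ∈ range (2 ^ lam * 2 ^ w), F α| ≤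
        2 ^ m * δ := by
    intro χ z F hF
    have := M_fiber (2 ^ (κ - m)) (2 ^ lam * 2 ^ w) (A' χ z) (hA'lt χ z) F hF τ δ (by
      intro α hα
      rw [← pow_add] at hα
      exact hequi χ z α hα)
    refine this.trans (le_of_eq ?_)
    rw [hm, pow_add]
    push_cast
    ring
  have hF1b : ∀ χ z x, |F1 χ z x| ≤ 1 := by
    intro χ z x
    simp only [hF1]
    split_ifs
    · rw [M_abs_Psi]
    · simp
  have hF2b : ∀ χ x, |F2 χ x| ≤ 1 := by
    intro χ x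
    simp only [hF2]
    split_ifs <;> simp
  -- first part
  have p1 : |∑ χ ∈ range M, ∑ z ∈ range (2 ^ m), ∑ t ∈ range (2 ^ (κ - m)), F1 χ z (A' χ z t)| ≤
      τ * (ε₁ * (M * 2 ^ m * 2 ^ m)) + M * 2 ^ m * (2 ^ m * δ) := by
    have e1 : ∑ χ ∈ range M, ∑ z ∈ range (2 ^ m), ∑ t ∈ range (2 ^ (κ - m)), F1 χ z (A' χ z t) =
        τ * ∑ χ ∈ range M, ∑ z ∈ range (2 ^ m), ∑ α ∈ range (2 ^ lam * 2 ^ w), F1 χ z α +
        ∑ χ ∈ range M, ∑ z ∈ range (2 ^ m), (∑ t ∈ range (2 ^ (κ - m)), F1 χ z (A' χ z t) -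
          τ * ∑ α ∈ range (2 ^ lam * 2 ^ w), F1 χ z α) := by
      simp only [sum_sub_distrib, mul_sum]
      ring
    rw [e1]
    refine (abs_add_le _ _).trans (add_le_add ?_ ?_)
    · rw [abs_mul, abs_of_nonneg (by positivity : 0 ≤ τ)]
      refine mul_le_mul_of_nonneg_left ?_ (by positivity)
      have := M_total a b J s s' hs T ε₁ hε₁ hΦ lam w m V hw (by omega)
      refine this.trans (le_of_eq ?_)
      rw [hM, hm]
      push_cast
      rw [pow_add]
    · calc _ ≤ ∑ χ ∈ range M, ∑ z ∈ range (2 ^ m), 2 ^ m * δ := by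
            refine (abs_sum_le_sum_abs _ _).trans (sum_le_sum fun χ _ => ?_)
            exact (abs_sum_le_sum_abs _ _).trans (sum_le_sum fun z _ => hfib χ z _ (hF1b χ z))
        _ = _ := by
            simp only [sum_const, card_range, nsmul_eq_mul]
            push_cast
            ring
  -- second part
  set Q := ∑ j ∈ J, (2 * a * j + 1) with hQ
  have p2 : ∑ χ ∈ range M, ∑ z ∈ range (2 ^ m), ∑ t ∈ range (2 ^ (κ - m)), F2 χ (A' χ z t) ≤
      M * 2 ^ m * (τ * (2 ^ w * Q) + 2 ^ m * δ) := by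
    calc _ ≤ ∑ χ ∈ range M, ∑ z ∈ range (2 ^ m), (τ * (2 ^ w * Q) + 2 ^ m * δ) := by
          refine sum_le_sum fun χ _ => sum_le_sum fun z _ => ?_
          have g1 := hfib χ z _ (hF2b χ)
          have g2 := (abs_le.1 g1).2
          have g3 : ∑ α ∈ range (2 ^ lam * 2 ^ w), F2 χ α ≤ 2 ^ w * Q := by
            have g4 := M_bad_total a J lam w χ
            have g5 : ∑ α ∈ range (2 ^ lam * 2 ^ w), F2 χ α =
                (((range (2 ^ lam * 2 ^ w)).filter (fun A => ¬ M_Good a J lam A χ)).card : ℝ) := by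
              rw [card_filter]
              push_cast
              rfl
            rw [g5]
            exact_mod_cast g4
          have g6 : (0 : ℝ) ≤ τ := by positivity
          nlinarith [mul_le_mul_of_nonneg_left g3 g6]
      _ = _ := by
          simp only [sum_const, card_range, nsmul_eq_mul]
          push_cast
          ring
  -- assemble
  have p3 : |∑ n ∈ range (2 ^ κ * M), H n| ≤
      |∑ χ ∈ range M, ∑ z ∈ range (2 ^ m), ∑ t ∈ range (2 ^ (κ - m)), F1 χ z (A' χ z t)| +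
      ∑ χ ∈ range M, ∑ z ∈ range (2 ^ m), ∑ t ∈ range (2 ^ (κ - m)), F2 χ (A' χ z t) := by
    rw [h1]
    have e2 : ∑ χ ∈ range M, ∑ z ∈ range (2 ^ m), ∑ t ∈ range (2 ^ (κ - m)),
        H (χ * 2 ^ κ + z + 2 ^ m * t) =
        ∑ χ ∈ range M, ∑ z ∈ range (2 ^ m), ∑ t ∈ range (2 ^ (κ - m)), F1 χ z (A' χ z t) +
        ∑ χ ∈ range M, ∑ z ∈ range (2 ^ m), ∑ t ∈ range (2 ^ (κ - m)),
          (H (χ * 2 ^ κ + z + 2 ^ m * t) - F1 χ z (A' χ z t)) := by
      simp only [sum_sub_distrib]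
      ring
    rw [e2]
    refine (abs_add_le _ _).trans (add_le_add le_rfl ?_)
    refine (abs_sum_le_sum_abs _ _).trans (sum_le_sum fun χ _ => ?_)
    refine (abs_sum_le_sum_abs _ _).trans (sum_le_sum fun z hz => ?_)
    refine (abs_sum_le_sum_abs _ _).trans (sum_le_sum fun t ht => ?_)
    exact h2 χ z t (mem_range.1 hz) (mem_range.1 ht)
  have hfin : τ * (ε₁ * (M * 2 ^ m * 2 ^ m)) + M * 2 ^ m * (2 ^ m * δ) +
      M * 2 ^ m * (τ * (2 ^ w * Q) + 2 ^ m * δ) =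
      (ε₁ + 2 * 2 ^ m * ε₂ + (Q : ℕ) / 2 ^ lam) * (2 ^ κ * M) := by
    have e3 : (2 : ℝ) ^ κ = 2 ^ m * 2 ^ (κ - m) := by exact_mod_cast hsplit
    have e4 : (2 : ℝ) ^ m = 2 ^ lam * 2 ^ w := by rw [hm, pow_add]
    have e5 : τ * 2 ^ m = 2 ^ (κ - m) := by
      rw [hτ]; field_simp
    have e6 : τ * 2 ^ w = 2 ^ (κ - m) / 2 ^ lam := by
      rw [hτ, e4]; field_simp
    calc _ = ε₁ * (M * 2 ^ m * (τ * 2 ^ m)) + 2 * (M * 2 ^ m * (2 ^ m * δ)) +
          M * 2 ^ m * ((τ * 2 ^ w) * Q) := by ring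
      _ = _ := by
          rw [e5, e6, e3, hδ]
          ring
  calc _ ≤ _ := p3
    _ ≤ τ * (ε₁ * (M * 2 ^ m * 2 ^ m)) + M * 2 ^ m * (2 ^ m * δ) +
      M * 2 ^ m * (τ * (2 ^ w * Q) + 2 ^ m * δ) := add_le_add p1 p2
    _ = _ := by
        rw [hfin, hM]
        push_cast
        ring

end Pool.Agent.Lib.MP_8fac0f_nt.N
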