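import Pool.Agent.Lib.MP_8fac0f_nt.N.M1

/-!
# Module M, part 2: from the window average to the correlations
-/

set_option autoImplicit false

namespace Pool.Agent.Lib.MP_8fac0f_nt.N

open Finset Filter Topology

theorem win_bound (a b c : ℕ) (ha : 1 ≤ a) (J : Finset ℕ) (hJ : J.Nonempty) (ρ s s' : ℕ)
    (hs : s < s') (ε : ℝ) (hε : 0 < ε) :
    ∃ μ₀ : ℕ, ∀ μ, μ₀ ≤ μ → ∃ k₀ : ℕ, ∀ k, k₀ ≤ k → ∀ N : ℕ, 2 ^ k ≤ 2 * N → N ≤ 2 ^ k →
      |∑ n ∈ range N, GK a b c J (k + ρ) (n + 2 ^ (k - μ) * s) *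
        GK a b c J (k + ρ) (n + 2 ^ (k - μ) * s')| ≤ ε * N := by
  -- contraction
  have hC : ∀ i, ∑ d, M_p a J s s' i d ≤ M_C a b J s' := by
    rintro ⟨⟨j, hj⟩, σ⟩
    refine le_trans ?_ (M_C_ge a b J s' j hj)
    rw [Fin.sum_univ_three]
    have h2 : (if σ then s' else s) ≤ s' := by
      split_ifs
      · exact le_rfl
      · exact hs.le
    have h3 : 2 * a * (if σ then s' else s) ≤ 2 * a * s' := Nat.mul_le_mul_left _ h2
    simp only [M_p, Matrix.cons_val_zero, Matrix.cons_val_one, Matrix.cons_val]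
    omega
  obtain ⟨T, hT⟩ := contraction (M_p a J s s') (M_C a b J s') hC (M_nonconst a ha J hJ s s' hs)
    (ε / 8) (by positivity)
  -- `μ₀`
  obtain ⟨μ₁, hμ₁⟩ := exists_nat_gt (16 / ε)
  refine ⟨T + μ₁, fun μ hμ => ?_⟩
  have hμε : (2 : ℝ) ^ T ≤ ε / 16 * 2 ^ μ := by
    have h1 : (16 / ε : ℝ) < 2 ^ μ₁ := hμ₁.trans (by exact_mod_cast Nat.lt_two_pow_self)
    have h2 : (2 : ℝ) ^ μ = 2 ^ T * 2 ^ μ₁ * 2 ^ (μ - (T + μ₁)) := by
      rw [← pow_add, ← pow_add]; congr 1; omega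
    have h3 : (1 : ℝ) ≤ 2 ^ (μ - (T + μ₁)) := one_le_pow₀ (by norm_num)
    rw [div_lt_iff₀ hε] at h1
    rw [h2]
    have h4 : (0 : ℝ) < 2 ^ T := by positivity
    have h5 : (16 : ℝ) ≤ 2 ^ μ₁ * 2 ^ (μ - (T + μ₁)) * ε := by
      have : (2 : ℝ) ^ μ₁ * ε ≤ 2 ^ μ₁ * ε * 2 ^ (μ - (T + μ₁)) :=
        le_mul_of_one_le_right (by positivity) h3
      linarith
    calc (2 : ℝ) ^ T = 2 ^ T * 16 / 16 := by ring
      _ ≤ 2 ^ T * (2 ^ μ₁ * 2 ^ (μ - (T + μ₁)) * ε) / 16 := by gcongr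
      _ = _ := by ring
  set w := μ + ρ with hw
  -- `lam`
  set Q := ∑ j ∈ J, (2 * a * j + 1) with hQ
  obtain ⟨lam, hlam⟩ := exists_nat_gt ((Q : ℝ) * 8 / ε)
  have hlamε : (Q : ℝ) / 2 ^ lam ≤ ε / 8 := by
    have h1 : (Q : ℝ) * 8 / ε < 2 ^ lam := hlam.trans (by exact_mod_cast Nat.lt_two_pow_self)
    rw [div_lt_iff₀ hε] at h1
    rw [div_le_iff₀ (by positivity)]
    linarith
  -- equidistribution
  obtain ⟨κ₀, hκ₀⟩ := equi a b c (lam + w) (lam + w) ha le_rfl (ε / (16 * 2 ^ (lam + w)))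
    (by positivity)
  obtain ⟨κ₁, hκ₁⟩ : ∃ κ₁ : ℕ, ∀ j ∈ J, a * j ^ 2 + b * j ≤ 2 ^ κ₁ := by
    refine ⟨∑ j ∈ J, (a * j ^ 2 + b * j), fun j hj => ?_⟩
    have h1 : a * j ^ 2 + b * j ≤ ∑ j ∈ J, (a * j ^ 2 + b * j) :=
      single_le_sum (f := fun j => a * j ^ 2 + b * j) (fun _ _ => Nat.zero_le _) hj
    exact h1.trans Nat.lt_two_pow_self.le
  refine ⟨κ₀ + κ₁ + (lam + w) + lam + μ, fun k hk N hN1 hN2 => ?_⟩
  set κ := k - μ - lam with hκ
  have hkκ : k - μ = κ + lam := by omega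
  have hkρ : k + ρ = κ + lam + w := by omega
  rw [hkκ, hkρ]
  set U := 2 ^ κ * (2 ^ lam * 2 ^ T) with hU
  set V := N / U with hV
  have hUpos : 0 < U := by positivity
  set H : ℕ → ℝ := fun n => GK a b c J (κ + lam + w) (n + 2 ^ (κ + lam) * s) *
        GK a b c J (κ + lam + w) (n + 2 ^ (κ + lam) * s') with hH
  have hHb : ∀ n, |H n| ≤ 1 := by
    intro n
    simp only [hH]
    rw [abs_mul, M_abs_GK, M_abs_GK, one_mul]
  have hNUV : N = U * V + N % U := by rw [hV]; exact (Nat.div_add_mod N U).symm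
  have hmain := M_block a b c J s s' hs T (ε / 8) (ε / (16 * 2 ^ (lam + w))) (by positivity) hT
    κ lam w V (by omega) (by omega) (by omega)
    (fun j hj => (hκ₁ j hj).trans (Nat.pow_le_pow_right (by norm_num) (by omega)))
    (hκ₀ κ (by omega))
  have hUV : 2 ^ κ * (2 ^ lam * (2 ^ T * V)) = U * V := by rw [hU]; ring
  rw [hUV] at hmain
  have hcoef : ε / 8 + 2 * 2 ^ (lam + w) * (ε / (16 * 2 ^ (lam + w))) + (Q : ℕ) / 2 ^ lam ≤
      3 * ε / 8 := by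
    have : 2 * 2 ^ (lam + w) * (ε / (16 * 2 ^ (lam + w))) = ε / 8 := by
      field_simp; ring
    rw [this]
    linarith
  have hUN : (U : ℝ) ≤ ε / 8 * N := by
    have e1 : (U : ℝ) = 2 ^ (k - μ) * 2 ^ T := by
      rw [hU, hkκ]; push_cast; rw [pow_add]; ring
    have e2 : (2 : ℝ) ^ k = 2 ^ (k - μ) * 2 ^ μ := by rw [← pow_add]; congr 1; omega
    have e3 : (2 : ℝ) ^ k ≤ 2 * N := by exact_mod_cast hN1
    rw [e1]
    calc (2 : ℝ) ^ (k - μ) * 2 ^ T ≤ 2 ^ (k - μ) * (ε / 16 * 2 ^ μ) := by gcongr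
      _ = ε / 16 * 2 ^ k := by rw [e2]; ring
      _ ≤ ε / 16 * (2 * N) := by gcongr
      _ = _ := by ring
  have hUVN : (U : ℝ) * V ≤ N := by exact_mod_cast (by omega : U * V ≤ N)
  calc |∑ n ∈ range N, H n| = |∑ n ∈ range (U * V), H n + ∑ n ∈ range (N % U), H (U * V + n)| := by
        rw [← sum_range_add, ← hNUV]
    _ ≤ |∑ n ∈ range (U * V), H n| + |∑ n ∈ range (N % U), H (U * V + n)| := abs_add_le _ _
    _ ≤ 3 * ε / 8 * N + ε / 8 * N := by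
        refine add_le_add ?_ ?_
        · refine hmain.trans ?_
          calc _ ≤ (3 * ε / 8) * (2 ^ κ * (2 ^ lam * (2 ^ T * V))) :=
                mul_le_mul_of_nonneg_right hcoef (by positivity)
            _ = 3 * ε / 8 * (U * V) := by
                congr 1
                exact_mod_cast hUV
            _ ≤ _ := by gcongr
        · calc |∑ n ∈ range (N % U), H (U * V + n)| ≤ ∑ n ∈ range (N % U), 1 :=
                (abs_sum_le_sum_abs _ _).trans (sum_le_sum fun n _ => hHb _)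
            _ = ((N % U : ℕ) : ℝ) := by simp
            _ ≤ U := by exact_mod_cast (Nat.mod_lt N hUpos).le
            _ ≤ _ := hUN
    _ ≤ ε * N := by nlinarith [(Nat.cast_nonneg N : (0 : ℝ) ≤ N)]

/-- The polynomial. -/
noncomputable def M_poly (a b c : ℕ) : Polynomial ℕ :=
  Polynomial.C a * Polynomial.X ^ 2 + Polynomial.C b * Polynomial.X + Polynomial.C c

theorem M_poly_eval (a b c n : ℕ) : (M_poly a b c).eval n = qd a b c n := by
  unfold M_poly qd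
  simp

theorem M_qd_le (a b c m N : ℕ) (hN : 1 ≤ N) (hm : m ≤ N) :
    qd a b c (N + m) ≤ (a + b + c) * (4 * N ^ 2) := by
  unfold qd
  have h1 : (N + m) ^ 2 ≤ 4 * N ^ 2 := by nlinarith
  have h2 : N + m ≤ 4 * N ^ 2 := by nlinarith
  have h3 : 1 ≤ 4 * N ^ 2 := by nlinarith
  nlinarith [Nat.mul_le_mul_left a h1, Nat.mul_le_mul_left b h2, Nat.mul_le_mul_left c h3]

theorem quad_corr (a b c : ℕ) (ha : 1 ≤ a) (J : Finset ℕ) (hJ : J.Nonempty) (hJe : Even J.card) :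
    CorrZero (fun n => sg (qd a b c n)) J := by
  unfold CorrZero
  rw [Metric.tendsto_atTop]
  intro ε hε
  -- the number of shifts
  obtain ⟨S₀, hS₀⟩ := exists_nat_gt (128 / ε ^ 2)
  set S := S₀ + 1 with hS
  have hSpos : 0 < S := Nat.succ_pos _
  have hSε : (1 : ℝ) / S ≤ ε ^ 2 / 128 := by
    rw [div_lt_iff₀ (by positivity)] at hS₀
    rw [div_le_div_iff₀ (by positivity) (by norm_num)]
    rw [hS]
    push_cast
    nlinarith [sq_nonneg ε]
  have hsqrt : Real.sqrt (1 / S + ε ^ 2 / 128) ≤ ε / 8 := by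
    apply Real.sqrt_le_iff.2
    refine ⟨by positivity, ?_⟩
    nlinarith
  -- the range of `J`
  obtain ⟨m, hm⟩ : ∃ m : ℕ, ∀ j ∈ J, j ≤ m := ⟨J.sup id, fun j hj => Finset.le_sup (f := id) hj⟩
  -- `ρ`
  obtain ⟨ρ, hρ⟩ := exists_nat_gt ((m * (a + b + c) * 4 : ℕ) * 16 / ε)
  have hρε : ((m * (a + b + c) * 4 : ℕ) : ℝ) / 2 ^ ρ ≤ ε / 16 := by
    have h1 : ((m * (a + b + c) * 4 : ℕ) : ℝ) * 16 / ε < 2 ^ ρ :=
      hρ.trans (by exact_mod_cast Nat.lt_two_pow_self)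
    rw [div_lt_iff₀ hε] at h1
    rw [div_le_iff₀ (by positivity)]
    linarith
  -- `μ`
  have hwin : ∀ s s' : ℕ, ∃ μ₀ : ℕ, s < s' → ∀ μ, μ₀ ≤ μ → ∃ k₀ : ℕ, ∀ k, k₀ ≤ k → ∀ N : ℕ,
      2 ^ k ≤ 2 * N → N ≤ 2 ^ k → |∑ n ∈ range N, GK a b c J (k + ρ) (n + 2 ^ (k - μ) * s) *
        GK a b c J (k + ρ) (n + 2 ^ (k - μ) * s')| ≤ ε ^ 2 / 128 * N := by
    intro s s'
    by_cases hs : s < s'
    · obtain ⟨μ₀, h⟩ := win_bound a b c ha J hJ ρ s s' hs (ε ^ 2 / 128) (by positivity)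
      exact ⟨μ₀, fun _ => h⟩
    · exact ⟨0, fun h => absurd h hs⟩
  choose μ₀ hμ₀ using hwin
  obtain ⟨μ₁, hμ₁⟩ := exists_nat_gt ((S : ℝ) * 32 / ε)
  set μ := ∑ s ∈ range S, ∑ s' ∈ range S, μ₀ s s' + μ₁ with hμ
  have hμge : ∀ s < S, ∀ s' < S, μ₀ s s' ≤ μ := by
    intro s hs s' hs'
    have h1 : μ₀ s s' ≤ ∑ s' ∈ range S, μ₀ s s' :=
      single_le_sum (f := fun s' => μ₀ s s') (fun _ _ => Nat.zero_le _) (mem_range.2 hs')
    have h2 : ∑ s' ∈ range S, μ₀ s s' ≤ ∑ s ∈ range S, ∑ s' ∈ range S, μ₀ s s' :=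
      single_le_sum (f := fun s => ∑ s' ∈ range S, μ₀ s s') (fun _ _ => Nat.zero_le _)
        (mem_range.2 hs)
    omega
  have hμε : (S : ℝ) ≤ ε / 32 * 2 ^ μ := by
    have h1 : (S : ℝ) * 32 / ε < 2 ^ μ₁ := hμ₁.trans (by exact_mod_cast Nat.lt_two_pow_self)
    have h2 : (2 : ℝ) ^ μ₁ ≤ 2 ^ μ := pow_le_pow_right₀ (by norm_num) (by omega)
    rw [div_lt_iff₀ hε] at h1
    nlinarith
  -- `k`
  have hk : ∀ s s' : ℕ, ∃ k₀ : ℕ, s < s' → s' < S → ∀ k, k₀ ≤ k → ∀ N : ℕ,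
      2 ^ k ≤ 2 * N → N ≤ 2 ^ k → |∑ n ∈ range N, GK a b c J (k + ρ) (n + 2 ^ (k - μ) * s) *
        GK a b c J (k + ρ) (n + 2 ^ (k - μ) * s')| ≤ ε ^ 2 / 128 * N := by
    intro s s'
    by_cases hs : s < s' ∧ s' < S
    · obtain ⟨k₀, h⟩ := hμ₀ s s' hs.1 μ (hμge s (hs.1.trans hs.2) s' hs.2)
      exact ⟨k₀, fun _ _ => h⟩
    · exact ⟨0, fun h1 h2 => absurd ⟨h1, h2⟩ hs⟩
  choose k₀ hk₀ using hk
  set k₁ := ∑ s ∈ range S, ∑ s' ∈ range S, k₀ s s' + μ with hk₁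
  have hkge : ∀ s < S, ∀ s' < S, k₀ s s' ≤ k₁ := by
    intro s hs s' hs'
    have h1 : k₀ s s' ≤ ∑ s' ∈ range S, k₀ s s' :=
      single_le_sum (f := fun s' => k₀ s s') (fun _ _ => Nat.zero_le _) (mem_range.2 hs')
    have h2 : ∑ s' ∈ range S, k₀ s s' ≤ ∑ s ∈ range S, ∑ s' ∈ range S, k₀ s s' :=
      single_le_sum (f := fun s => ∑ s' ∈ range S, k₀ s s') (fun _ _ => Nat.zero_le _)
        (mem_range.2 hs)
    omega
  refine ⟨2 ^ k₁ + m + 2, fun N hN => ?_⟩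
  have hp1 : 0 < 2 ^ k₁ := pow_pos (by norm_num) _
  have hN' : 2 ^ k₁ + m + 2 ≤ N := hN
  set k := Nat.clog 2 N with hkdef
  have hN2 : N ≤ 2 ^ k := Nat.le_pow_clog (by norm_num) N
  have hN1 : 2 ^ k ≤ 2 * N := by
    have h1 : 2 ^ (k - 1) < N := Nat.pow_pred_clog_lt_self (by norm_num) (by omega)
    rcases Nat.eq_zero_or_pos k with h0 | h0
    · rw [h0] at hN2; simp at hN2; omega
    · have : 2 ^ k = 2 * 2 ^ (k - 1) := by
        rw [← pow_succ']; congr 1; omega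
      omega
  have hkk : k₁ ≤ k := by
    have : 2 ^ k₁ ≤ 2 ^ k := by omega
    exact (Nat.pow_le_pow_iff_right (by norm_num)).1 this
  have hNpos : 0 < N := by omega
  have hNR : (0 : ℝ) < N := by exact_mod_cast hNpos
  -- van der Corput
  have hvdc := vdcR (GK a b c J (k + ρ)) (fun n => (M_abs_GK a b c J (k + ρ) n).le) N S
    (2 ^ (k - μ) * S) hNpos hSpos (fun i => 2 ^ (k - μ) * i)
    (fun i hi => Nat.mul_le_mul_left _ hi.le) (ε ^ 2 / 128) (by positivity) (by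
      intro i hi j hj hij
      rcases lt_or_gt_of_ne hij with h | h
      · exact hk₀ i j h hj k ((hkge i hi j hj).trans hkk) N hN1 hN2
      · have := hk₀ j i h hi k ((hkge j hj i hi).trans hkk) N hN1 hN2
        simpa only [mul_comm] using this)
  have hD : 2 * ((2 ^ (k - μ) * S : ℕ) : ℝ) / N ≤ ε / 8 := by
    rw [div_le_iff₀ hNR]
    have e2 : (2 : ℝ) ^ k = 2 ^ (k - μ) * 2 ^ μ := by rw [← pow_add]; congr 1; omega
    have e3 : (2 : ℝ) ^ k ≤ 2 * N := by exact_mod_cast hN1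
    push_cast
    calc 2 * ((2 : ℝ) ^ (k - μ) * S) ≤ 2 * (2 ^ (k - μ) * (ε / 32 * 2 ^ μ)) := by gcongr
      _ = ε / 16 * 2 ^ k := by rw [e2]; ring
      _ ≤ ε / 16 * (2 * N) := by gcongr
      _ = _ := by ring
  have hG : |∑ n ∈ range N, GK a b c J (k + ρ) n| ≤ ε / 4 * N := by
    refine hvdc.trans ?_
    gcongr
    linarith
  -- truncation
  set F : ℕ → ℝ := fun n => ∏ j ∈ J, sg (qd a b c (n + j)) with hF
  have htr := trunc (M_poly a b c) J hJe m hm (k + ρ) N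
  simp only [M_poly_eval] at htr
  set Z := (range N).filter (fun n => ∏ j ∈ J, sg (qd a b c (n + j)) ≠
      ∏ j ∈ J, sg (qd a b c (n + j) % 2 ^ (k + ρ))) with hZ
  have hZle : (Z.card : ℝ) ≤ ε / 16 * N := by
    refine htr.trans ?_
    have h1 : ((qd a b c (N + m) : ℕ) : ℝ) ≤ (a + b + c) * (4 * N ^ 2) := by
      exact_mod_cast M_qd_le a b c m N (by omega) (by omega)
    have h2 : (N : ℝ) ≤ 2 ^ k := by exact_mod_cast hN2
    have h3 : (2 : ℝ) ^ (k + ρ) = 2 ^ k * 2 ^ ρ := pow_add _ _ _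
    calc (m : ℝ) * ((qd a b c (N + m) : ℕ) : ℝ) / 2 ^ (k + ρ)
        ≤ m * ((a + b + c) * (4 * N ^ 2)) / 2 ^ (k + ρ) := by gcongr
      _ = ((m * (a + b + c) * 4 : ℕ) : ℝ) / 2 ^ ρ * (N * (N / 2 ^ k)) := by
          rw [h3]; push_cast; field_simp
      _ ≤ ε / 16 * (N * 1) := by
          gcongr
          rw [div_le_one (by positivity)]
          exact h2
      _ = _ := by ring
  have hFG : |∑ n ∈ range N, F n - ∑ n ∈ range N, GK a b c J (k + ρ) n| ≤ 2 * Z.card := by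
    rw [← sum_sub_distrib]
    refine (abs_sum_le_sum_abs _ _).trans ?_
    have h1 : ∀ n ∈ range N, |F n - GK a b c J (k + ρ) n| ≤ if n ∈ Z then 2 else 0 := by
      intro n hn
      split_ifs with h
      · have g1 : |F n| ≤ 1 := by
          simp only [hF]
          rw [abs_prod]
          exact (prod_eq_one fun j _ => abs_sg _).le
        have g2 := (M_abs_GK a b c J (k + ρ) n).le
        have := abs_sub (F n) (GK a b c J (k + ρ) n)
        linarith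
      · have : F n = GK a b c J (k + ρ) n := by
          by_contra hne
          exact h (mem_filter.2 ⟨hn, hne⟩)
        rw [this, sub_self, abs_zero]
    refine (sum_le_sum h1).trans ?_
    rw [← sum_filter, sum_const, nsmul_eq_mul]
    have : ((range N).filter (fun n => n ∈ Z)).card ≤ Z.card :=
      card_le_card (fun x hx => (mem_filter.1 hx).2)
    have h2 : (((range N).filter (fun n => n ∈ Z)).card : ℝ) ≤ Z.card := by exact_mod_cast this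
    linarith
  have hfin : |∑ n ∈ range N, F n| ≤ ε / 2 * N := by
    have h1 : |∑ n ∈ range N, F n| ≤ |∑ n ∈ range N, GK a b c J (k + ρ) n| + 2 * Z.card := by
      have := abs_sub_abs_le_abs_sub (∑ n ∈ range N, F n) (∑ n ∈ range N, GK a b c J (k + ρ) n)
      linarith
    nlinarith
  rw [Real.dist_eq, sub_zero, abs_div, abs_of_pos hNR, div_lt_iff₀ hNR]
  refine lt_of_le_of_lt hfin ?_
  nlinarith

end Pool.Agent.Lib.MP_8fac0f_nt.N
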