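import Pool.Agent.Lib.MP_8fac0f_nt.N.M2
import Pool.Agent.Lib.MP_8fac0f_nt.Integer

/-!
# The Thue-Morse sequence along every quadratic polynomial is normal
-/

set_option autoImplicit false

namespace Pool.Agent.Lib.MP_8fac0f_nt.N.Quadratic

open Filter Topology Polynomial Pool.Agent.Lib.MP_8fac0f_nt

/-- The Thue-Morse sequence: the binary sum of digits of `n`, modulo two. -/
def thueMorse (n : ℕ) : ℕ := (Nat.digits 2 n).sum % 2

/-- The first values are 0, 1, 1, 0, 1, 0, 0, 1. -/
theorem thueMorse_values : (List.range 8).map thueMorse = [0, 1, 1, 0, 1, 0, 0, 1] := by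
  simp [thueMorse, List.range_succ]

theorem sg_eq (n : ℕ) : N.sg n = (-1) ^ thueMorse n := by
  unfold N.sg thueMorse
  conv_lhs => rw [← Nat.div_add_mod (Nat.digits 2 n).sum 2, pow_add, pow_mul]
  simp

theorem eval_quad (Q : ℕ[X]) (hQ : Q.natDegree = 2) (n : ℕ) :
    Q.eval n = N.qd (Q.coeff 2) (Q.coeff 1) (Q.coeff 0) n := by
  rw [eval_eq_sum_range, hQ]
  unfold N.qd
  simp [Finset.sum_range_succ]
  ring

/-- For every polynomial `P` of degree two with integer coefficients and nonnegative values at the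
naturals, the sequence `n ↦ thueMorse (P n)` is normal. -/
theorem result (P : ℤ[X]) (hP : P.natDegree = 2) (hpos : ∀ n : ℕ, 0 ≤ P.eval (n : ℤ))
    (k : ℕ) (w : Fin k → Fin 2) :
    Tendsto (fun N : ℕ => (((Finset.range N).filter
      (fun n => ∀ i : Fin k, thueMorse (P.eval ((n + i : ℕ) : ℤ)).toNat = w i)).card : ℝ) / N)
      atTop (𝓝 ((1 / 2) ^ k)) := by
  obtain ⟨v, Q, hQd, hQ⟩ := exists_nat_poly P (by omega) hpos
  have hQ2 : Q.natDegree = 2 := hQd.trans hP
  set a := Q.coeff 2 with ha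
  set b := Q.coeff 1 with hb
  set c := Q.coeff 0 with hc
  have ha1 : 1 ≤ a := by
    have : Q.leadingCoeff ≠ 0 := by
      apply leadingCoeff_ne_zero.2
      rintro rfl
      simp at hQ2
    rw [leadingCoeff, hQ2] at this
    omega
  have hcorr : ∀ J : Finset ℕ, J.Nonempty → N.CorrZero (fun n => N.sg (N.qd a b c n)) J :=
    N.even_reduction _ (fun n => N.sg_cases _) (fun J hJ hJe => N.quad_corr a b c ha1 J hJ hJe)
  have h := N.normal_of_corr (fun n => thueMorse (N.qd a b c n)) (fun n => N.sg (N.qd a b c n))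
    (fun n => Nat.mod_lt _ (by norm_num)) (fun n => sg_eq _) hcorr k w
  refine N.tendsto_shift (fun n => ∀ i : Fin k, thueMorse (P.eval ((n + i : ℕ) : ℤ)).toNat = w i)
    v _ ?_
  refine h.congr fun N => ?_
  congr 3
  ext n
  simp only [Finset.mem_filter]
  refine and_congr_right fun _ => forall_congr' fun i => ?_
  rw [show n + v + (i : ℕ) = n + i + v by ring, hQ, eval_quad Q hQ2]

end Pool.Agent.Lib.MP_8fac0f_nt.N.Quadratic
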